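import Mathlib

set_option autoImplicit false

namespace Pool.Agent.HLF

/-- the value at `y` of the `i`-th of the affine forms with coefficients `a` and constant terms
`b` -/
def val {r s : ℕ} (a : Fin r → Fin s → ℕ) (b : Fin r → ℕ) (y : Fin s → ℕ) (i : Fin r) : ℕ :=
  b i + ∑ t, a i t * y t

end Pool.Agent.HLF
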