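import Mathlib

/-!
# The number of solutions of a system of linear equations in a box
-/

set_option autoImplicit false

open Finset

namespace Pool.Agent.HLF

/-- A system of `m + 1` independent linear equations in `s + 1` unknowns has at most `U ^ (s - m)`
solutions in `[0, U)`. -/
theorem solve_aux {κ : Type} [Fintype κ] [DecidableEq κ] {m : ℕ}
    (A : Matrix (Fin (m + 1)) κ ℚ) (hA : LinearIndependent ℚ A.row) (U : ℕ)
    (v : Fin (m + 1) → ℚ) :
    ((Finset.univ : Finset (κ → Fin U)).filter (fun p =>
      ∀ j, ∑ o, A j o * ((p o : ℕ) : ℚ) = v j)).card * U ^ (m + 1) ≤ U ^ Fintype.card κ := by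
  classical
  have hrank : A.rank = m + 1 := by rw [hA.rank_matrix, Fintype.card_fin]
  obtain ⟨b, hb, hspan, hli⟩ := exists_linearIndependent ℚ (Set.range A.col)
  have hfin : b.Finite := (Set.finite_range A.col).subset hb
  have : Fintype b := hfin.fintype
  have hcard : Fintype.card b = m + 1 := by
    have h1 : Module.finrank ℚ (Submodule.span ℚ (Set.range A.col)) = m + 1 := by
      rw [← Matrix.rank_eq_finrank_span_cols, hrank]
    rw [← hspan] at h1
    have h2 := finrank_span_set_eq_card hli
    rw [h1, Set.toFinset_card] at h2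
    exact h2.symm
  choose J hJ using fun x : b => hb x.2
  have hJi : Function.Injective J := by
    intro x y hxy
    apply Subtype.ext
    rw [← hJ x, ← hJ y, hxy]
  -- the restriction to the other coordinates
  let T : Type := {o : κ // o ∉ Set.range J}
  let f : (κ → Fin U) → (T → Fin U) := fun p o => p o.1
  set S := (Finset.univ : Finset (κ → Fin U)).filter (fun p =>
      ∀ j, ∑ o, A j o * ((p o : ℕ) : ℚ) = v j) with hS
  have hinj : Set.InjOn f (S : Set (κ → Fin U)) := by
    intro p hp q hq hpq
    rw [Finset.mem_coe, hS, Finset.mem_filter] at hp hq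
    have h1 : ∀ o, o ∉ Set.range J → p o = q o := fun o ho => congrFun hpq ⟨o, ho⟩
    have h2 : ∀ j, ∑ x : b, (((p (J x) : ℕ) : ℚ) - ((q (J x) : ℕ) : ℚ)) * A.col (J x) j = 0 := by
      intro j
      have h3 : ∑ o, A j o * (((p o : ℕ) : ℚ) - ((q o : ℕ) : ℚ)) = 0 := by
        simp only [mul_sub, Finset.sum_sub_distrib]
        rw [hp.2 j, hq.2 j, sub_self]
      rw [← h3]
      have h4 : ∑ o ∈ Finset.univ.image J, A j o * (((p o : ℕ) : ℚ) - ((q o : ℕ) : ℚ)) =
          ∑ o, A j o * (((p o : ℕ) : ℚ) - ((q o : ℕ) : ℚ)) := by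
        refine Finset.sum_subset (Finset.subset_univ _) fun o _ ho => ?_
        have h5 : o ∉ Set.range J := by
          rintro ⟨x, rfl⟩
          exact ho (Finset.mem_image_of_mem _ (Finset.mem_univ _))
        rw [h1 o h5, sub_self, mul_zero]
      rw [← h4, Finset.sum_image fun x _ y _ h => hJi h]
      refine Finset.sum_congr rfl fun x _ => ?_
      rw [mul_comm]
      rfl
    have h3 := Fintype.linearIndependent_iff.1 hli
      (fun x : b => ((p (J x) : ℕ) : ℚ) - ((q (J x) : ℕ) : ℚ)) (by
        funext j
        rw [Finset.sum_apply]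
        have h4 := h2 j
        rw [Pi.zero_apply, ← h4]
        refine Finset.sum_congr rfl fun x _ => ?_
        rw [Pi.smul_apply, smul_eq_mul, hJ x])
    funext o
    by_cases ho : o ∈ Set.range J
    · obtain ⟨x, rfl⟩ := ho
      have h4 := h3 x
      have h5 : (p (J x) : ℕ) = (q (J x) : ℕ) := by
        have h6 : ((p (J x) : ℕ) : ℚ) = ((q (J x) : ℕ) : ℚ) := sub_eq_zero.1 h4
        exact_mod_cast h6
      exact Fin.ext h5
    · exact h1 o ho
  have hle : S.card ≤ U ^ Fintype.card T := by
    have h1 := Finset.card_le_card_of_injOn f (fun p _ => Finset.mem_univ (f p)) hinj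
    rwa [Finset.card_univ, Fintype.card_fun, Fintype.card_fin] at h1
  have hT : Fintype.card T + (m + 1) = Fintype.card κ := by
    have h1 : Fintype.card T = Fintype.card κ - Fintype.card (Set.range J) :=
      Fintype.card_subtype_compl _
    have h2 : Fintype.card (Set.range J) = m + 1 := by
      rw [Set.card_range_of_injective hJi, hcard]
    have h3 : m + 1 ≤ Fintype.card κ := by
      rw [← hcard]
      exact Fintype.card_le_of_injective J hJi
    omega
  calc S.card * U ^ (m + 1) ≤ U ^ Fintype.card T * U ^ (m + 1) := Nat.mul_le_mul_right _ hle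
    _ = U ^ Fintype.card κ := by rw [← pow_add, hT]

theorem solve_count {m s : ℕ} (a : Fin (m + 1) → Fin s → ℕ)
    (ha : AffineIndependent ℚ (fun j : Fin (m + 1) => (fun t : Fin s => (a j t : ℚ))))
    (U : ℕ) (v : Fin (m + 1) → ℕ) :
    ((Finset.univ : Finset (Fin U × (Fin s → Fin U))).filter (fun p =>
      ∀ j, (p.1 : ℕ) + ∑ t, a j t * (p.2 t : ℕ) = v j)).card * U ^ (m + 1) ≤ U ^ (s + 1) := by
  classical
  let A : Matrix (Fin (m + 1)) (Option (Fin s)) ℚ := fun j o => o.elim 1 fun t => (a j t : ℚ)
  have hA : LinearIndependent ℚ A.row := by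
    rw [Fintype.linearIndependent_iff]
    intro g hg j
    rw [affineIndependent_iff] at ha
    refine ha Finset.univ g ?_ ?_ j (Finset.mem_univ j)
    · have h1 := congrFun hg none
      rw [Finset.sum_apply, Pi.zero_apply] at h1
      rw [← h1]
      refine Finset.sum_congr rfl fun i _ => ?_
      rw [Pi.smul_apply, smul_eq_mul]
      exact (mul_one _).symm
    · funext t
      have h1 := congrFun hg (some t)
      rw [Finset.sum_apply, Pi.zero_apply] at h1
      rw [Finset.sum_apply, Pi.zero_apply, ← h1]
      rfl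
  have h := solve_aux A hA U fun j => (v j : ℚ)
  rw [Fintype.card_option, Fintype.card_fin] at h
  refine le_trans (Nat.mul_le_mul_right _ ?_) h
  refine Finset.card_le_card_of_injOn
    (fun p : Fin U × (Fin s → Fin U) => fun o : Option (Fin s) => o.elim p.1 p.2) ?_ ?_
  · intro p hp
    rw [Finset.mem_coe, Finset.mem_filter] at hp ⊢
    refine ⟨Finset.mem_univ _, fun j => ?_⟩
    have h1 := hp.2 j
    rw [Fintype.sum_option]
    rw [← h1]
    push_cast
    change (1 : ℚ) * ((p.1 : ℕ) : ℚ) + _ = _
    rw [one_mul]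
    rfl
  · intro p _ q _ hpq
    refine Prod.ext (congrFun hpq none) (funext fun t => congrFun hpq (some t))

end Pool.Agent.HLF
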