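import Mathlib
import Pool.Agent.HLT.Final1
import Pool.Agent.HLF.Defs
import Pool.Agent.HLF.Solve

set_option autoImplicit false

open Finset Filter

namespace Pool.Agent.HLF

open Pool.Agent.HLT Pool.Agent.HL26

/-- two different forms agree at few points of a box -/
lemma coincide {r s : ℕ} (a : Fin r → Fin s → ℕ) (b : Fin r → ℕ) (i j : Fin r) (h : a i ≠ a j)
    (U : ℕ) : ((univ : Finset (Fin s → Fin U)).filter (fun u =>
      val a b (fun t => (u t : ℕ)) i = val a b (fun t => (u t : ℕ)) j)).card * U ≤ U ^ s := by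
  have hA : LinearIndependent ℚ
      (Matrix.row (fun (_ : Fin (0 + 1)) (t : Fin s) => ((a i t : ℚ) - (a j t : ℚ)))) := by
    rw [Fintype.linearIndependent_iff]
    intro g hg k
    by_contra hk
    apply h
    funext t
    have h1 := congrFun hg t
    have hk0 : k = (0 : Fin (0 + 1)) := Fin.ext (by
      have h2 := k.2
      have h3 : ((0 : Fin (0 + 1)) : ℕ) = 0 := rfl
      omega)
    rw [Finset.sum_apply, Fin.sum_univ_one] at h1
    subst hk0
    simp only [Matrix.row, Pi.zero_apply, Pi.smul_apply, smul_eq_mul, mul_eq_zero] at h1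
    rcases h1 with h1 | h1
    · exact absurd h1 hk
    · have h2 : (a i t : ℚ) = (a j t : ℚ) := by linarith
      exact_mod_cast h2
  have h1 := solve_aux (fun (_ : Fin (0 + 1)) (t : Fin s) => ((a i t : ℚ) - (a j t : ℚ))) hA U
    (fun _ => (b j : ℚ) - (b i : ℚ))
  rw [Fintype.card_fin, zero_add, pow_one] at h1
  refine le_trans (Nat.mul_le_mul_right _ (Finset.card_le_card ?_)) h1
  intro u hu
  rw [Finset.mem_filter] at hu ⊢
  refine ⟨Finset.mem_univ _, fun _ => ?_⟩
  have h2 := hu.2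
  unfold val at h2
  have h3 : (b i : ℚ) + ∑ t, (a i t : ℚ) * ((u t : ℕ) : ℚ) =
      (b j : ℚ) + ∑ t, (a j t : ℚ) * ((u t : ℕ) : ℚ) := by exact_mod_cast h2
  have h4 : ∑ t, ((a i t : ℚ) - (a j t : ℚ)) * ((u t : ℕ) : ℚ) =
      ∑ t, (a i t : ℚ) * ((u t : ℕ) : ℚ) - ∑ t, (a j t : ℚ) * ((u t : ℕ) : ℚ) := by
    rw [← Finset.sum_sub_distrib]
    exact Finset.sum_congr rfl fun t _ => by ring
  rw [h4]
  linarith

/-- the number of integers in an interval in a residue class -/
lemma card_interval (b H M c : ℕ) (hM : 0 < M) :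
    H / M ≤ ((Finset.Icc b (b + H)).filter (fun v => v ≡ c [MOD M])).card ∧
      ((Finset.Icc b (b + H)).filter (fun v => v ≡ c [MOD M])).card ≤ H / M + 1 := by
  have h := B6aux.card_class H M (c + (M - 1) * b) hM
  have e : (Finset.Icc b (b + H)).filter (fun v => v ≡ c [MOD M]) =
      ((Finset.range (H + 1)).filter (fun v => v ≡ c + (M - 1) * b [MOD M])).image
        (fun v => v + b) := by
    have hMb : c + (M - 1) * b + b = c + M * b := by
      obtain ⟨k, rfl⟩ : ∃ k, M = k + 1 := ⟨M - 1, by omega⟩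
      rw [Nat.add_sub_cancel]
      ring
    have hcm : c + M * b ≡ c [MOD M] := by
      unfold Nat.ModEq
      rw [Nat.add_mul_mod_self_left]
    ext v
    rw [Finset.mem_filter, Finset.mem_Icc, Finset.mem_image]
    constructor
    · rintro ⟨⟨h1, h2⟩, h3⟩
      refine ⟨v - b, ?_, by omega⟩
      rw [Finset.mem_filter, Finset.mem_range]
      refine ⟨by omega, ?_⟩
      have h4 : v - b + b ≡ c + (M - 1) * b + b [MOD M] := by
        rw [hMb, Nat.sub_add_cancel h1]
        exact h3.trans hcm.symm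
      exact Nat.ModEq.add_right_cancel' b h4
    · rintro ⟨u, hu, rfl⟩
      rw [Finset.mem_filter, Finset.mem_range] at hu
      refine ⟨⟨by omega, by omega⟩, ?_⟩
      have h4 := Nat.ModEq.add_right b hu.2
      rw [hMb] at h4
      exact h4.trans hcm
  rw [e, Finset.card_image_of_injective _ (fun x y hxy => by simpa using hxy)]
  exact ⟨(Nat.div_le_div_right (Nat.le_succ H)).trans h.1, h.2⟩

/-- the point with residues `η` and quotients `u` -/
def pt {s : ℕ} (W : ℕ) (η u : Fin s → ℕ) : Fin s → ℕ := fun t => η t + W * u t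

lemma val_pt {r s : ℕ} (a : Fin r → Fin s → ℕ) (b : Fin r → ℕ) (W : ℕ) (η u : Fin s → ℕ)
    (i : Fin r) : val a b (pt W η u) i = val a b η i + W * ∑ t, a i t * u t := by
  unfold val pt
  rw [Finset.mul_sum, add_assoc, ← Finset.sum_add_distrib]
  congr 1
  exact Finset.sum_congr rfl fun t _ => by ring

/-- the set of shifts of a residue class -/
def Vset {r s : ℕ} (W : ℕ) (a : Fin r → Fin s → ℕ) (b : Fin r → ℕ) (η : Fin s → ℕ) (H : ℕ) :
    Finset ℕ :=
  univ.biUnion (fun i => (Finset.Icc (b i) (b i + H)).filter (fun v => v ≡ val a b η i [MOD W]))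

lemma card_Vset_le {r s : ℕ} (W : ℕ) (hW : 0 < W) (a : Fin r → Fin s → ℕ) (b : Fin r → ℕ)
    (η : Fin s → ℕ) (h : ℕ) : (Vset W a b η (W * h)).card ≤ r * (h + 1) := by
  unfold Vset
  refine Finset.card_biUnion_le.trans ?_
  calc _ ≤ ∑ _i : Fin r, (h + 1) := by
        refine Finset.sum_le_sum fun i _ => ?_
        have h1 := (card_interval (b i) (W * h) W (val a b η i) hW).2
        rwa [Nat.mul_div_cancel_left _ hW] at h1
    _ = _ := by rw [Finset.sum_const, Finset.card_univ, Fintype.card_fin, smul_eq_mul]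

lemma le_card_Vset {r s : ℕ} (hr : 0 < r) (W : ℕ) (hW : 0 < W) (a : Fin r → Fin s → ℕ)
    (b : Fin r → ℕ) (η : Fin s → ℕ) (h : ℕ) : h ≤ (Vset W a b η (W * h)).card := by
  have h1 := (card_interval (b ⟨0, hr⟩) (W * h) W (val a b η ⟨0, hr⟩) hW).1
  rw [Nat.mul_div_cancel_left _ hW] at h1
  refine h1.trans (Finset.card_le_card ?_)
  unfold Vset
  exact Finset.subset_biUnion_of_mem
    (fun i => (Finset.Icc (b i) (b i + W * h)).filter (fun v => v ≡ val a b η i [MOD W]))
    (Finset.mem_univ _)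

lemma mem_Vset {r s : ℕ} (W U Ca : ℕ) (a : Fin r → Fin s → ℕ) (b : Fin r → ℕ)
    (hCa : ∀ i, ∑ t, a i t ≤ Ca) (η : Fin s → ℕ) (hη : ∀ t, η t < W) (u0 : ℕ) (hu0 : u0 < U)
    (u : Fin s → ℕ) (hu : ∀ t, u t < U) (i : Fin r) :
    W * u0 + val a b (pt W η u) i ∈ Vset W a b η (W * ((1 + Ca) * U)) := by
  unfold Vset
  rw [Finset.mem_biUnion]
  refine ⟨i, Finset.mem_univ _, ?_⟩
  rw [Finset.mem_filter, Finset.mem_Icc]
  refine ⟨⟨?_, ?_⟩, ?_⟩
  · unfold val
    omega
  · have h1 : ∑ t, a i t * pt W η u t ≤ Ca * (W * U) := by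
      calc ∑ t, a i t * pt W η u t ≤ ∑ t, a i t * (W * U) := by
            refine Finset.sum_le_sum fun t _ => Nat.mul_le_mul_left _ ?_
            unfold pt
            have h2 := hη t
            have h3 : u t + 1 ≤ U := hu t
            have h4 : W * (u t + 1) ≤ W * U := Nat.mul_le_mul_left _ h3
            rw [Nat.mul_add, Nat.mul_one] at h4
            omega
        _ = (∑ t, a i t) * (W * U) := by rw [Finset.sum_mul]
        _ ≤ _ := Nat.mul_le_mul_right _ (hCa i)
    have h5 : W * u0 ≤ W * U := Nat.mul_le_mul_left _ hu0.le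
    have h6 : W * ((1 + Ca) * U) = W * U + Ca * (W * U) := by ring
    unfold val
    rw [h6]
    omega
  · rw [val_pt]
    unfold Nat.ModEq
    have h7 : W * u0 + (val a b η i + W * ∑ t, a i t * u t) =
        val a b η i + W * (u0 + ∑ t, a i t * u t) := by ring
    rw [h7, Nat.add_mul_mod_self_left]

end Pool.Agent.HLF
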