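import Mathlib
import Pool.Agent.HLT.ClassTuples

set_option autoImplicit false

open Finset Filter

namespace Pool.Agent.HLT.LF

open Pool.Agent.HL26 Pool.Agent.Maynard

open Classical in
/-- the pointwise part of B9, for a general set `V` of shifts -/
lemma pointV (m : ℕ) (hm : 1 ≤ m) (KP : ℝ) (hKP : 1 ≤ KP)
    (hpseudo : ∀ (X V : Type) [Fintype X] [Nonempty X] [Fintype V] [Nonempty V] [DecidableEq V]
      (ν : X → V → ℝ) (s κ : ℝ) (g : V → V → ℝ), 0 ≤ κ → κ ≤ 1 → 0 ≤ s →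
      (∀ n d, ν n d = 0 ∨ ν n d = s) → s / (Fintype.card V : ℝ) ≤ κ →
      (∀ d d', 1 ≤ g d d') → (∀ d d', g d d' = g d' d) →
      (∀ r : ℕ, 1 ≤ r → r ≤ 2 * m + 2 → ∀ e : Fin r → V, Function.Injective e →
        corr ν e ≤ (1 + κ) * ∏ i, ∏ j ∈ univ.filter (fun j => i < j), g (e i) (e j)) →
      (∀ d, 1 - κ ≤ av (fun n => ν n d)) →
      (∀ d, av (fun d' => if d' = d then 0 else g d d' ^ ((m + 1) * (2 * m + 1)) - 1) ≤ κ) →
      (∀ r : ℕ, 1 ≤ r → r ≤ 2 * m + 2 → av (fun n => (av (fun d => ν n d)) ^ r) ≤ 1 + KP * κ) ∧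
      ∀ a : (Fin m → V) → V → V → ℝ, (∀ e d' d'', |a e d' d''| ≤ 1) →
        av (fun d' => av (fun d'' => av (fun n => ν n d' * ν n d'' *
          (av (fun e : Fin m → V => a e d' d'' * ((∏ j, ν n (e j)) - 1))) ^ 2))) ≤ KP * κ)
    (κ κ1 κp C : ℝ) (hκ : 0 < κ) (hκ' : κ ≤ 1) (hκ1 : 0 < κ1) (hκ1' : κ1 ≤ 1)
    (hK1 : KP * κ1 ≤ 1) (hKp : KP * κ1 ≤ κp) (hC : 0 ≤ C)
    (N w z a : ℕ) (V : Finset ℕ) (hz : z ≤ N) (hL : 0 < Real.log N)
    (hX0 : (XS N w a).Nonempty) (hV0 : (V).Nonempty)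
    (hX : (N:ℝ) / Wp w ≤ (1 + min κ1 κ / 16) * ((XS N w a).card : ℝ))
    (hX' : ((XS N w a).card : ℝ) ≤ (1 + min κ1 κ / 16) * ((N:ℝ) / Wp w))
    (hCth : cW (Wp w) * Real.log N * th w z ≤ C)
    (hs : (th w z)⁻¹ ≤ κ1 * ((V).card : ℝ))
    (hΛ : 2 * (cW (Wp w) * Real.log N) ≤ κ * ((V).card : ℝ))
    (hpr : ∀ d ∈ V, |(((XS N w a).filter (fun n => (n + d).Prime)).card : ℝ) -
        ((N:ℝ) / Wp w) / (cW (Wp w) * Real.log N)| ≤
        κ / 4 * (((N:ℝ) / Wp w) / (cW (Wp w) * Real.log N)))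
    (hpair : ∀ d ∈ V, ∀ d' ∈ V, d ≠ d' →
      (((XS N w a).filter (fun n => (n + d).Prime ∧ (n + d').Prime)).card : ℝ) ≤
        (4 + κ / 4) * ((N:ℝ) / Wp w) / (cW (Wp w) * Real.log N) ^ 2 * pp w (Nat.dist d d'))
    (hru : ∀ r : ℕ, 1 ≤ r → r ≤ 2 * m + 2 → ∀ e : Fin r → ℕ, Function.Injective e →
      (∀ i, e i ∈ V) →
      (((XS N w a).filter (fun n => ∀ i, Rough z (n + e i))).card : ℝ) ≤
        (1 + κ1 / 2) * ((N:ℝ) / Wp w) * th w z ^ r *
          pairs (fun x y : ℕ => pp w (Nat.dist x y) ^ r) e)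
    (hrl : ∀ d ∈ V, (1 - κ1 / 2) * ((N:ℝ) / Wp w) * th w z ≤
      (((XS N w a).filter (fun n => Rough z (n + d))).card : ℝ))
    (hrow1 : ∀ d ∈ V, ∑ d' ∈ V,
      (if d' = d then 0 else pp w (Nat.dist d d') ^ 1 - 1) ≤ κ / 5 * ((V).card : ℝ))
    (hrowJ : ∀ d ∈ V, ∑ d' ∈ V,
      (if d' = d then 0 else pp w (Nat.dist d d') ^ ((2 * m + 2) * ((m + 1) * (2 * m + 1))) - 1) ≤
        κ1 * ((V).card : ℝ)) :
      (∃ ν : XS N w a → V → ℝ,
        PR m (MM N w (S := XS N w a) (T := V)) ν C 10 κp κ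
          (2 * (cW (Wp w) * Real.log N))) ∧
      (∀ d : V, 1 - κ ≤ av (fun n : XS N w a => MM N w n d)) ∧
      (∀ d : V, av (fun d' : V => if d' = d then 0 else
        max (gram (MM N w (S := XS N w a)) d d' - (4 + κ)) 0) ≤ κ) := by
  have hth : 0 < th w z := th_pos w z
  have hXc : (0:ℝ) < ((XS N w a).card : ℝ) := by exact_mod_cast hX0.card_pos
  have hVc : (0:ℝ) < ((V).card : ℝ) := by exact_mod_cast hV0.card_pos
  have hW : (0:ℝ) < (Wp w : ℝ) := by exact_mod_cast nv_Wp_pos w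
  have hcW : 0 < cW (Wp w) := cW_pos (nv_Wp_pos w)
  have hcL : 0 < cW (Wp w) * Real.log N := mul_pos hcW hL
  have hN : (0:ℝ) ≤ (N:ℝ) / Wp w := by positivity
  have : Nonempty (XS N w a) := hX0.to_subtype
  have : Nonempty (V) := hV0.to_subtype
  set δ := min κ1 κ / 16 with hδ
  have hδ0 : 0 ≤ δ := by rw [hδ]; positivity
  have hδ1 : δ ≤ κ1 / 16 := by rw [hδ]; gcongr; exact min_le_left _ _
  have hδ2 : δ ≤ κ / 16 := by rw [hδ]; gcongr; exact min_le_right _ _
  -- gram off the diagonal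
  have hgram : ∀ d d' : V, d ≠ d' →
      gram (MM N w (S := XS N w a) (T := V)) d d' ≤
        (4 + κ) * pp w (Nat.dist d d') := by
    intro d d' hdd
    have h1 := hpair d d.2 d' d'.2 (fun h => hdd (Subtype.ext h))
    have h2 : 0 ≤ pp w (Nat.dist d d') := le_trans zero_le_one (one_le_pp _ _)
    rw [nv_mm_gram, div_le_iff₀ hXc]
    calc (cW (Wp w) * Real.log N) ^ 2 *
          (((XS N w a).filter (fun n => (n + (d:ℕ)).Prime ∧ (n + (d':ℕ)).Prime)).card : ℝ)
        ≤ (cW (Wp w) * Real.log N) ^ 2 *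
          ((4 + κ / 4) * ((N:ℝ) / Wp w) / (cW (Wp w) * Real.log N) ^ 2 *
            pp w (Nat.dist d d')) := mul_le_mul_of_nonneg_left h1 (by positivity)
      _ = (4 + κ / 4) * ((N:ℝ) / Wp w) * pp w (Nat.dist d d') := by
          field_simp
      _ ≤ (4 + κ / 4) * ((1 + δ) * ((XS N w a).card : ℝ)) * pp w (Nat.dist d d') := by
          gcongr
      _ = ((4 + κ / 4) * (1 + δ)) * (pp w (Nat.dist d d') * ((XS N w a).card : ℝ)) := by ring
      _ ≤ (4 + κ) * (pp w (Nat.dist d d') * ((XS N w a).card : ℝ)) := by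
          refine mul_le_mul_of_nonneg_right ?_ (by positivity)
          nlinarith
      _ = (4 + κ) * pp w (Nat.dist d d') * ((XS N w a).card : ℝ) := by ring
  have hrowav : ∀ d : V, av (fun d' : V => if d' = d then 0 else
      pp w (Nat.dist d d') ^ 1 - 1) ≤ κ / 5 := fun d =>
    nv_av_row hV0 d (fun x => pp w (Nat.dist d x) ^ 1 - 1) (κ / 5) (hrow1 d d.2)
  have hrow5 : ∀ B : ℝ, 4 + κ ≤ B → ∀ d : V, av (fun d' : V =>
      if d' = d then 0 else
        max (gram (MM N w (S := XS N w a)) d d' - B) 0) ≤ κ := by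
    intro B hB d
    have h1 : av (fun d' : V => if d' = d then 0 else
        max (gram (MM N w (S := XS N w a)) d d' - B) 0) ≤
        av (fun d' : V => 5 * (if d' = d then 0 else pp w (Nat.dist d d') ^ 1 - 1)) := by
      refine av_mono fun d' => ?_
      by_cases hd : d' = d
      · simp [hd]
      · rw [if_neg hd, if_neg hd]
        have h2 := hgram d d' (Ne.symm hd)
        have h3 := one_le_pp w (Nat.dist d d')
        refine max_le ?_ (by nlinarith)
        nlinarith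
    rw [av_mul_left] at h1
    have := hrowav d
    linarith
  refine ⟨⟨NN w z (S := XS N w a) (T := V), ?_⟩, ?_, ?_⟩
  · have hps := hpseudo (XS N w a) (V) (NN w z (S := XS N w a) (T := V))
      ((th w z)⁻¹) κ1 (fun d d' => pp w (Nat.dist d d') ^ (2 * m + 2)) hκ1.le hκ1'
      (inv_pos.mpr hth).le ?_ ?_ ?_ ?_ ?_ ?_ ?_
    · obtain ⟨hps1, hps2⟩ := hps
      refine ⟨?_, ?_, ?_, ?_, ?_, ?_, ?_, ?_, ?_⟩
      · intro n d
        unfold MM
        split_ifs
        · exact hcL.le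
        · exact le_rfl
      · intro n d
        unfold NN
        split_ifs
        · exact (inv_pos.mpr hth).le
        · exact le_rfl
      · intro n d
        exact nv_mm_le_nn N w z C hC hz hth hCth n d
      · intro d
        rw [nv_mm_gram, div_le_iff₀ hXc]
        have h1 := (abs_le.mp (hpr d d.2)).2
        simp only [and_self]
        have h2 : (((XS N w a).filter (fun n => (n + (d:ℕ)).Prime)).card : ℝ) ≤
            (1 + κ / 4) * (((N:ℝ) / Wp w) / (cW (Wp w) * Real.log N)) := by linarith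
        calc (cW (Wp w) * Real.log N) ^ 2 *
              (((XS N w a).filter (fun n => (n + (d:ℕ)).Prime)).card : ℝ)
            ≤ (cW (Wp w) * Real.log N) ^ 2 *
              ((1 + κ / 4) * (((N:ℝ) / Wp w) / (cW (Wp w) * Real.log N))) :=
              mul_le_mul_of_nonneg_left h2 (by positivity)
          _ = (1 + κ / 4) * (cW (Wp w) * Real.log N) * ((N:ℝ) / Wp w) := by
              field_simp
          _ ≤ (1 + κ / 4) * (cW (Wp w) * Real.log N) *
              ((1 + δ) * ((XS N w a).card : ℝ)) := by gcongr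
          _ = ((1 + κ / 4) * (1 + δ)) *
              ((cW (Wp w) * Real.log N) * ((XS N w a).card : ℝ)) := by ring
          _ ≤ 2 * ((cW (Wp w) * Real.log N) * ((XS N w a).card : ℝ)) := by
              refine mul_le_mul_of_nonneg_right ?_ (by positivity)
              nlinarith
          _ = 2 * (cW (Wp w) * Real.log N) * ((XS N w a).card : ℝ) := by ring
      · rw [Fintype.card_coe, div_le_iff₀ hVc]
        exact hΛ
      · exact hrow5 10 (by linarith)
      · have := hps1 2 (by norm_num) (by omega)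
        linarith
      · have := hps1 m hm (by omega)
        linarith
      · intro a' ha'
        exact (hps2 a' ha').trans hKp
    · intro n d
      unfold NN
      split_ifs
      · right; rfl
      · left; rfl
    · rw [Fintype.card_coe, div_le_iff₀ hVc]
      exact hs
    · intro d d'
      exact one_le_pow₀ (one_le_pp _ _)
    · intro d d'
      show pp w (Nat.dist d d') ^ (2 * m + 2) = pp w (Nat.dist d' d) ^ (2 * m + 2)
      rw [Nat.dist_comm]
    · intro r hr hr' e he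
      rw [nv_nn_corr, div_le_iff₀ hXc]
      have h1 := hru r hr hr' (fun i => (e i : ℕ)) (fun i j hij => he (Subtype.ext hij))
        (fun i => (e i).2)
      have h2 : pairs (fun x y : ℕ => pp w (Nat.dist x y) ^ r) (fun i => (e i : ℕ)) ≤
          pairs (fun x y : ℕ => pp w (Nat.dist x y) ^ (2 * m + 2)) (fun i => (e i : ℕ)) := by
        refine nv_pairs_mono _ _ (fun x y => ?_) (fun x y => ?_) _
        · exact pow_nonneg (le_trans zero_le_one (one_le_pp _ _)) _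
        · exact pow_le_pow_right₀ (one_le_pp _ _) hr'
      have h3 : (∏ i, ∏ j ∈ univ.filter (fun j => i < j),
          (fun d d' : V => pp w (Nat.dist d d') ^ (2 * m + 2)) (e i) (e j)) =
          pairs (fun x y : ℕ => pp w (Nat.dist x y) ^ (2 * m + 2)) (fun i => (e i : ℕ)) := rfl
      rw [h3]
      set P := pairs (fun x y : ℕ => pp w (Nat.dist x y) ^ (2 * m + 2)) (fun i => (e i : ℕ))
        with hP
      have hP0 : 0 ≤ P := nv_pairs_nonneg _ (fun x y =>
        pow_nonneg (le_trans zero_le_one (one_le_pp _ _)) _) _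
      have hP1 : 0 ≤ pairs (fun x y : ℕ => pp w (Nat.dist x y) ^ r)
          (fun i => (e i : ℕ)) := nv_pairs_nonneg _ (fun x y =>
        pow_nonneg (le_trans zero_le_one (one_le_pp _ _)) _) _
      calc (th w z)⁻¹ ^ r *
            (((XS N w a).filter (fun n => ∀ i, Rough z (n + (e i : ℕ)))).card : ℝ)
          ≤ (th w z)⁻¹ ^ r * ((1 + κ1 / 2) * ((N:ℝ) / Wp w) * th w z ^ r *
            pairs (fun x y : ℕ => pp w (Nat.dist x y) ^ r) (fun i => (e i : ℕ))) :=
            mul_le_mul_of_nonneg_left h1 (pow_nonneg (inv_pos.mpr hth).le _)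
        _ = ((th w z)⁻¹ * th w z) ^ r * ((1 + κ1 / 2) * ((N:ℝ) / Wp w) *
            pairs (fun x y : ℕ => pp w (Nat.dist x y) ^ r) (fun i => (e i : ℕ))) := by
            rw [mul_pow]; ring
        _ = (1 + κ1 / 2) * ((N:ℝ) / Wp w) *
            pairs (fun x y : ℕ => pp w (Nat.dist x y) ^ r) (fun i => (e i : ℕ)) := by
            rw [inv_mul_cancel₀ hth.ne', one_pow, one_mul]
        _ ≤ (1 + κ1 / 2) * ((1 + δ) * ((XS N w a).card : ℝ)) * P :=
            mul_le_mul (mul_le_mul_of_nonneg_left hX (by positivity)) h2 hP1 (by positivity)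
        _ = ((1 + κ1 / 2) * (1 + δ)) * (P * ((XS N w a).card : ℝ)) := by ring
        _ ≤ (1 + κ1) * (P * ((XS N w a).card : ℝ)) := by
            refine mul_le_mul_of_nonneg_right ?_ (by positivity)
            nlinarith
        _ = (1 + κ1) * P * ((XS N w a).card : ℝ) := by ring
    · intro d
      rw [nv_nn_av, le_div_iff₀ hXc]
      have h1 := hrl d d.2
      calc (1 - κ1) * ((XS N w a).card : ℝ)
          ≤ (1 - κ1) * ((1 + δ) * ((N:ℝ) / Wp w)) :=
            mul_le_mul_of_nonneg_left hX' (by linarith)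
        _ = ((1 - κ1) * (1 + δ)) * ((N:ℝ) / Wp w) := by ring
        _ ≤ (1 - κ1 / 2) * ((N:ℝ) / Wp w) := by
            refine mul_le_mul_of_nonneg_right ?_ hN
            nlinarith
        _ = (th w z)⁻¹ * ((1 - κ1 / 2) * ((N:ℝ) / Wp w) * th w z) := by
            field_simp
        _ ≤ _ := mul_le_mul_of_nonneg_left h1 (inv_pos.mpr hth).le
    · intro d
      have h1 := nv_av_row hV0 d (fun x => pp w (Nat.dist d x) ^
        ((2 * m + 2) * ((m + 1) * (2 * m + 1))) - 1) κ1 (hrowJ d d.2)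
      have h2 : ∀ x : ℕ, pp w (Nat.dist d x) ^ ((2 * m + 2) * ((m + 1) * (2 * m + 1))) =
          (pp w (Nat.dist d x) ^ (2 * m + 2)) ^ ((m + 1) * (2 * m + 1)) :=
        fun x => pow_mul _ _ _
      simp only [h2] at h1
      exact h1
  · intro d
    rw [nv_mm_av, le_div_iff₀ hXc]
    have h1 := (abs_le.mp (hpr d d.2)).1
    have h2 : (1 - κ / 4) * (((N:ℝ) / Wp w) / (cW (Wp w) * Real.log N)) ≤
        (((XS N w a).filter (fun n => (n + (d:ℕ)).Prime)).card : ℝ) := by linarith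
    calc (1 - κ) * ((XS N w a).card : ℝ)
        ≤ (1 - κ) * ((1 + δ) * ((N:ℝ) / Wp w)) :=
          mul_le_mul_of_nonneg_left hX' (by linarith)
      _ = ((1 - κ) * (1 + δ)) * ((N:ℝ) / Wp w) := by ring
      _ ≤ (1 - κ / 4) * ((N:ℝ) / Wp w) := by
          refine mul_le_mul_of_nonneg_right ?_ hN
          nlinarith
      _ = (cW (Wp w) * Real.log N) *
          ((1 - κ / 4) * (((N:ℝ) / Wp w) / (cW (Wp w) * Real.log N))) := by
          field_simp
      _ ≤ _ := mul_le_mul_of_nonneg_left h2 hcL.le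
  · exact hrow5 (4 + κ) le_rfl

open Classical in
/-- B9 for a general set `V` of shifts whose row moments are small. -/
theorem PRV_le_one (m : ℕ) (hm : 1 ≤ m) (cp : ℝ) (hcp : 0 < cp) : ∃ C : ℝ, 1 ≤ C ∧
    ∀ κ : ℝ, 0 < κ → κ ≤ 1 → ∃ κ0 : ℝ, 0 < κ0 ∧ ∃ w0 : ℕ, ∀ w : ℕ, w0 ≤ w →
    ∃ K : ℝ, ∀ A : ℕ, ∀ᶠ N : ℕ in atTop, ∀ (a : ℕ) (V : Finset ℕ),
      (∀ d ∈ V, (d:ℝ) ≤ (Real.log N) ^ A ∧ (a + d).Coprime (Wp w)) →
      K * Real.log N ≤ (V.card : ℝ) →
      (∀ d ∈ V, ∑ d' ∈ V, (if d' = d then 0 else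
        pp w (Nat.dist d d') ^ ((2 * m + 2) * ((m + 1) * (2 * m + 1))) - 1) ≤
          κ0 * (V.card : ℝ)) →
      (XS N w a).Nonempty ∧ V.Nonempty ∧
      (∃ ν : XS N w a → V → ℝ,
        PR m (MM N w (S := XS N w a) (T := V)) ν C 10 (cp / C ^ (4 * m + 4)) κ
          (2 * (cW (Wp w) * Real.log N))) ∧
      (∀ d : V, 1 - κ ≤ av (fun n : XS N w a => MM N w n d)) ∧
      (∀ d : V, av (fun d' : V => if d' = d then 0 else
        max (gram (MM N w (S := XS N w a)) d d' - (4 + κ)) 0) ≤ κ) := by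
  obtain ⟨CM, hCM, hthu⟩ := th_upper
  obtain ⟨Ct, hCt, hthl⟩ := th_lower
  obtain ⟨KP, hKP, hpseudo⟩ := pseudo_of_corr m hm
  obtain ⟨Cl, cl, ul, hCl, hcl, hul, hrl⟩ := rough_lower
  have hE1 : ∀ᶠ u : ℝ in atTop, ∀ w : ℕ, 2 ≤ w → ∀ κ : ℝ, 0 < κ → ∀ A : ℕ, ∀ᶠ N : ℕ in atTop,
    ∀ a d : ℕ, (d : ℝ) ≤ (Real.log N) ^ A → (a + d).Coprime (Wp w) →
      (1 - nvk cp CM KP (4 * m + 4) u / 4 - κ) * ((N:ℝ) / Wp w) * th w (zz N u) ≤
      (((XS N w a).filter (fun n => Rough (zz N u) (n + d))).card : ℝ) := by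
    filter_upwards [eventually_ge_atTop ul, nvk_ev Cl cl cp CM KP hcl hcp hCM hKP (4 * m + 4)]
      with u hu1 hu2 w hw κ hκ A
    filter_upwards [hrl u hu1 w hw κ hκ A] with N hN a d hd hcop
    refine le_trans ?_ (hN a d hd hcop)
    have h1 : 0 ≤ (N:ℝ) / Wp w := by positivity
    have h2 := (th_pos w (zz N u)).le
    refine mul_le_mul_of_nonneg_right (mul_le_mul_of_nonneg_right ?_ h1) h2
    linarith
  have hE2 : ∀ r ∈ Finset.Icc 1 (2 * m + 2), ∀ᶠ u : ℝ in atTop, ∀ w : ℕ, r < w → ∀ κ : ℝ,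
    0 < κ → ∀ A : ℕ, ∀ᶠ N : ℕ in atTop,
    ∀ a : ℕ, ∀ e : Fin r → ℕ, Function.Injective e → (∀ i, (e i : ℝ) ≤ (Real.log N) ^ A) →
      (∀ i, (a + e i).Coprime (Wp w)) →
      (((XS N w a).filter (fun n => ∀ i, Rough (zz N u) (n + e i))).card : ℝ) ≤
        (1 + nvk cp CM KP (4 * m + 4) u / 4 + κ) * ((N:ℝ) / Wp w) * th w (zz N u) ^ r *
          pairs (fun x y : ℕ => pp w (Nat.dist x y) ^ r) e := by
    intro r hr
    obtain ⟨Cr, cr, ur, hCr, hcr, hur, hru⟩ := rough_upper r (Finset.mem_Icc.mp hr).1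
    filter_upwards [eventually_ge_atTop ur, nvk_ev Cr cr cp CM KP hcr hcp hCM hKP (4 * m + 4)]
      with u hu1 hu2 w hw κ hκ A
    filter_upwards [hru u hu1 w hw κ hκ A] with N hN a e he hb hcop
    refine le_trans (hN a e he hb hcop) ?_
    have h1 : 0 ≤ (N:ℝ) / Wp w := by positivity
    have h2 := (th_pos w (zz N u)).le
    have h3 : 0 ≤ pairs (fun x y : ℕ => pp w (Nat.dist x y) ^ r) e := nv_pairs_nonneg _ (fun x y =>
        pow_nonneg (le_trans zero_le_one (one_le_pp _ _)) _) _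
    refine mul_le_mul_of_nonneg_right (mul_le_mul_of_nonneg_right
      (mul_le_mul_of_nonneg_right ?_ h1) (pow_nonneg h2 _)) h3
    linarith
  obtain ⟨u, ⟨hu1, hu2⟩, hu3⟩ := ((hE1.and ((Filter.eventually_all_finset _).2 hE2)).and
    (eventually_ge_atTop (1:ℝ))).exists
  clear hE1 hE2
  have hCMu : 1 ≤ CM * u := by nlinarith
  set κ1 := nvk cp CM KP (4 * m + 4) u with hκ1def
  have hKP0 : 0 < KP := by linarith
  have hpow : 0 < (CM * u) ^ (4 * m + 4) := by positivity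
  have hκ1 : 0 < κ1 := by
    rw [hκ1def]; unfold nvk
    have : 0 < min 1 (cp / (CM * u) ^ (4 * m + 4)) := lt_min one_pos (by positivity)
    positivity
  have hKκ : KP * κ1 = min 1 (cp / (CM * u) ^ (4 * m + 4)) := by
    rw [hκ1def]; unfold nvk; field_simp
  have hK1 : KP * κ1 ≤ 1 := by rw [hKκ]; exact min_le_left _ _
  have hKp : KP * κ1 ≤ cp / (CM * u) ^ (4 * m + 4) := by rw [hKκ]; exact min_le_right _ _
  have hκ1' : κ1 ≤ 1 := by nlinarith
  refine ⟨CM * u, hCMu, ?_⟩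
  intro κ hκ hκ'
  refine ⟨min κ1 (κ / 5), lt_min hκ1 (by positivity), 2 * m + 3, ?_⟩
  intro w hww3
  have hW : (0:ℝ) < (Wp w : ℝ) := by exact_mod_cast nv_Wp_pos w
  have hCt0 : 0 < Ct := by linarith
  set δ := min κ1 κ / 16 with hδ
  have hδ0 : 0 < δ := by rw [hδ]; positivity
  have hδ1 : δ ≤ 1 := by
    rw [hδ]
    have : min κ1 κ ≤ 1 := (min_le_left _ _).trans hκ1'
    linarith
  refine ⟨Ct / κ1 + 2 / κ + 1, ?_⟩
  intro A
  have hlog : Tendsto (fun N : ℕ => Real.log (N:ℝ)) atTop atTop :=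
    Real.tendsto_log_atTop.comp tendsto_natCast_atTop_atTop
  have hcast : Tendsto (fun N : ℕ => (N:ℝ)) atTop atTop := tendsto_natCast_atTop_atTop
  have hrp : Tendsto (fun N : ℕ => (N:ℝ) ^ (1 / u)) atTop atTop :=
    (tendsto_rpow_atTop (by positivity)).comp tendsto_natCast_atTop_atTop
  have hE3 : ∀ᶠ N : ℕ in atTop, ∀ r ∈ Finset.Icc 1 (2 * m + 2), ∀ a : ℕ, ∀ e : Fin r → ℕ,
      Function.Injective e → (∀ i, (e i : ℝ) ≤ (Real.log N) ^ A) →
      (∀ i, (a + e i).Coprime (Wp w)) →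
      (((XS N w a).filter (fun n => ∀ i, Rough (zz N u) (n + e i))).card : ℝ) ≤
        (1 + κ1 / 4 + κ1 / 4) * ((N:ℝ) / Wp w) * th w (zz N u) ^ r *
          pairs (fun x y : ℕ => pp w (Nat.dist x y) ^ r) e := by
    rw [Filter.eventually_all_finset]
    intro r hr
    have := (Finset.mem_Icc.mp hr).2
    exact hu2 r hr w (by omega) (κ1 / 4) (by positivity) A
  filter_upwards [hthu u hu3 w (by omega), hE3,
    hu1 w (by omega) (κ1 / 4) (by positivity) A,
    pair_four w (by omega) (κ / 4) (by positivity) A,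
    primes_class w (by omega) (κ / 4) (by positivity) A,
    hcast.eventually_ge_atTop (2 / δ * Wp w), hcast.eventually_ge_atTop 1,
    hrp.eventually_ge_atTop 2,
    hlog.eventually_ge_atTop 1]
    with N h1 h2 h3 h4 h5 h6 h7 h8 h9 a V hVd hVl hrow
  set L := Real.log N with hL
  have hL0 : 0 < L := by linarith
  have hcW1 := cW_le_one (Wp w)
  have hcW0 := cW_nonneg (Wp w)
  have hV0' : (0:ℝ) < (V.card : ℝ) := by
    refine lt_of_lt_of_le ?_ hVl
    have : 0 < Ct / κ1 + 2 / κ + 1 := by positivity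
    positivity
  have hV0 : V.Nonempty := by
    rw [← Finset.card_pos]
    exact_mod_cast hV0'
  -- sizes
  have hcX := abs_le.mp (card_XS w N a)
  have hNW : 2 / δ ≤ (N:ℝ) / Wp w := by rw [le_div_iff₀ hW]; exact h6
  have hNW2 : 2 ≤ δ * ((N:ℝ) / Wp w) := by
    have := mul_le_mul_of_nonneg_left hNW hδ0.le
    rwa [mul_div_cancel₀ _ hδ0.ne'] at this
  have hNW1 : 2 ≤ (N:ℝ) / Wp w := by
    have h0 : 0 ≤ (N:ℝ) / Wp w := by positivity
    have := mul_le_mul_of_nonneg_right hδ1 h0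
    linarith
  have hXa : (N:ℝ) / Wp w ≤ (1 + δ) * ((XS N w a).card : ℝ) := by
    have h13 := mul_le_mul_of_nonneg_left hcX.1 (by linarith : 0 ≤ 1 + δ)
    have e : (1 + δ) * (((XS N w a).card : ℝ) - (N:ℝ) / Wp w) =
        (1 + δ) * ((XS N w a).card : ℝ) - (N:ℝ) / Wp w - δ * ((N:ℝ) / Wp w) := by ring
    rw [e] at h13
    linarith
  have hXb : ((XS N w a).card : ℝ) ≤ (1 + δ) * ((N:ℝ) / Wp w) := by
    have h13 := hcX.2
    have e : (1 + δ) * ((N:ℝ) / Wp w) = (N:ℝ) / Wp w + δ * ((N:ℝ) / Wp w) := by ring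
    rw [e]
    linarith
  have hX0 : (XS N w a).Nonempty := by
    rw [← Finset.card_pos]
    have h := hcX.1
    have : (0:ℝ) < ((XS N w a).card : ℝ) := by linarith
    exact_mod_cast this
  -- sifting level
  have hz1 : zz N u ≤ N := by
    unfold zz
    refine Nat.floor_le_of_le ?_
    have h13 : (N:ℝ) ^ (1 / u) ≤ (N:ℝ) ^ (1:ℝ) :=
      Real.rpow_le_rpow_of_exponent_le h7 (by rw [div_le_one (by linarith)]; exact hu3)
    rwa [Real.rpow_one] at h13
  have hz2 : 2 ≤ zz N u := by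
    unfold zz
    exact Nat.le_floor (by exact_mod_cast h8)
  have hs : (th w (zz N u))⁻¹ ≤ κ1 * (V.card : ℝ) := by
    have h13 : (th w (zz N u))⁻¹ ≤ Ct * L := by
      refine (hthl w (zz N u) hz2).trans ?_
      refine mul_le_mul_of_nonneg_left ?_ hCt0.le
      refine Real.log_le_log ?_ (by exact_mod_cast hz1)
      have : (2:ℝ) ≤ (zz N u : ℝ) := by exact_mod_cast hz2
      linarith
    refine h13.trans ?_
    have h14 : Ct / κ1 * L ≤ (V.card : ℝ) := by
      refine le_trans ?_ hVl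
      refine mul_le_mul_of_nonneg_right ?_ hL0.le
      have : 0 ≤ 2 / κ := by positivity
      linarith
    have h16 : Ct * L = κ1 * (Ct / κ1 * L) := by field_simp
    rw [h16]
    exact mul_le_mul_of_nonneg_left h14 hκ1.le
  have hΛ : 2 * (cW (Wp w) * L) ≤ κ * (V.card : ℝ) := by
    have h14 : 2 / κ * L ≤ (V.card : ℝ) := by
      refine le_trans ?_ hVl
      refine mul_le_mul_of_nonneg_right ?_ hL0.le
      have : 0 ≤ Ct / κ1 := by positivity
      linarith
    have h16 : 2 * L = κ * (2 / κ * L) := by field_simp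
    refine le_trans ?_ (mul_le_mul_of_nonneg_left h14 hκ.le)
    rw [← h16]
    exact mul_le_mul_of_nonneg_left (mul_le_of_le_one_left hL0.le hcW1) (by norm_num)
  refine ⟨hX0, hV0, ?_⟩
  refine pointV m hm KP hKP hpseudo κ κ1 _ (CM * u) hκ hκ' hκ1 hκ1' hK1 hKp (by linarith)
    N w (zz N u) a V hz1 hL0 hX0 hV0 hXa hXb h1 hs hΛ ?_ ?_ ?_ ?_ ?_ ?_
  · intro d hd
    exact h5 a d (hVd d hd).1 (hVd d hd).2
  · intro d hd d' hd' hdd
    exact h4 a d d' hdd (hVd d hd).1 (hVd d' hd').1 (hVd d hd).2 (hVd d' hd').2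
  · intro r hr hr' e he heV
    have h13 := h2 r (Finset.mem_Icc.mpr ⟨hr, hr'⟩) a e he (fun i => (hVd _ (heV i)).1)
      (fun i => (hVd _ (heV i)).2)
    have h14 : 1 + κ1 / 4 + κ1 / 4 = 1 + κ1 / 2 := by ring
    rwa [h14] at h13
  · intro d hd
    have h13 := h3 a d (hVd d hd).1 (hVd d hd).2
    have h14 : 1 - κ1 / 4 - κ1 / 4 = 1 - κ1 / 2 := by ring
    rwa [h14] at h13
  · intro d hd
    refine le_trans (Finset.sum_le_sum fun d' _ => ?_) ((hrow d hd).trans
      (mul_le_mul_of_nonneg_right (min_le_right _ _) hV0'.le))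
    split_ifs
    · exact le_rfl
    · have h13 := one_le_pp w (Nat.dist d d')
      have h14 : pp w (Nat.dist d d') ^ 1 ≤
          pp w (Nat.dist d d') ^ ((2 * m + 2) * ((m + 1) * (2 * m + 1))) :=
        pow_le_pow_right₀ h13 (Nat.one_le_iff_ne_zero.mpr (by positivity))
      linarith
  · intro d hd
    exact (hrow d hd).trans (mul_le_mul_of_nonneg_right (min_le_left _ _) hV0'.le)

/-- The per-class theorem for a general set `V` of shifts whose row moments are small. -/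
theorem class_tuplesV (m : ℕ) (hm : 1 ≤ m) (D ε : ℝ) (hD : 0 < D) (hε : 0 < ε) :
    ∃ κ0 : ℝ, 0 < κ0 ∧ ∃ w0 : ℕ, ∀ w : ℕ, w0 ≤ w → ∃ K : ℝ, ∀ A : ℕ, ∀ᶠ N : ℕ in atTop,
    ∀ (a : ℕ) (V : Finset ℕ),
      (∀ d ∈ V, (d:ℝ) ≤ (Real.log N) ^ A ∧ (a + d).Coprime (Wp w)) →
      K * Real.log N ≤ (V.card : ℝ) →
      (∀ d ∈ V, ∑ d' ∈ V, (if d' = d then 0 else
        pp w (Nat.dist d d') ^ ((2 * m + 2) * ((m + 1) * (2 * m + 1))) - 1) ≤
          κ0 * (V.card : ℝ)) →
    ∀ (T : Type) [Fintype T] (e : T → Fin (4 * m + 1) → ℕ),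
      (∀ t i, e t i ∈ V) → (∀ t, Function.Injective (e t)) →
      (∀ (I : Fin (m + 1) ↪ Fin (4 * m + 1)) (v : Fin (m + 1) → ℕ),
        ((univ.filter (fun t : T => ∀ i, e t (I i) = v i)).card : ℝ) ≤
          D * (Fintype.card T : ℝ) / (V.card : ℝ) ^ (m + 1)) →
      ((univ.filter (fun t : T => ∀ I : Fin (m + 1) ↪ Fin (4 * m + 1),
        (((XS N w a).filter (fun n => ∀ i, (n + e t (I i)).Prime)).card : ℝ) <
          c0 m * ((XS N w a).card : ℝ) / (cW (Wp w) * Real.log N) ^ (m + 1))).card : ℝ) ≤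
        ε * (Fintype.card T : ℝ) := by
  obtain ⟨ε1, hε1, hA6⟩ := tuples_of_close m hm D ε hD hε
  obtain ⟨cp, hcp, hA3⟩ := close_tuples m hm 10 ε1 (by norm_num) hε1
  obtain ⟨C, hC, hB9⟩ := PRV_le_one m hm cp hcp
  obtain ⟨κ, hκ, J, hJ, hclose⟩ := hA3 C hC
  obtain ⟨κ', hκ', htup⟩ := hA6 J hJ
  obtain ⟨κ0, hκ0, w0, hw0⟩ := hB9 (min (min κ κ') 1) (lt_min (lt_min hκ hκ') one_pos)
    (min_le_right _ _)
  refine ⟨κ0, hκ0, w0, fun w hw => ?_⟩
  obtain ⟨K, hK⟩ := hw0 w hw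
  refine ⟨K, fun A => ?_⟩
  filter_upwards [hK A, eventually_ge_atTop 2] with N hN hN2 a V h1 h2 h2' T _ e heV hinj hdens
  obtain ⟨hXne, hVne, ⟨ν, hPR⟩, hmean, hrow⟩ := hN a V h1 h2 h2'
  have : Nonempty (XS N w a) := hXne.to_subtype
  have : Nonempty V := hVne.to_subtype
  have hle1 : min (min κ κ') 1 ≤ κ := (min_le_left _ _).trans (min_le_left _ _)
  have hκκ : min (min κ κ') 1 ≤ κ' := (min_le_left _ _).trans (min_le_right _ _)
  obtain ⟨χ, hχ⟩ := hclose (XS N w a) V (MM N w) ν _ (hPR.weaken hle1)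
  have hmain := htup (XS N w a) V (MM N w) _ χ hPR.nonneg
    (fun d => (by linarith : 1 - κ' ≤ 1 - min (min κ κ') 1).trans (hmean d)) hPR.diag
    (hPR.small.trans hκκ)
    (fun d => ((av_mono fun d' => by
      by_cases h : d' = d
      · rw [if_pos h, if_pos h]
      · rw [if_neg h, if_neg h]
        exact max_le_max (by linarith) le_rfl).trans (hrow d)).trans hκκ) hχ
    T (fun t i => ⟨e t i, heV t i⟩)
    (fun t i j hij => hinj t (by simpa using hij))
    (fun I v => by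
      rw [Fintype.card_coe]
      refine le_trans (le_of_eq ?_) (hdens I (fun i => (v i : ℕ)))
      congr 2
      ext t
      simp only [mem_filter, mem_univ, true_and]
      exact forall_congr' fun i => by rw [Subtype.ext_iff])
  refine le_trans ?_ hmain
  refine Nat.cast_le.mpr (Finset.card_le_card ?_)
  intro t ht
  rw [mem_filter] at ht ⊢
  refine ⟨mem_univ _, fun I => ?_⟩
  have h3 := ht.2 I
  rw [corr_MM_eq]
  have hW : 0 < Wp w := Finset.prod_pos fun p hp => by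
    have : p.Prime := by
      unfold PPy at hp
      simp only [mem_filter] at hp
      exact hp.2
    exact this.pos
  have hlog : 0 < Real.log N := Real.log_pos (by exact_mod_cast (by omega : 1 < N))
  have hpos : 0 < (cW (Wp w) * Real.log N) ^ (m + 1) := pow_pos (mul_pos (cW_pos hW) hlog) _
  have hX : (0:ℝ) < (XS N w a).card := by exact_mod_cast hXne.card_pos
  rw [div_lt_iff₀ hX]
  rw [lt_div_iff₀ hpos] at h3
  exact h3

end Pool.Agent.HLT.LF
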