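import Mathlib
import Pool.Agent.HLF.Basic

set_option autoImplicit false

open Finset Filter

namespace Pool.Agent.HLF

open Pool.Agent.HLT Pool.Agent.HL26

lemma sum_biUnion_le' {ι α : Type} [DecidableEq α] (s : Finset ι) (t : ι → Finset α) (f : α → ℝ)
    (hf : ∀ x, 0 ≤ f x) : ∑ x ∈ s.biUnion t, f x ≤ ∑ i ∈ s, ∑ x ∈ t i, f x := by
  classical
  induction s using Finset.induction_on with
  | empty => simp
  | insert i s hi ih =>
    rw [Finset.biUnion_insert, Finset.sum_insert hi]
    have h1 := Finset.sum_union_inter (s₁ := t i) (s₂ := s.biUnion t) (f := f)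
    have h2 : 0 ≤ ∑ x ∈ t i ∩ s.biUnion t, f x := Finset.sum_nonneg fun x _ => hf x
    linarith

lemma row_Vset {r s : ℕ} (w : ℕ) (a : Fin r → Fin s → ℕ) (b : Fin r → ℕ)
    (η : Fin s → ℕ) (h J : ℕ) (κ1 : ℝ) (d : ℕ)
    (hrow : ∀ i, ∑ v ∈ (Finset.Icc (b i) (b i + Wp w * h)).filter
      (fun v => v ≡ val a b η i [MOD Wp w]),
        (if v = d then 0 else pp w (Nat.dist d v) ^ J - 1) ≤
          κ1 * (((Wp w * h : ℕ) : ℝ) / Wp w)) :
    ∑ v ∈ Vset (Wp w) a b η (Wp w * h), (if v = d then 0 else pp w (Nat.dist d v) ^ J - 1) ≤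
      (r : ℝ) * κ1 * h := by
  have hW : (0:ℝ) < (Wp w : ℝ) := by exact_mod_cast f1_Wp_pos w
  unfold Vset
  refine (sum_biUnion_le' _ _ _ (fun v => ?_)).trans ?_
  · split_ifs
    · exact le_rfl
    · have := one_le_pow₀ (n := J) (one_le_pp w (Nat.dist d v))
      linarith
  · refine (Finset.sum_le_sum fun i _ => hrow i).trans ?_
    rw [Finset.sum_const, Finset.card_univ, Fintype.card_fin, nsmul_eq_mul]
    push_cast
    apply le_of_eq
    field_simp

open Classical in
lemma few_coincide {r s : ℕ} (hr : 0 < r) (W U : ℕ) (hW : 0 < W) (hU : 2 * (r * r) ≤ U)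
    (a : Fin r → Fin s → ℕ) (ha : ∀ i j, i ≠ j → a i ≠ a j) (b : Fin r → ℕ) (η : Fin s → ℕ) :
    U ^ s ≤ 2 * ((univ : Finset (Fin s → Fin U)).filter (fun u =>
      Function.Injective (val a b (pt W η (fun t => (u t : ℕ)))))).card := by
  set G := (univ : Finset (Fin s → Fin U)).filter (fun u =>
      Function.Injective (val a b (pt W η (fun t => (u t : ℕ))))) with hG
  set B := (univ : Finset (Fin s → Fin U)).filter (fun u =>
      ¬ Function.Injective (val a b (pt W η (fun t => (u t : ℕ))))) with hB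
  have h1 : G.card + B.card = U ^ s := by
    rw [hG, hB, Finset.card_filter_add_card_filter_not, Finset.card_univ, Fintype.card_fun,
      Fintype.card_fin, Fintype.card_fin]
  have h2 : B ⊆ (univ : Finset (Fin r × Fin r)).biUnion (fun ij =>
      (univ : Finset (Fin s → Fin U)).filter (fun u => ij.1 ≠ ij.2 ∧
        val (fun i t => W * a i t) (val a b η) (fun t => (u t : ℕ)) ij.1 =
          val (fun i t => W * a i t) (val a b η) (fun t => (u t : ℕ)) ij.2)) := by
    intro u hu
    rw [hB, Finset.mem_filter] at hu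
    have hu2 := hu.2
    unfold Function.Injective at hu2
    push Not at hu2
    obtain ⟨i, j, hij, hne⟩ := hu2
    rw [Finset.mem_biUnion]
    refine ⟨(i, j), Finset.mem_univ _, ?_⟩
    rw [Finset.mem_filter]
    refine ⟨Finset.mem_univ _, hne, ?_⟩
    have key : ∀ k, val (fun i t => W * a i t) (val a b η) (fun t => (u t : ℕ)) k =
        val a b (pt W η (fun t => (u t : ℕ))) k := by
      intro k
      rw [val_pt]
      conv_lhs => unfold val
      rw [Finset.mul_sum]
      congr 1
      exact Finset.sum_congr rfl fun t _ => by ring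
    rw [key, key]
    exact hij
  have h3 : B.card * U ≤ r * r * U ^ s := by
    have h4 : B.card ≤ ∑ ij : Fin r × Fin r, ((univ : Finset (Fin s → Fin U)).filter
      (fun u => ij.1 ≠ ij.2 ∧
        val (fun i t => W * a i t) (val a b η) (fun t => (u t : ℕ)) ij.1 =
          val (fun i t => W * a i t) (val a b η) (fun t => (u t : ℕ)) ij.2)).card :=
      (Finset.card_le_card h2).trans Finset.card_biUnion_le
    calc B.card * U ≤ (∑ ij : Fin r × Fin r, ((univ : Finset (Fin s → Fin U)).filter
      (fun u => ij.1 ≠ ij.2 ∧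
        val (fun i t => W * a i t) (val a b η) (fun t => (u t : ℕ)) ij.1 =
          val (fun i t => W * a i t) (val a b η) (fun t => (u t : ℕ)) ij.2)).card) * U :=
          Nat.mul_le_mul_right _ h4
      _ = ∑ ij : Fin r × Fin r, ((univ : Finset (Fin s → Fin U)).filter
      (fun u => ij.1 ≠ ij.2 ∧
        val (fun i t => W * a i t) (val a b η) (fun t => (u t : ℕ)) ij.1 =
          val (fun i t => W * a i t) (val a b η) (fun t => (u t : ℕ)) ij.2)).card * U := by
          rw [Finset.sum_mul]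
      _ ≤ ∑ _ij : Fin r × Fin r, U ^ s := by
          refine Finset.sum_le_sum fun ij _ => ?_
          by_cases hij : ij.1 = ij.2
          · rw [Finset.filter_false_of_mem (fun u _ h => h.1 hij), Finset.card_empty, zero_mul]
            exact Nat.zero_le _
          · have h5 := coincide (fun i t => W * a i t) (val a b η) ij.1 ij.2 (fun h => by
              apply ha _ _ hij
              funext t
              exact Nat.eq_of_mul_eq_mul_left hW (congrFun h t)) U
            refine le_trans (Nat.mul_le_mul_right _ (Finset.card_le_card ?_)) h5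
            intro u hu
            rw [Finset.mem_filter] at hu ⊢
            exact ⟨hu.1, hu.2.2⟩
      _ = r * r * U ^ s := by
          rw [Finset.sum_const, Finset.card_univ, Fintype.card_prod, Fintype.card_fin, smul_eq_mul]
  have h6 : r * r * (2 * B.card) ≤ r * r * U ^ s := by
    calc r * r * (2 * B.card) = B.card * (2 * (r * r)) := by ring
      _ ≤ B.card * U := Nat.mul_le_mul_left _ hU
      _ ≤ _ := h3
  have h7 := Nat.le_of_mul_le_mul_left h6 (Nat.mul_pos hr hr)
  omega

open Classical in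
/-- the bound for a residue class `η` of the parameters -/
lemma class_bound (m s : ℕ) (a : Fin (4 * m + 1) → Fin s → ℕ)
    (ha : ∀ I : Fin (m + 1) ↪ Fin (4 * m + 1),
      AffineIndependent ℚ (fun j : Fin (m + 1) => (fun t : Fin s => (a (I j) t : ℚ))))
    (ha' : ∀ i j, i ≠ j → a i ≠ a j)
    (Ca : ℕ) (hCa : ∀ i, ∑ t, a i t ≤ Ca) (w U N a0 : ℕ)
    (hU : 2 * ((4 * m + 1) * (4 * m + 1)) ≤ U) (b : Fin (4 * m + 1) → ℕ) (η : Fin s → ℕ)
    (hη : ∀ t, η t < Wp w) (ε' : ℝ) (hε' : 0 ≤ ε')
    (hct : ∀ (T : Type) [Fintype T] (e : T → Fin (4 * m + 1) → ℕ),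
      (∀ t i, e t i ∈ Vset (Wp w) a b η (Wp w * ((1 + Ca) * U))) →
      (∀ t, Function.Injective (e t)) →
      (∀ (I : Fin (m + 1) ↪ Fin (4 * m + 1)) (v : Fin (m + 1) → ℕ),
        ((univ.filter (fun t : T => ∀ i, e t (I i) = v i)).card : ℝ) ≤
          (2 * (2 * (4 * (m:ℝ) + 1) * (1 + Ca)) ^ (m + 1)) * (Fintype.card T : ℝ) /
            ((Vset (Wp w) a b η (Wp w * ((1 + Ca) * U))).card : ℝ) ^ (m + 1)) →
      ((univ.filter (fun t : T => ∀ I : Fin (m + 1) ↪ Fin (4 * m + 1),
        (((XS N w a0).filter (fun n => ∀ i, (n + e t (I i)).Prime)).card : ℝ) <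
          c0 m * ((XS N w a0).card : ℝ) /
            (Maynard.cW (Wp w) * Real.log N) ^ (m + 1))).card : ℝ) ≤
        ε' * (Fintype.card T : ℝ))
    (S : Finset (Fin s → Fin U))
    (hS : ∀ u ∈ S, Function.Injective (val a b (pt (Wp w) η (fun t => (u t : ℕ)))) ∧
      ∀ u0 : Fin U, ∀ I : Fin (m + 1) ↪ Fin (4 * m + 1),
        (((XS N w a0).filter (fun n => ∀ i, (n + (Wp w * (u0 : ℕ) +
          val a b (pt (Wp w) η (fun t => (u t : ℕ))) (I i))).Prime)).card : ℝ) <
          c0 m * ((XS N w a0).card : ℝ) /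
            (Maynard.cW (Wp w) * Real.log N) ^ (m + 1)) :
    (S.card : ℝ) ≤ ε' * (U : ℝ) ^ s := by
  have hWpos := f1_Wp_pos w
  have hUpos : 0 < U := by nlinarith
  have hUR : (0:ℝ) < (U:ℝ) := by exact_mod_cast hUpos
  set V := Vset (Wp w) a b η (Wp w * ((1 + Ca) * U)) with hV
  -- size of V
  have hVle : (V.card : ℝ) ≤ 2 * (4 * (m:ℝ) + 1) * (1 + Ca) * U := by
    have h1 := card_Vset_le (Wp w) hWpos a b η ((1 + Ca) * U)
    have h2 : (4 * m + 1) * ((1 + Ca) * U + 1) ≤ 2 * (4 * m + 1) * (1 + Ca) * U := by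
      have h3 : 1 ≤ (1 + Ca) * U := Nat.one_le_iff_ne_zero.mpr (by positivity)
      nlinarith
    exact_mod_cast h1.trans h2
  have hVpos : (0:ℝ) < (V.card : ℝ) := by
    have h1 := le_card_Vset (r := 4 * m + 1) (by omega) (Wp w) hWpos a b η ((1 + Ca) * U)
    have h3 : 0 < (1 + Ca) * U := by positivity
    exact_mod_cast lt_of_lt_of_le h3 h1
  let T : Type := {p : Fin U × (Fin s → Fin U) //
    Function.Injective (val a b (pt (Wp w) η (fun t => (p.2 t : ℕ))))}
  have hT : (U:ℝ) ^ (s + 1) ≤ 2 * (Fintype.card T : ℝ) := by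
    have h1 := few_coincide (r := 4 * m + 1) (by omega) (Wp w) U hWpos hU a ha' b η
    have h2 : Fintype.card T = ((univ : Finset (Fin U × (Fin s → Fin U))).filter (fun p =>
        Function.Injective (val a b (pt (Wp w) η (fun t => (p.2 t : ℕ)))))).card :=
      Fintype.card_subtype _
    have h3 : ((univ : Finset (Fin U)) ×ˢ ((univ : Finset (Fin s → Fin U)).filter (fun u =>
        Function.Injective (val a b (pt (Wp w) η (fun t => (u t : ℕ))))))) ⊆
        (univ : Finset (Fin U × (Fin s → Fin U))).filter (fun p =>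
        Function.Injective (val a b (pt (Wp w) η (fun t => (p.2 t : ℕ))))) := by
      intro p hp
      rw [Finset.mem_product] at hp
      rw [Finset.mem_filter]
      exact ⟨Finset.mem_univ _, (Finset.mem_filter.mp hp.2).2⟩
    have h4 := Finset.card_le_card h3
    rw [Finset.card_product, Finset.card_univ, Fintype.card_fin, ← h2] at h4
    have h5 : U ^ (s + 1) ≤ 2 * Fintype.card T := by
      calc U ^ (s + 1) = U * U ^ s := by ring
        _ ≤ U * (2 * _) := Nat.mul_le_mul_left _ h1
        _ = 2 * (U * _) := by ring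
        _ ≤ _ := Nat.mul_le_mul_left _ h4
    exact_mod_cast h5
  have hTle : (Fintype.card T : ℝ) ≤ (U:ℝ) ^ (s + 1) := by
    have h1 : Fintype.card T ≤ Fintype.card (Fin U × (Fin s → Fin U)) :=
      Fintype.card_subtype_le _
    rw [Fintype.card_prod, Fintype.card_fun, Fintype.card_fin, Fintype.card_fin] at h1
    have h2 : Fintype.card T ≤ U ^ (s + 1) := h1.trans (le_of_eq (by ring))
    exact_mod_cast h2
  have hmain := hct T
    (fun t i => Wp w * (t.1.1 : ℕ) + val a b (pt (Wp w) η (fun k => (t.1.2 k : ℕ))) i)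
    (fun t i => mem_Vset (Wp w) U Ca a b hCa η hη _ t.1.1.2 _ (fun k => (t.1.2 k).2) i)
    (fun t i j hij => t.2 (by simpa using hij)) ?_
  · set F := (univ.filter (fun t : T => ∀ I : Fin (m + 1) ↪ Fin (4 * m + 1),
        (((XS N w a0).filter (fun n => ∀ i, (n + (Wp w * (t.1.1 : ℕ) +
          val a b (pt (Wp w) η (fun k => (t.1.2 k : ℕ))) (I i))).Prime)).card : ℝ) <
          c0 m * ((XS N w a0).card : ℝ) /
            (Maynard.cW (Wp w) * Real.log N) ^ (m + 1))) with hF
    have h1 : U * S.card ≤ F.card := by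
      have h2 : ((univ : Finset (Fin U)) ×ˢ S).card ≤ F.card := by
        refine Finset.card_le_card_of_injOn (fun p : Fin U × (Fin s → Fin U) =>
          if hp : p.2 ∈ S then (⟨p, (hS p.2 hp).1⟩ : T) else Classical.choice ?_) ?_ ?_
        · have h3 : 0 < Fintype.card T := by
            have h4 : (0:ℝ) < (U:ℝ) ^ (s + 1) := by positivity
            have h5 : (0:ℝ) < (Fintype.card T : ℝ) := by linarith
            exact_mod_cast h5
          exact Fintype.card_pos_iff.mp h3
        · intro p hp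
          rw [Finset.mem_coe, Finset.mem_product] at hp
          simp only
          rw [dif_pos hp.2, Finset.mem_coe, hF, Finset.mem_filter]
          exact ⟨Finset.mem_univ _, (hS p.2 hp.2).2 p.1⟩
        · intro p hp q hq hpq
          rw [Finset.mem_coe, Finset.mem_product] at hp hq
          simp only at hpq
          rw [dif_pos hp.2, dif_pos hq.2] at hpq
          exact congrArg Subtype.val hpq
      rwa [Finset.card_product, Finset.card_univ, Fintype.card_fin] at h2
    have h3 : (U:ℝ) * (S.card : ℝ) ≤ (F.card : ℝ) := by exact_mod_cast h1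
    have h4 : (U:ℝ) * (S.card : ℝ) ≤ (U:ℝ) * (ε' * (U : ℝ) ^ s) := by
      calc (U:ℝ) * (S.card : ℝ) ≤ (F.card : ℝ) := h3
        _ ≤ ε' * (Fintype.card T : ℝ) := hmain
        _ ≤ ε' * (U:ℝ) ^ (s + 1) := mul_le_mul_of_nonneg_left hTle hε'
        _ = _ := by ring
    exact le_of_mul_le_mul_left h4 hUR
  · intro I v
    set G := (univ.filter (fun t : T => ∀ i, Wp w * (t.1.1 : ℕ) +
      val a b (pt (Wp w) η (fun k => (t.1.2 k : ℕ))) (I i) = v i)) with hG
    have h1 : G.card * U ^ (m + 1) ≤ U ^ (s + 1) := by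
      refine le_trans (Nat.mul_le_mul_right _ ?_) (solve_count (fun j => a (I j)) (ha I) U
        (fun j => (v j - val a b η (I j)) / Wp w))
      refine Finset.card_le_card_of_injOn (fun t : T => t.1) ?_
        (fun t _ t' _ h => Subtype.ext h)
      intro t ht
      rw [Finset.mem_coe, hG, Finset.mem_filter] at ht
      rw [Finset.mem_coe, Finset.mem_filter]
      refine ⟨Finset.mem_univ _, fun j => ?_⟩
      have h2 := ht.2 j
      rw [val_pt] at h2
      have h3 : v j - val a b η (I j) =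
          Wp w * ((t.1.1 : ℕ) + ∑ k, a (I j) k * (t.1.2 k : ℕ)) := by
        rw [← h2, Nat.mul_add]
        omega
      rw [h3, Nat.mul_div_cancel_left _ hWpos]
    have h2 : (G.card : ℝ) * (U:ℝ) ^ (m + 1) ≤ (U:ℝ) ^ (s + 1) := by exact_mod_cast h1
    rw [le_div_iff₀ (by positivity)]
    calc (G.card : ℝ) * (V.card : ℝ) ^ (m + 1) ≤
          (G.card : ℝ) * (2 * (4 * (m:ℝ) + 1) * (1 + Ca) * U) ^ (m + 1) :=
          mul_le_mul_of_nonneg_left (pow_le_pow_left₀ hVpos.le hVle _) (by positivity)
      _ = (2 * (4 * (m:ℝ) + 1) * (1 + Ca)) ^ (m + 1) * ((G.card : ℝ) * (U:ℝ) ^ (m + 1)) := by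
          rw [mul_pow _ (U:ℝ)]
          ring
      _ ≤ (2 * (4 * (m:ℝ) + 1) * (1 + Ca)) ^ (m + 1) * (2 * (Fintype.card T : ℝ)) :=
          mul_le_mul_of_nonneg_left (h2.trans hT) (by positivity)
      _ = _ := by ring

end Pool.Agent.HLF
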