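import Mathlib
import Pool.Agent.HLT.Tuples

set_option autoImplicit false

open Finset

namespace Pool.Agent.HLF

open Pool.Agent.HLT

/-- a probability distribution on the subsets of `Fin r` whose marginals are at least `1/4 - τ` -/
structure IsDist (r : ℕ) (τ : ℝ) (p : Finset (Fin r) → ℝ) : Prop where
  nonneg : ∀ S, 0 ≤ p S
  sum : ∑ S, p S = 1
  marg : ∀ i, 1 / 4 - τ ≤ ∑ S ∈ univ.filter (fun S => i ∈ S), p S

/-- the values `f I` are bounded below by a distribution on subsets -/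
def GoodD (r m : ℕ) (τ c1 c2 : ℝ) (f : (Fin (m + 1) ↪ Fin r) → ℝ) : Prop :=
  ∃ p : Finset (Fin r) → ℝ, IsDist r τ p ∧
    ∀ I : Fin (m + 1) ↪ Fin r,
      c1 * (∑ S ∈ univ.filter (fun S => ∀ j, I j ∈ S), p S) - c2 ≤ f I

/-- the constant `c1` -/
noncomputable def c1D (m : ℕ) (τ : ℝ) : ℝ := (min 1 (8 * τ) / 64) ^ (m + 1)

lemma c1D_pos (m : ℕ) {τ : ℝ} (hτ : 0 < τ) : 0 < c1D m τ := by
  unfold c1D
  have : 0 < min 1 (8 * τ) := lt_min one_pos (by linarith)
  positivity

/-- nonnegative functions of mean about 1 and second moment about 4 give a distribution -/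
theorem exists_dist (m r : ℕ) (τ : ℝ) (hτ : 0 < τ) {X : Type} [Fintype X] [Nonempty X]
    (F : Fin r → X → ℝ) (hF : ∀ i n, 0 ≤ F i n)
    (h1 : ∀ i, 1 - min 1 (8 * τ) / 64 ≤ av (F i))
    (h2 : ∀ i, av (fun n => F i n ^ 2) ≤ 4 + min 1 (8 * τ)) :
    GoodD r m τ (c1D m τ) 0 (fun I => av (fun n => ∏ j, F (I j) n)) := by
  classical
  obtain ⟨u, hu⟩ : ∃ u : ℝ, u = min 1 (8 * τ) := ⟨_, rfl⟩
  have hu0 : 0 < u := by rw [hu]; exact lt_min one_pos (by linarith)
  have hu1 : u ≤ 1 := by rw [hu]; exact min_le_left _ _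
  have huτ : u / 8 ≤ τ := by
    have : u ≤ 8 * τ := by rw [hu]; exact min_le_right _ _
    linarith
  obtain ⟨t, ht⟩ : ∃ t : ℝ, t = u / 64 := ⟨_, rfl⟩
  have ht0 : 0 < t := by rw [ht]; positivity
  rw [← hu] at h1 h2
  -- indicators
  let g : Fin r → X → ℝ := fun i n => if t < F i n then 1 else 0
  have hP : ∀ i, 1 / 4 - u / 8 ≤ av (g i) := by
    intro i
    have e1 : av (F i) ≤ t + av (fun n => F i n * g i n) := by
      have h : av (F i) ≤ av (fun n => t + F i n * g i n) := by
        apply av_mono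
        intro n
        by_cases hlt : t < F i n
        · have : g i n = 1 := if_pos hlt
          rw [this]; linarith
        · have : g i n = 0 := if_neg hlt
          rw [this]; linarith [not_lt.mp hlt]
      rwa [av_add, av_const] at h
    have e2 : (av (fun n => F i n * g i n)) ^ 2 ≤
        av (fun n => F i n ^ 2) * av (fun n => g i n ^ 2) := av_cs _ _
    have e3 : av (fun n => g i n ^ 2) = av (g i) := by
      congr 1
      funext n
      by_cases hlt : t < F i n
      · have : g i n = 1 := if_pos hlt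
        rw [this]; norm_num
      · have : g i n = 0 := if_neg hlt
        rw [this]; norm_num
    rw [e3] at e2
    have e4 := h1 i
    have e5 := h2 i
    have e6 : 1 - u / 32 ≤ av (fun n => F i n * g i n) := by
      rw [ht] at e1; linarith
    have e7 : (1 - u / 32) ^ 2 ≤ (av (fun n => F i n * g i n)) ^ 2 :=
      pow_le_pow_left₀ (by linarith) e6 2
    have e8 : 0 ≤ av (g i) := av_nonneg (fun n => by
      show 0 ≤ (if t < F i n then (1:ℝ) else 0)
      split_ifs <;> norm_num)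
    have e9 : (1 - u / 32) ^ 2 ≤ (4 + u) * av (g i) :=
      e7.trans (e2.trans (mul_le_mul_of_nonneg_right e5 e8))
    by_contra hcon
    push Not at hcon
    nlinarith [mul_lt_mul_of_pos_left hcon (by linarith : 0 < 4 + u)]
  -- the distribution
  let q : Finset (Fin r) → X → ℝ := fun S n => if univ.filter (fun i => t < F i n) = S then 1 else 0
  have hq0 : ∀ S n, 0 ≤ q S n := fun S n => by
    show 0 ≤ (if _ then (1:ℝ) else 0)
    split_ifs <;> norm_num
  have hqsum : ∀ (P : Finset (Fin r) → Prop) [DecidablePred P] (n : X),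
      ∑ S ∈ univ.filter P, q S n = if P (univ.filter (fun i => t < F i n)) then 1 else 0 := by
    intro P _ n
    show ∑ S ∈ univ.filter P, (if univ.filter (fun i => t < F i n) = S then (1:ℝ) else 0) = _
    rw [Finset.sum_ite_eq]
    simp only [Finset.mem_filter, Finset.mem_univ, true_and]
  refine ⟨fun S => av (q S), ⟨fun S => av_nonneg (hq0 S), ?_, ?_⟩, ?_⟩
  · rw [← av_sum]
    have h3 : (fun n => ∑ S, q S n) = fun _ => (1:ℝ) := by
      funext n
      show ∑ S, (if univ.filter (fun i => t < F i n) = S then (1:ℝ) else 0) = 1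
      rw [Finset.sum_ite_eq, if_pos (Finset.mem_univ _)]
    rw [h3]
    exact av_const 1
  · intro i
    have h3 := hP i
    rw [← av_sum]
    have h4 : (fun n => ∑ S ∈ univ.filter (fun S => i ∈ S), q S n) = g i := by
      funext n
      rw [hqsum]
      show (if i ∈ univ.filter (fun i => t < F i n) then (1:ℝ) else 0) =
        (if t < F i n then 1 else 0)
      simp only [Finset.mem_filter, Finset.mem_univ, true_and]
    rw [h4]
    linarith
  · intro I
    rw [sub_zero, ← av_sum, ← av_mul_left]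
    apply av_mono
    intro n
    rw [hqsum]
    have hc : c1D m τ = t ^ (m + 1) := by
      unfold c1D
      rw [← hu, ht]
    rw [hc]
    split_ifs with hall
    · rw [mul_one]
      have h12 : ∏ _j : Fin (m + 1), t ≤ ∏ j, F (I j) n :=
        Finset.prod_le_prod (fun _ _ => ht0.le) (fun j _ => by
          have := hall j
          rw [Finset.mem_filter] at this
          exact this.2.le)
      rwa [Finset.prod_const, Finset.card_univ, Fintype.card_fin] at h12
    · rw [mul_zero]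
      exact Finset.prod_nonneg fun j _ => hF _ _

/-- independent copies of several distributions have a large common intersection -/
theorem combine (k r : ℕ) (hk : 1 ≤ k) (hr : 1 ≤ r) : ∃ τ γ : ℝ, 0 < τ ∧ 0 < γ ∧
    ∀ p : Fin k → Finset (Fin r) → ℝ, (∀ j, IsDist r τ (p j)) →
    ∃ σ : Fin k → Finset (Fin r), (∀ j, γ ≤ p j (σ j)) ∧
      r ≤ 4 ^ k * (univ.filter (fun i => ∀ j, i ∈ σ j)).card := by
  classical
  have hkR : (1:ℝ) ≤ k := by exact_mod_cast hk
  have hrR : (1:ℝ) ≤ r := by exact_mod_cast hr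
  have h4k : (1:ℝ) ≤ 4 ^ k := one_le_pow₀ (by norm_num)
  obtain ⟨τ, hτ⟩ : ∃ τ : ℝ, τ = 1 / (8 * k * r) := ⟨_, rfl⟩
  have hτ0 : 0 < τ := by rw [hτ]; positivity
  have hτ1 : 4 * k * τ * r = 1 / 2 := by rw [hτ]; field_simp; norm_num
  have hτ2 : 4 * τ ≤ 1 := by
    have : 4 * τ * 1 ≤ 4 * τ * (k * r) := by
      apply mul_le_mul_of_nonneg_left _ (by positivity)
      nlinarith
    nlinarith
  obtain ⟨Nσ, hNσ⟩ : ∃ Nσ : ℝ, Nσ = (Fintype.card (Fin k → Finset (Fin r)) : ℝ) := ⟨_, rfl⟩
  have hNσ0 : 0 < Nσ := by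
    rw [hNσ]
    have : 0 < Fintype.card (Fin k → Finset (Fin r)) := Fintype.card_pos
    exact_mod_cast this
  refine ⟨τ, 1 / (2 * r * 4 ^ k) / Nσ, hτ0, by positivity, ?_⟩
  intro p hp
  -- weights
  let wt : (Fin k → Finset (Fin r)) → ℝ := fun σ => ∏ j, p j (σ j)
  have hwt0 : ∀ σ, 0 ≤ wt σ := fun σ => Finset.prod_nonneg fun j _ => (hp j).nonneg _
  have hwt1 : ∑ σ, wt σ = 1 := by
    have h := Finset.prod_univ_sum (fun _ : Fin k => (univ : Finset (Finset (Fin r)))) p
    rw [Fintype.piFinset_univ] at h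
    rw [← h]
    exact Finset.prod_eq_one fun j _ => (hp j).sum
  let cnt : (Fin k → Finset (Fin r)) → ℝ := fun σ =>
    ((univ.filter (fun i => ∀ j, i ∈ σ j)).card : ℝ)
  have hmarg : ∀ i, (1 / 4 - τ) ^ k ≤ ∑ σ, wt σ * (if ∀ j, i ∈ σ j then 1 else 0) := by
    intro i
    have h := Finset.prod_univ_sum (fun _ : Fin k => (univ : Finset (Finset (Fin r))))
      (fun j S => if i ∈ S then p j S else 0)
    rw [Fintype.piFinset_univ] at h
    have h2 : ∑ σ, wt σ * (if ∀ j, i ∈ σ j then 1 else 0) =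
        ∑ σ : Fin k → Finset (Fin r), ∏ j, (if i ∈ σ j then p j (σ j) else 0) := by
      refine Finset.sum_congr rfl fun σ _ => ?_
      by_cases hall : ∀ j, i ∈ σ j
      · rw [if_pos hall, mul_one]
        exact Finset.prod_congr rfl fun j _ => (if_pos (hall j)).symm
      · rw [if_neg hall, mul_zero]
        push Not at hall
        obtain ⟨j, hj⟩ := hall
        exact (Finset.prod_eq_zero (Finset.mem_univ j) (if_neg hj)).symm
    rw [h2, ← h]
    calc (1 / 4 - τ) ^ k = ∏ _j : Fin k, (1 / 4 - τ) := by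
          rw [Finset.prod_const, Finset.card_univ, Fintype.card_fin]
      _ ≤ ∏ j, ∑ S, (if i ∈ S then p j S else 0) := by
          apply Finset.prod_le_prod
          · intro j _
            linarith
          · intro j _
            rw [← Finset.sum_filter]
            exact (hp j).marg i
  have hcnt : (r:ℝ) * (1 / 4 - τ) ^ k ≤ ∑ σ, wt σ * cnt σ := by
    have h3 : ∑ σ, wt σ * cnt σ = ∑ i : Fin r, ∑ σ, wt σ * (if ∀ j, i ∈ σ j then 1 else 0) := by
      rw [Finset.sum_comm]
      refine Finset.sum_congr rfl fun σ _ => ?_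
      rw [← Finset.mul_sum]
      congr 1
      show ((univ.filter (fun i => ∀ j, i ∈ σ j)).card : ℝ) = _
      rw [Finset.sum_boole]
    rw [h3]
    calc (r:ℝ) * (1 / 4 - τ) ^ k = ∑ _i : Fin r, (1 / 4 - τ) ^ k := by
          rw [Finset.sum_const, Finset.card_univ, Fintype.card_fin, nsmul_eq_mul]
      _ ≤ _ := Finset.sum_le_sum fun i _ => hmarg i
  -- lower bound for the mean
  have hmean : ((r:ℝ) - 1) / 4 ^ k + 1 / (2 * 4 ^ k) ≤ r * (1 / 4 - τ) ^ k := by
    have e1 : (1 / 4 - τ) ^ k = (1 - 4 * τ) ^ k / 4 ^ k := by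
      rw [← div_pow]; congr 1; ring
    have e2 : 1 - k * (4 * τ) ≤ (1 - 4 * τ) ^ k := by
      have := one_add_mul_le_pow (a := -(4 * τ)) (by linarith) k
      have e3 : 1 + -(4 * τ) = 1 - 4 * τ := by ring
      rw [e3] at this
      linarith
    have h4pos : (0:ℝ) < 4 ^ k := by positivity
    have e3 : ((r:ℝ) - 1) / 4 ^ k + 1 / (2 * 4 ^ k) = ((r:ℝ) - 1 / 2) / 4 ^ k := by
      field_simp
      ring
    rw [e1, e3, mul_div_assoc']
    apply div_le_div_of_nonneg_right _ h4pos.le
    have e4 := mul_le_mul_of_nonneg_left e2 (by linarith : (0:ℝ) ≤ r)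
    have e5 : (r:ℝ) * (1 - k * (4 * τ)) = r - 4 * k * τ * r := by ring
    rw [e5, hτ1] at e4
    exact e4
  -- a good σ
  obtain ⟨σ, hσ1, hσ2⟩ : ∃ σ, 1 / (2 * r * 4 ^ k) / Nσ ≤ wt σ ∧ (r:ℝ) ≤ 4 ^ k * cnt σ := by
    by_contra hcon
    push Not at hcon
    have h4pos : (0:ℝ) < 4 ^ k := by positivity
    have hγ : 0 < 1 / (2 * (r:ℝ) * 4 ^ k) / Nσ := by positivity
    have hpt : ∀ σ, wt σ * cnt σ <
        wt σ * (((r:ℝ) - 1) / 4 ^ k) + r * (1 / (2 * r * 4 ^ k) / Nσ) := by
      intro σ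
      by_cases hc : 1 / (2 * (r:ℝ) * 4 ^ k) / Nσ ≤ wt σ
      · have h5 : (4:ℝ) ^ k * ((univ.filter (fun i => ∀ j, i ∈ σ j)).card : ℝ) < r := hcon σ hc
        have h6 : 4 ^ k * (univ.filter (fun i => ∀ j, i ∈ σ j)).card < r := by
          exact_mod_cast h5
        have h7 : 4 ^ k * (univ.filter (fun i => ∀ j, i ∈ σ j)).card + 1 ≤ r := h6
        have h8 : (4:ℝ) ^ k * cnt σ + 1 ≤ r := by
          show (4:ℝ) ^ k * ((univ.filter (fun i => ∀ j, i ∈ σ j)).card : ℝ) + 1 ≤ r
          exact_mod_cast h7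
        have h9 : cnt σ ≤ ((r:ℝ) - 1) / 4 ^ k := by
          rw [le_div_iff₀ h4pos]
          linarith
        have h10 := mul_le_mul_of_nonneg_left h9 (hwt0 σ)
        have h11 : 0 < (r:ℝ) * (1 / (2 * r * 4 ^ k) / Nσ) := by positivity
        linarith
      · push Not at hc
        have h5 : cnt σ ≤ r := by
          show ((univ.filter (fun i => ∀ j, i ∈ σ j)).card : ℝ) ≤ r
          have h6 := Finset.card_le_univ (univ.filter (fun i : Fin r => ∀ j, i ∈ σ j))
          rw [Fintype.card_fin] at h6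
          exact_mod_cast h6
        have h7 : wt σ * cnt σ ≤ wt σ * r := mul_le_mul_of_nonneg_left h5 (hwt0 σ)
        have h8 : wt σ * r < r * (1 / (2 * r * 4 ^ k) / Nσ) := by
          rw [mul_comm]
          exact mul_lt_mul_of_pos_left hc (by linarith)
        have h9 : 0 ≤ wt σ * (((r:ℝ) - 1) / 4 ^ k) :=
          mul_nonneg (hwt0 σ) (div_nonneg (by linarith) h4pos.le)
        linarith
    have hsum := Finset.sum_lt_sum_of_nonempty (s := (univ : Finset (Fin k → Finset (Fin r))))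
      (Finset.univ_nonempty) (fun σ _ => hpt σ)
    rw [Finset.sum_add_distrib, ← Finset.sum_mul, hwt1, one_mul, Finset.sum_const,
      Finset.card_univ, nsmul_eq_mul, ← hNσ] at hsum
    have h12 : Nσ * ((r:ℝ) * (1 / (2 * r * 4 ^ k) / Nσ)) = 1 / (2 * 4 ^ k) := by
      field_simp
    rw [h12] at hsum
    linarith
  refine ⟨σ, fun j => ?_, ?_⟩
  · refine hσ1.trans ?_
    have h5 : wt σ = p j (σ j) * ∏ i ∈ univ.erase j, p i (σ i) :=
      (Finset.mul_prod_erase univ (fun i => p i (σ i)) (Finset.mem_univ j)).symm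
    rw [h5]
    refine mul_le_of_le_one_right ((hp j).nonneg _) ?_
    refine Finset.prod_le_one (fun i _ => (hp i).nonneg _) fun i _ => ?_
    rw [← (hp i).sum]
    exact Finset.single_le_sum (fun S _ => (hp i).nonneg S) (Finset.mem_univ (σ i))
  · have h5 : (r:ℝ) ≤ (4:ℝ) ^ k * ((univ.filter (fun i => ∀ j, i ∈ σ j)).card : ℝ) := hσ2
    exact_mod_cast h5

end Pool.Agent.HLF
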