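import Mathlib
import Pool.Agent.HLT.Tuples
import Pool.Agent.HLF.Dist

set_option autoImplicit false

open Finset

namespace Pool.Agent.HLF

open Pool.Agent.HLT

/-- the abstract conclusion, for tuples of any length and with a distribution on subsets -/
theorem tuples_of_closeD (m r : ℕ) (hmr : m + 1 ≤ r) (τ c2 D ε : ℝ) (hτ : 0 < τ)
    (hc2 : 0 < c2) (hD : 0 < D) (hε : 0 < ε) :
    ∃ ε1 : ℝ, 0 < ε1 ∧ ∀ J : ℕ, 0 < J → ∃ κ : ℝ, 0 < κ ∧
    ∀ (X V : Type) [Fintype X] [Nonempty X] [Fintype V] [Nonempty V] [DecidableEq V]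
      (M : X → V → ℝ) (Λ : ℝ) (χ : V → Fin J),
      (∀ n d, 0 ≤ M n d) → (∀ d, 1 - κ ≤ av (fun n => M n d)) →
      (∀ d, gram M d d ≤ Λ) → Λ / (Fintype.card V : ℝ) ≤ κ →
      (∀ d, av (fun d' => if d' = d then 0 else max (gram M d d' - (4 + κ)) 0) ≤ κ) →
      av (fun e : Fin (m + 1) → V => if Function.Injective e then
        |corr M e - corr (fun n => proj χ (M n)) e| else 0) ≤ ε1 →
      ∀ (T : Type) [Fintype T] (e : T → Fin r → V),
        (∀ t, Function.Injective (e t)) →
        (∀ (I : Fin (m + 1) ↪ Fin r) (v : Fin (m + 1) → V),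
          ((univ.filter (fun t : T => ∀ i, e t (I i) = v i)).card : ℝ) ≤
            D * (Fintype.card T : ℝ) / (Fintype.card V : ℝ) ^ (m + 1)) →
        ∀ S : Finset T, (∀ t ∈ S, ¬ GoodD r m τ (c1D m τ) c2
          (fun I => corr M (fun i => e t (I i)))) →
        (S.card : ℝ) ≤ ε * (Fintype.card T : ℝ) := by
  classical
  set Nemb : ℝ := (Fintype.card (Fin (m + 1) ↪ Fin r) : ℝ) with hNemb
  let I0 : Fin (m + 1) ↪ Fin r := Fin.castLEEmb hmr
  have hNpos : 0 < Nemb := by
    have : 0 < Fintype.card (Fin (m + 1) ↪ Fin r) := Fintype.card_pos_iff.2 ⟨I0⟩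
    rw [hNemb]; exact_mod_cast this
  refine ⟨ε * c2 / (2 * D * Nemb), by positivity, ?_⟩
  intro J hJ
  have hJ' : (0:ℝ) < J := by exact_mod_cast hJ
  set K : ℝ := (r:ℝ) with hK
  have hKpos : 0 < K := by
    have : 0 < r := by omega
    rw [hK]; exact_mod_cast this
  set β : ℝ := ε / (4 * K * D * J) with hβ
  have hβpos : 0 < β := by positivity
  obtain ⟨u, hu⟩ : ∃ u : ℝ, u = min 1 (8 * τ) := ⟨_, rfl⟩
  have hu0 : 0 < u := by rw [hu]; exact lt_min one_pos (by linarith)
  set κ : ℝ := u / (64 * (1 + 2 / β)) with hκ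
  have hκpos : 0 < κ := by positivity
  have hκeq : κ * (1 + 2 / β) = u / 64 := by
    rw [hκ]; field_simp
  refine ⟨κ, hκpos, ?_⟩
  intro X V _ _ _ _ _ M Λ χ hM hmean hdiag hsmall hrow hclose T _ e hinj hdens S hS
  have hV : (0:ℝ) < (Fintype.card V : ℝ) := by exact_mod_cast Fintype.card_pos
  set B : ℝ := D * (Fintype.card T : ℝ) / (Fintype.card V : ℝ) ^ (m + 1) with hB
  have hcardfun : ((Fintype.card (Fin (m + 1) → V) : ℕ) : ℝ) = (Fintype.card V : ℝ) ^ (m + 1) := by
    rw [Fintype.card_fun, Fintype.card_fin]; push_cast; rfl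
  have hBav : ∀ w : (Fin (m + 1) → V) → ℝ, B * ∑ v, w v = D * (Fintype.card T : ℝ) * av w := by
    intro w
    unfold av
    rw [hcardfun, hB]
    ring
  -- weights
  let sm : V → ℝ := fun d => if ((univ.filter (fun e => χ e = χ d)).card : ℝ) <
    β * (Fintype.card V : ℝ) then (1:ℝ) else 0
  have hsm0 : ∀ d, 0 ≤ sm d := fun d => by
    show 0 ≤ (if _ then (1:ℝ) else 0)
    split_ifs <;> norm_num
  let df : (Fin (m + 1) → V) → ℝ := fun v => if Function.Injective v then
    |corr M v - corr (fun n => proj χ (M n)) v| else 0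
  have hdf0 : ∀ v, 0 ≤ df v := fun v => by
    show 0 ≤ (if _ then _ else (0:ℝ))
    split_ifs
    · exact abs_nonneg _
    · exact le_rfl
  -- main pointwise claim
  have hpt : ∀ t : T, t ∈ S → 1 ≤
      ∑ i, sm (e t i) + ∑ I : Fin (m + 1) ↪ Fin r, df (fun i => e t (I i)) / c2 := by
    intro t htS
    have hs1 : 0 ≤ ∑ i, sm (e t i) := Finset.sum_nonneg fun i _ => hsm0 _
    have hs2 : 0 ≤ ∑ I : Fin (m + 1) ↪ Fin r, df (fun i => e t (I i)) / c2 :=
      Finset.sum_nonneg fun I _ => div_nonneg (hdf0 _) hc2.le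
    by_cases hsmall' : ∃ i, sm (e t i) = 1
    · obtain ⟨i, hi⟩ := hsmall'
      have : sm (e t i) ≤ ∑ i, sm (e t i) :=
        Finset.single_le_sum (fun j _ => hsm0 (e t j)) (Finset.mem_univ i)
      linarith
    · push Not at hsmall'
      have hbig : ∀ i, β * (Fintype.card V : ℝ) ≤
          ((univ.filter (fun e' => χ e' = χ (e t i))).card : ℝ) := by
        intro i
        by_contra hcon
        push Not at hcon
        apply hsmall' i
        show (if _ then (1:ℝ) else 0) = 1
        rw [if_pos hcon]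
      obtain ⟨p, hp, hpI⟩ := exists_dist m r τ hτ (fun i n => proj χ (M n) (e t i))
        (fun i n => proj_nonneg χ (hM n) _)
        (by
          intro i
          have h1 : av (fun n => proj χ (M n) (e t i)) =
              proj χ (fun d => av (fun n => M n d)) (e t i) := by
            unfold proj
            rw [show (fun n => (∑ e' ∈ univ.filter (fun e' => χ e' = χ (e t i)), M n e') /
              ((univ.filter (fun e' => χ e' = χ (e t i))).card : ℝ)) =
              fun n => (∑ e' ∈ univ.filter (fun e' => χ e' = χ (e t i)), M n e') *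
              (1 / ((univ.filter (fun e' => χ e' = χ (e t i))).card : ℝ)) from by
                funext n; ring]
            rw [av_mul_right, av_sum]
            ring
          rw [h1, ← hu]
          have h2 := proj_mono χ (u := fun _ => 1 - κ) (v := fun d => av (fun n => M n d))
            hmean (e t i)
          rw [proj_const] at h2
          refine le_trans ?_ h2
          have h3 : κ ≤ u / 64 := by
            rw [← hκeq]
            have : 0 ≤ κ * (2 / β) := by positivity
            linarith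
          linarith)
        (by
          intro i
          refine (A6_second M χ hκpos hβpos hdiag hsmall hrow (e t i) (hbig i)).trans ?_
          have h3 : κ + 2 * κ / β = u / 64 := by rw [← hκeq]; ring
          rw [← hu]
          linarith)
      -- some I violates the bound
      have hbad : ∃ I : Fin (m + 1) ↪ Fin r, corr M (fun i => e t (I i)) <
          c1D m τ * (∑ S ∈ univ.filter (fun S => ∀ j, I j ∈ S), p S) - c2 := by
        by_contra hcon
        push Not at hcon
        exact hS t htS ⟨p, hp, hcon⟩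
      obtain ⟨I, hI⟩ := hbad
      have hI' : c1D m τ * (∑ S ∈ univ.filter (fun S => ∀ j, I j ∈ S), p S) - 0 ≤
          corr (fun n => proj χ (M n)) (fun i => e t (I i)) := hpI I
      have hinjI : Function.Injective (fun i => e t (I i)) := (hinj t).comp I.injective
      have hge : c2 ≤ df (fun i => e t (I i)) := by
        show c2 ≤ (if _ then _ else (0:ℝ))
        rw [if_pos hinjI]
        rw [abs_sub_comm]
        refine le_trans ?_ (le_abs_self _)
        linarith
      have h5 : 1 ≤ df (fun i => e t (I i)) / c2 := by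
        rw [le_div_iff₀ hc2]; linarith
      have h6 : df (fun i => e t (I i)) / c2 ≤
          ∑ I : Fin (m + 1) ↪ Fin r, df (fun i => e t (I i)) / c2 :=
        Finset.single_le_sum (f := fun I : Fin (m + 1) ↪ Fin r =>
          df (fun i => e t (I i)) / c2) (fun I _ => div_nonneg (hdf0 _) hc2.le)
          (Finset.mem_univ I)
      linarith
  have hall0 : ∀ t : T, 0 ≤
      ∑ i, sm (e t i) + ∑ I : Fin (m + 1) ↪ Fin r, df (fun i => e t (I i)) / c2 :=
    fun t => add_nonneg (Finset.sum_nonneg fun i _ => hsm0 _)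
      (Finset.sum_nonneg fun I _ => div_nonneg (hdf0 _) hc2.le)
  have hcard : (S.card : ℝ) ≤ ∑ t : T,
      (∑ i, sm (e t i) + ∑ I : Fin (m + 1) ↪ Fin r, df (fun i => e t (I i)) / c2) := by
    calc (S.card : ℝ) = ∑ t ∈ S, (1:ℝ) := by simp
      _ ≤ ∑ t ∈ S, (∑ i, sm (e t i) +
          ∑ I : Fin (m + 1) ↪ Fin r, df (fun i => e t (I i)) / c2) :=
          Finset.sum_le_sum fun t ht => hpt t ht
      _ ≤ _ := Finset.sum_le_sum_of_subset_of_nonneg (Finset.subset_univ _)
          fun t _ _ => hall0 t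
  refine hcard.trans ?_
  rw [Finset.sum_add_distrib, Finset.sum_comm, Finset.sum_comm (s := (univ : Finset T))
    (t := (univ : Finset (Fin (m + 1) ↪ Fin r)))]
  have hi : ∀ i : Fin r, ∑ t, sm (e t i) ≤ D * (Fintype.card T : ℝ) * (J * β) := by
    intro i
    let I : Fin (m + 1) ↪ Fin r := I0.trans (Equiv.swap (I0 0) i).toEmbedding
    have hI0 : I 0 = i := by
      show Equiv.swap (I0 0) i (I0 0) = i
      exact Equiv.swap_apply_left _ _
    have h1 := A6_sum (fun t i => e t (I i)) (hdens I) (fun v => sm (v 0)) (fun v => hsm0 _)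
    rw [hBav, A6_av0] at h1
    have h2 : ∀ t, sm (e t i) = sm (e t (I 0)) := fun t => by rw [hI0]
    simp only [h2]
    refine h1.trans ?_
    refine mul_le_mul_of_nonneg_left (A6_small χ hβpos) (by positivity)
  have hii : ∀ I : Fin (m + 1) ↪ Fin r,
      ∑ t, df (fun i => e t (I i)) / c2 ≤
      D * (Fintype.card T : ℝ) * ((ε * c2 / (2 * D * Nemb)) / c2) := by
    intro I
    have h1 := A6_sum (fun t i => e t (I i)) (hdens I) (fun v => df v / c2)
      (fun v => div_nonneg (hdf0 _) hc2.le)
    rw [hBav] at h1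
    refine h1.trans ?_
    refine mul_le_mul_of_nonneg_left ?_ (by positivity)
    have h2 : (fun v => df v / c2) = fun v => df v * (1 / c2) := by
      funext v; ring
    rw [h2, av_mul_right]
    have h3 : av df ≤ ε * c2 / (2 * D * Nemb) := hclose
    calc av df * (1 / c2) ≤ (ε * c2 / (2 * D * Nemb)) * (1 / c2) := by gcongr
      _ = _ := by ring
  refine (add_le_add (Finset.sum_le_sum fun i _ => hi i)
    (Finset.sum_le_sum fun I _ => hii I)).trans ?_
  rw [Finset.sum_const, Finset.sum_const, nsmul_eq_mul, nsmul_eq_mul, Finset.card_univ,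
    Finset.card_univ, Fintype.card_fin]
  have hT : (0:ℝ) ≤ (Fintype.card T : ℝ) := by positivity
  have e1 : (r : ℝ) * (D * (Fintype.card T : ℝ) * (J * β)) =
      ε / 4 * (Fintype.card T : ℝ) := by
    rw [hβ, ← hK]
    field_simp
  have e2 : (Fintype.card (Fin (m + 1) ↪ Fin r) : ℝ) *
      (D * (Fintype.card T : ℝ) * ((ε * c2 / (2 * D * Nemb)) / c2)) =
      ε / 2 * (Fintype.card T : ℝ) := by
    rw [← hNemb]
    field_simp
  rw [e1, e2]
  nlinarith

end Pool.Agent.HLF
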