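import Mathlib
import Pool.Agent.HLF.Class
import Pool.Agent.HLF.TuplesD

set_option autoImplicit false

open Finset Filter

namespace Pool.Agent.HLF

open Pool.Agent.HLT Pool.Agent.HL26 Pool.Agent.Maynard

/-- the normalised number of prime tuples in a class -/
noncomputable def ncnt (N w a : ℕ) {k : ℕ} (v : Fin k → ℕ) : ℝ :=
  (((XS N w a).filter (fun n => ∀ i, (n + v i).Prime)).card : ℝ) *
    (cW (Wp w) * Real.log N) ^ k / ((XS N w a).card : ℝ)

/-- The per-class theorem for a general set `V` of shifts, with a distribution on subsets. -/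
theorem class_tuplesD (m r : ℕ) (hm : 1 ≤ m) (hmr : m + 1 ≤ r) (τ c2 D ε : ℝ) (hτ : 0 < τ)
    (hc2 : 0 < c2) (hD : 0 < D) (hε : 0 < ε) :
    ∃ κ0 : ℝ, 0 < κ0 ∧ ∃ w0 : ℕ, ∀ w : ℕ, w0 ≤ w → ∃ K : ℝ, ∀ A : ℕ, ∀ᶠ N : ℕ in atTop,
    ∀ (a : ℕ) (V : Finset ℕ),
      (∀ d ∈ V, (d:ℝ) ≤ (Real.log N) ^ A ∧ (a + d).Coprime (Wp w)) →
      K * Real.log N ≤ (V.card : ℝ) →
      (∀ d ∈ V, ∑ d' ∈ V, (if d' = d then 0 else
        pp w (Nat.dist d d') ^ ((2 * m + 2) * ((m + 1) * (2 * m + 1))) - 1) ≤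
          κ0 * (V.card : ℝ)) →
    ∀ (T : Type) [Fintype T] (e : T → Fin r → ℕ),
      (∀ t i, e t i ∈ V) → (∀ t, Function.Injective (e t)) →
      (∀ (I : Fin (m + 1) ↪ Fin r) (v : Fin (m + 1) → ℕ),
        ((univ.filter (fun t : T => ∀ i, e t (I i) = v i)).card : ℝ) ≤
          D * (Fintype.card T : ℝ) / (V.card : ℝ) ^ (m + 1)) →
      ∀ S : Finset T, (∀ t ∈ S, ¬ GoodD r m τ (c1D m τ) c2
        (fun I => ncnt N w a (fun i => e t (I i)))) →
      (S.card : ℝ) ≤ ε * (Fintype.card T : ℝ) := by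
  obtain ⟨ε1, hε1, hA6⟩ := tuples_of_closeD m r hmr τ c2 D ε hτ hc2 hD hε
  obtain ⟨cp, hcp, hA3⟩ := close_tuples m hm 10 ε1 (by norm_num) hε1
  obtain ⟨C, hC, hB9⟩ := LF.PRV_le_one m hm cp hcp
  obtain ⟨κ, hκ, J, hJ, hclose⟩ := hA3 C hC
  obtain ⟨κ', hκ', htup⟩ := hA6 J hJ
  obtain ⟨κ0, hκ0, w0, hw0⟩ := hB9 (min (min κ κ') 1) (lt_min (lt_min hκ hκ') one_pos)
    (min_le_right _ _)
  refine ⟨κ0, hκ0, w0, fun w hw => ?_⟩
  obtain ⟨K, hK⟩ := hw0 w hw
  refine ⟨K, fun A => ?_⟩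
  filter_upwards [hK A, eventually_ge_atTop 2] with N hN hN2 a V h1 h2 h2' T _ e heV hinj hdens S hS
  obtain ⟨hXne, hVne, ⟨ν, hPR⟩, hmean, hrow⟩ := hN a V h1 h2 h2'
  have : Nonempty (XS N w a) := hXne.to_subtype
  have : Nonempty V := hVne.to_subtype
  have hle1 : min (min κ κ') 1 ≤ κ := (min_le_left _ _).trans (min_le_left _ _)
  have hκκ : min (min κ κ') 1 ≤ κ' := (min_le_left _ _).trans (min_le_right _ _)
  obtain ⟨χ, hχ⟩ := hclose (XS N w a) V (MM N w) ν _ (hPR.weaken hle1)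
  refine htup (XS N w a) V (MM N w) _ χ hPR.nonneg
    (fun d => (by linarith : 1 - κ' ≤ 1 - min (min κ κ') 1).trans (hmean d)) hPR.diag
    (hPR.small.trans hκκ)
    (fun d => ((av_mono fun d' => by
      by_cases h : d' = d
      · rw [if_pos h, if_pos h]
      · rw [if_neg h, if_neg h]
        exact max_le_max (by linarith) le_rfl).trans (hrow d)).trans hκκ) hχ
    T (fun t i => ⟨e t i, heV t i⟩)
    (fun t i j hij => hinj t (by simpa using hij))
    (fun I v => by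
      rw [Fintype.card_coe]
      refine le_trans (le_of_eq ?_) (hdens I (fun i => (v i : ℕ)))
      congr 2
      ext t
      simp only [mem_filter, mem_univ, true_and]
      exact forall_congr' fun i => by rw [Subtype.ext_iff]) S ?_
  intro t ht hgood
  apply hS t ht
  have e1 : (fun I : Fin (m + 1) ↪ Fin r => ncnt N w a (fun i => e t (I i))) =
      (fun I : Fin (m + 1) ↪ Fin r => corr (MM N w (S := XS N w a) (T := V))
        (fun i => (⟨e t (I i), heV t (I i)⟩ : V))) := by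
    funext I
    rw [corr_MM_eq]
    rfl
  rw [e1]
  exact hgood

end Pool.Agent.HLF
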