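import Mathlib
import Pool.Agent.HLF.ClassB
import Pool.Agent.HLF.ClassD

set_option autoImplicit false

open Finset Filter

namespace Pool.Agent.HLF

open Pool.Agent.HLT Pool.Agent.HL26

open Classical in
lemma noninj_card {r s : ℕ} (W U : ℕ) (hW : 0 < W)
    (a : Fin r → Fin s → ℕ) (ha : ∀ i j, i ≠ j → a i ≠ a j) (b : Fin r → ℕ) (η : Fin s → ℕ) :
    ((univ : Finset (Fin s → Fin U)).filter (fun u =>
      ¬ Function.Injective (val a b (pt W η (fun t => (u t : ℕ)))))).card * U ≤
      r * r * U ^ s := by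
  set B := (univ : Finset (Fin s → Fin U)).filter (fun u =>
      ¬ Function.Injective (val a b (pt W η (fun t => (u t : ℕ))))) with hB
  have h2 : B ⊆ (univ : Finset (Fin r × Fin r)).biUnion (fun ij =>
      (univ : Finset (Fin s → Fin U)).filter (fun u => ij.1 ≠ ij.2 ∧
        val (fun i t => W * a i t) (val a b η) (fun t => (u t : ℕ)) ij.1 =
          val (fun i t => W * a i t) (val a b η) (fun t => (u t : ℕ)) ij.2)) := by
    intro u hu
    rw [hB, Finset.mem_filter] at hu
    have hu2 := hu.2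
    unfold Function.Injective at hu2
    push Not at hu2
    obtain ⟨i, j, hij, hne⟩ := hu2
    rw [Finset.mem_biUnion]
    refine ⟨(i, j), Finset.mem_univ _, ?_⟩
    rw [Finset.mem_filter]
    refine ⟨Finset.mem_univ _, hne, ?_⟩
    have key : ∀ k, val (fun i t => W * a i t) (val a b η) (fun t => (u t : ℕ)) k =
        val a b (pt W η (fun t => (u t : ℕ))) k := by
      intro k
      rw [val_pt]
      conv_lhs => unfold val
      rw [Finset.mul_sum]
      congr 1
      exact Finset.sum_congr rfl fun t _ => by ring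
    rw [key, key]
    exact hij
  have h4 : B.card ≤ ∑ ij : Fin r × Fin r, ((univ : Finset (Fin s → Fin U)).filter
      (fun u => ij.1 ≠ ij.2 ∧
        val (fun i t => W * a i t) (val a b η) (fun t => (u t : ℕ)) ij.1 =
          val (fun i t => W * a i t) (val a b η) (fun t => (u t : ℕ)) ij.2)).card :=
    (Finset.card_le_card h2).trans Finset.card_biUnion_le
  calc B.card * U ≤ (∑ ij : Fin r × Fin r, ((univ : Finset (Fin s → Fin U)).filter
      (fun u => ij.1 ≠ ij.2 ∧
        val (fun i t => W * a i t) (val a b η) (fun t => (u t : ℕ)) ij.1 =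
          val (fun i t => W * a i t) (val a b η) (fun t => (u t : ℕ)) ij.2)).card) * U :=
        Nat.mul_le_mul_right _ h4
    _ = ∑ ij : Fin r × Fin r, ((univ : Finset (Fin s → Fin U)).filter
      (fun u => ij.1 ≠ ij.2 ∧
        val (fun i t => W * a i t) (val a b η) (fun t => (u t : ℕ)) ij.1 =
          val (fun i t => W * a i t) (val a b η) (fun t => (u t : ℕ)) ij.2)).card * U := by
        rw [Finset.sum_mul]
    _ ≤ ∑ _ij : Fin r × Fin r, U ^ s := by
        refine Finset.sum_le_sum fun ij _ => ?_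
        by_cases hij : ij.1 = ij.2
        · rw [Finset.filter_false_of_mem (fun u _ h => h.1 hij), Finset.card_empty, zero_mul]
          exact Nat.zero_le _
        · have h5 := coincide (fun i t => W * a i t) (val a b η) ij.1 ij.2 (fun h => by
            apply ha _ _ hij
            funext t
            exact Nat.eq_of_mul_eq_mul_left hW (congrFun h t)) U
          refine le_trans (Nat.mul_le_mul_right _ (Finset.card_le_card ?_)) h5
          intro u hu
          rw [Finset.mem_filter] at hu ⊢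
          exact ⟨hu.1, hu.2.2⟩
    _ = r * r * U ^ s := by
        rw [Finset.sum_const, Finset.card_univ, Fintype.card_prod, Fintype.card_fin, smul_eq_mul]

open Classical in
lemma few_coincideK {k r s : ℕ} (hk : 0 < k) (hr : 0 < r) (W U : ℕ) (hW : 0 < W)
    (hU : 2 * (k * (r * r)) ≤ U)
    (a : Fin k → Fin r → Fin s → ℕ) (ha : ∀ l i j, i ≠ j → a l i ≠ a l j)
    (b : Fin k → Fin r → ℕ) (η : Fin s → ℕ) :
    U ^ s ≤ 2 * ((univ : Finset (Fin s → Fin U)).filter (fun u =>
      ∀ l, Function.Injective (val (a l) (b l) (pt W η (fun t => (u t : ℕ)))))).card := by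
  set G := (univ : Finset (Fin s → Fin U)).filter (fun u =>
      ∀ l, Function.Injective (val (a l) (b l) (pt W η (fun t => (u t : ℕ))))) with hG
  set B := (univ : Finset (Fin s → Fin U)).filter (fun u =>
      ¬ ∀ l, Function.Injective (val (a l) (b l) (pt W η (fun t => (u t : ℕ))))) with hB
  have h1 : G.card + B.card = U ^ s := by
    rw [hG, hB, Finset.card_filter_add_card_filter_not, Finset.card_univ, Fintype.card_fun,
      Fintype.card_fin, Fintype.card_fin]
  have h2 : B ⊆ (univ : Finset (Fin k)).biUnion (fun l =>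
      (univ : Finset (Fin s → Fin U)).filter (fun u =>
        ¬ Function.Injective (val (a l) (b l) (pt W η (fun t => (u t : ℕ)))))) := by
    intro u hu
    rw [hB, Finset.mem_filter] at hu
    have hu2 := hu.2
    push Not at hu2
    obtain ⟨l, hl⟩ := hu2
    rw [Finset.mem_biUnion]
    exact ⟨l, Finset.mem_univ _, Finset.mem_filter.mpr ⟨Finset.mem_univ _, hl⟩⟩
  have h3 : B.card * U ≤ k * (r * r) * U ^ s := by
    calc B.card * U ≤ (∑ l : Fin k, ((univ : Finset (Fin s → Fin U)).filter (fun u =>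
        ¬ Function.Injective (val (a l) (b l) (pt W η (fun t => (u t : ℕ)))))).card) * U :=
          Nat.mul_le_mul_right _ ((Finset.card_le_card h2).trans Finset.card_biUnion_le)
      _ = ∑ l : Fin k, ((univ : Finset (Fin s → Fin U)).filter (fun u =>
        ¬ Function.Injective (val (a l) (b l) (pt W η (fun t => (u t : ℕ)))))).card * U := by
          rw [Finset.sum_mul]
      _ ≤ ∑ _l : Fin k, r * r * U ^ s :=
          Finset.sum_le_sum fun l _ => noninj_card W U hW (a l) (ha l) (b l) η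
      _ = _ := by
          rw [Finset.sum_const, Finset.card_univ, Fintype.card_fin, smul_eq_mul]
          ring
  have h6 : k * (r * r) * (2 * B.card) ≤ k * (r * r) * U ^ s := by
    calc k * (r * r) * (2 * B.card) = B.card * (2 * (k * (r * r))) := by ring
      _ ≤ B.card * U := Nat.mul_le_mul_left _ hU
      _ ≤ _ := h3
  have h7 := Nat.le_of_mul_le_mul_left h6 (Nat.mul_pos hk (Nat.mul_pos hr hr))
  omega

open Classical in
/-- the bound for a residue class `η` of the parameters, `k` systems of `r` forms -/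
lemma class_boundK (m k r s : ℕ) (hk : 0 < k) (hr : 0 < r) (τ c1 c2 : ℝ)
    (a : Fin k → Fin r → Fin s → ℕ)
    (ha : ∀ l, ∀ I : Fin (m + 1) ↪ Fin r,
      AffineIndependent ℚ (fun j : Fin (m + 1) => (fun t : Fin s => (a l (I j) t : ℚ))))
    (ha' : ∀ l i j, i ≠ j → a l i ≠ a l j)
    (Ca : ℕ) (hCa : ∀ l i, ∑ t, a l i t ≤ Ca) (w U N : ℕ) (a0 : Fin k → ℕ)
    (hU : 2 * (k * (r * r)) ≤ U) (b : Fin k → Fin r → ℕ) (η : Fin s → ℕ)
    (hη : ∀ t, η t < Wp w) (ε' : ℝ) (hε' : 0 ≤ ε')
    (hct : ∀ l, ∀ (T : Type) [Fintype T] (e : T → Fin r → ℕ),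
      (∀ t i, e t i ∈ Vset (Wp w) (a l) (b l) η (Wp w * ((1 + Ca) * U))) →
      (∀ t, Function.Injective (e t)) →
      (∀ (I : Fin (m + 1) ↪ Fin r) (v : Fin (m + 1) → ℕ),
        ((univ.filter (fun t : T => ∀ i, e t (I i) = v i)).card : ℝ) ≤
          (2 * (2 * (r:ℝ) * (1 + Ca)) ^ (m + 1)) * (Fintype.card T : ℝ) /
            ((Vset (Wp w) (a l) (b l) η (Wp w * ((1 + Ca) * U))).card : ℝ) ^ (m + 1)) →
      ∀ S : Finset T, (∀ t ∈ S, ¬ GoodD r m τ c1 c2
        (fun I => ncnt N w (a0 l) (fun i => e t (I i)))) →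
      (S.card : ℝ) ≤ ε' * (Fintype.card T : ℝ))
    (S : Finset (Fin s → Fin U))
    (hS : ∀ u ∈ S, (∀ l, Function.Injective
        (val (a l) (b l) (pt (Wp w) η (fun t => (u t : ℕ))))) ∧
      ∀ u0 : Fin U, ∃ l, ¬ GoodD r m τ c1 c2 (fun I => ncnt N w (a0 l)
        (fun i => Wp w * (u0 : ℕ) + val (a l) (b l) (pt (Wp w) η (fun t => (u t : ℕ))) (I i)))) :
    (S.card : ℝ) ≤ k * ε' * (U : ℝ) ^ s := by
  have hWpos := f1_Wp_pos w
  have hkr : 1 ≤ k * (r * r) := Nat.mul_pos hk (Nat.mul_pos hr hr)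
  have hUpos : 0 < U := by omega
  have hUR : (0:ℝ) < (U:ℝ) := by exact_mod_cast hUpos
  -- size of V
  have hVle : ∀ l, ((Vset (Wp w) (a l) (b l) η (Wp w * ((1 + Ca) * U))).card : ℝ) ≤
      2 * (r:ℝ) * (1 + Ca) * U := by
    intro l
    have h1 := card_Vset_le (Wp w) hWpos (a l) (b l) η ((1 + Ca) * U)
    have h2 : r * ((1 + Ca) * U + 1) ≤ 2 * r * (1 + Ca) * U := by
      have h3 : 1 ≤ (1 + Ca) * U := Nat.one_le_iff_ne_zero.mpr (by positivity)
      nlinarith
    exact_mod_cast h1.trans h2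
  have hVpos : ∀ l, (0:ℝ) < ((Vset (Wp w) (a l) (b l) η (Wp w * ((1 + Ca) * U))).card : ℝ) := by
    intro l
    have h1 := le_card_Vset hr (Wp w) hWpos (a l) (b l) η ((1 + Ca) * U)
    have h3 : 0 < (1 + Ca) * U := by positivity
    exact_mod_cast lt_of_lt_of_le h3 h1
  let T : Type := {p : Fin U × (Fin s → Fin U) //
    ∀ l, Function.Injective (val (a l) (b l) (pt (Wp w) η (fun t => (p.2 t : ℕ))))}
  have hT : (U:ℝ) ^ (s + 1) ≤ 2 * (Fintype.card T : ℝ) := by
    have h1 := few_coincideK hk hr (Wp w) U hWpos hU a ha' b η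
    have h2 : Fintype.card T = ((univ : Finset (Fin U × (Fin s → Fin U))).filter (fun p =>
        ∀ l, Function.Injective
          (val (a l) (b l) (pt (Wp w) η (fun t => (p.2 t : ℕ)))))).card :=
      Fintype.card_subtype _
    have h3 : ((univ : Finset (Fin U)) ×ˢ ((univ : Finset (Fin s → Fin U)).filter (fun u =>
        ∀ l, Function.Injective (val (a l) (b l) (pt (Wp w) η (fun t => (u t : ℕ))))))) ⊆
        (univ : Finset (Fin U × (Fin s → Fin U))).filter (fun p =>
        ∀ l, Function.Injective (val (a l) (b l) (pt (Wp w) η (fun t => (p.2 t : ℕ))))) := by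
      intro p hp
      rw [Finset.mem_product] at hp
      rw [Finset.mem_filter]
      exact ⟨Finset.mem_univ _, (Finset.mem_filter.mp hp.2).2⟩
    have h4 := Finset.card_le_card h3
    rw [Finset.card_product, Finset.card_univ, Fintype.card_fin, ← h2] at h4
    have h5 : U ^ (s + 1) ≤ 2 * Fintype.card T := by
      calc U ^ (s + 1) = U * U ^ s := by ring
        _ ≤ U * (2 * _) := Nat.mul_le_mul_left _ h1
        _ = 2 * (U * _) := by ring
        _ ≤ _ := Nat.mul_le_mul_left _ h4
    exact_mod_cast h5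
  have hTle : (Fintype.card T : ℝ) ≤ (U:ℝ) ^ (s + 1) := by
    have h1 : Fintype.card T ≤ Fintype.card (Fin U × (Fin s → Fin U)) :=
      Fintype.card_subtype_le _
    rw [Fintype.card_prod, Fintype.card_fun, Fintype.card_fin, Fintype.card_fin] at h1
    have h2 : Fintype.card T ≤ U ^ (s + 1) := h1.trans (le_of_eq (by ring))
    exact_mod_cast h2
  have hTne : Nonempty T := by
    have h4 : (0:ℝ) < (U:ℝ) ^ (s + 1) := by positivity
    have h5 : (0:ℝ) < (Fintype.card T : ℝ) := by linarith
    exact Fintype.card_pos_iff.mp (by exact_mod_cast h5)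
  -- the exceptional sets of the systems
  let F : Fin k → Finset T := fun l => univ.filter (fun t : T => ¬ GoodD r m τ c1 c2
    (fun I => ncnt N w (a0 l) (fun i => Wp w * (t.1.1 : ℕ) +
      val (a l) (b l) (pt (Wp w) η (fun q => (t.1.2 q : ℕ))) (I i))))
  have hF : ∀ l, ((F l).card : ℝ) ≤ ε' * (Fintype.card T : ℝ) := by
    intro l
    refine hct l T
      (fun t i => Wp w * (t.1.1 : ℕ) + val (a l) (b l) (pt (Wp w) η (fun q => (t.1.2 q : ℕ))) i)
      (fun t i => mem_Vset (Wp w) U Ca (a l) (b l) (hCa l) η hη _ t.1.1.2 _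
        (fun q => (t.1.2 q).2) i)
      (fun t i j hij => t.2 l (by simpa using hij)) ?_ (F l)
      (fun t ht => (Finset.mem_filter.mp ht).2)
    intro I v
    set G := (univ.filter (fun t : T => ∀ i, Wp w * (t.1.1 : ℕ) +
      val (a l) (b l) (pt (Wp w) η (fun q => (t.1.2 q : ℕ))) (I i) = v i)) with hG
    have h1 : G.card * U ^ (m + 1) ≤ U ^ (s + 1) := by
      refine le_trans (Nat.mul_le_mul_right _ ?_) (solve_count (fun j => a l (I j)) (ha l I) U
        (fun j => (v j - val (a l) (b l) η (I j)) / Wp w))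
      refine Finset.card_le_card_of_injOn (fun t : T => t.1) ?_
        (fun t _ t' _ h => Subtype.ext h)
      intro t ht
      rw [Finset.mem_coe, hG, Finset.mem_filter] at ht
      rw [Finset.mem_coe, Finset.mem_filter]
      refine ⟨Finset.mem_univ _, fun j => ?_⟩
      have h2 := ht.2 j
      rw [val_pt] at h2
      have h3 : v j - val (a l) (b l) η (I j) =
          Wp w * ((t.1.1 : ℕ) + ∑ q, a l (I j) q * (t.1.2 q : ℕ)) := by
        rw [← h2, Nat.mul_add]
        omega
      rw [h3, Nat.mul_div_cancel_left _ hWpos]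
    have h2 : (G.card : ℝ) * (U:ℝ) ^ (m + 1) ≤ (U:ℝ) ^ (s + 1) := by exact_mod_cast h1
    have hVp := hVpos l
    rw [le_div_iff₀ (by positivity)]
    calc (G.card : ℝ) *
          ((Vset (Wp w) (a l) (b l) η (Wp w * ((1 + Ca) * U))).card : ℝ) ^ (m + 1) ≤
          (G.card : ℝ) * (2 * (r:ℝ) * (1 + Ca) * U) ^ (m + 1) :=
          mul_le_mul_of_nonneg_left (pow_le_pow_left₀ hVp.le (hVle l) _) (by positivity)
      _ = (2 * (r:ℝ) * (1 + Ca)) ^ (m + 1) * ((G.card : ℝ) * (U:ℝ) ^ (m + 1)) := by
          rw [mul_pow _ (U:ℝ)]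
          ring
      _ ≤ (2 * (r:ℝ) * (1 + Ca)) ^ (m + 1) * (2 * (Fintype.card T : ℝ)) :=
          mul_le_mul_of_nonneg_left (h2.trans hT) (by positivity)
      _ = _ := by ring
  have h1 : U * S.card ≤ ∑ l, (F l).card := by
    have h2 : ((univ : Finset (Fin U)) ×ˢ S).card ≤ (univ.biUnion F).card := by
      refine Finset.card_le_card_of_injOn (fun p : Fin U × (Fin s → Fin U) =>
        if hp : p.2 ∈ S then (⟨p, (hS p.2 hp).1⟩ : T) else Classical.choice hTne) ?_ ?_
      · intro p hp
        rw [Finset.mem_coe, Finset.mem_product] at hp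
        simp only
        rw [dif_pos hp.2, Finset.mem_coe, Finset.mem_biUnion]
        obtain ⟨l, hl⟩ := (hS p.2 hp.2).2 p.1
        exact ⟨l, Finset.mem_univ _, Finset.mem_filter.mpr ⟨Finset.mem_univ _, hl⟩⟩
      · intro p hp q hq hpq
        rw [Finset.mem_coe, Finset.mem_product] at hp hq
        simp only at hpq
        rw [dif_pos hp.2, dif_pos hq.2] at hpq
        exact congrArg Subtype.val hpq
    rw [Finset.card_product, Finset.card_univ, Fintype.card_fin] at h2
    exact h2.trans Finset.card_biUnion_le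
  have h3 : (U:ℝ) * (S.card : ℝ) ≤ ∑ l, ((F l).card : ℝ) := by exact_mod_cast h1
  have h4 : (U:ℝ) * (S.card : ℝ) ≤ (U:ℝ) * (k * ε' * (U : ℝ) ^ s) := by
    calc (U:ℝ) * (S.card : ℝ) ≤ ∑ l, ((F l).card : ℝ) := h3
      _ ≤ ∑ _l : Fin k, ε' * (Fintype.card T : ℝ) := Finset.sum_le_sum fun l _ => hF l
      _ = k * ε' * (Fintype.card T : ℝ) := by
          rw [Finset.sum_const, Finset.card_univ, Fintype.card_fin, nsmul_eq_mul]
          ring
      _ ≤ k * ε' * (U:ℝ) ^ (s + 1) := mul_le_mul_of_nonneg_left hTle (by positivity)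
      _ = _ := by ring
  exact le_of_mul_le_mul_left h4 hUR

end Pool.Agent.HLF
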