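import Mathlib
import Pool.Agent.HLT.RowMoment

set_option autoImplicit false

/-!
# Moments of the singular series along a row far from the diagonal
-/

open Finset Filter

namespace Pool.Agent.HLF

open Pool.Agent.HLT Pool.Agent.HLT.B6aux Pool.Agent.HL26 Pool.Agent.Maynard

/-- pointwise bound, with the divisor function itself -/
theorem pp_pow_far (J w h Q : ℕ) (hh : h ≠ 0) (hhQ : h ≤ Q) :
    pp w h ^ J - 1 ≤ ∑ q ∈ (Finset.range (Q + 1)).filter (fun q => w < q ∧ q.Coprime (Wp w)),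
      (if q ∣ h then ((2:ℝ) ^ (J + 1)) ^ q.primeFactors.card / (q:ℝ) else 0) := by
  classical
  set S := h.primeFactors.filter (fun p => w < p) with hS
  have hSp : ∀ p ∈ S, p.Prime := fun p hp =>
    Nat.prime_of_mem_primeFactors (Finset.mem_filter.mp hp).1
  have hSw : ∀ p ∈ S, w < p := fun p hp => (Finset.mem_filter.mp hp).2
  have e1 : pp w h ^ J = ∏ p ∈ S, (1 + (((p:ℝ) / ((p:ℝ) - 1)) ^ J - 1)) := by
    unfold pp
    rw [← Finset.prod_pow]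
    refine Finset.prod_congr rfl fun p _ => by ring
  rw [e1, Finset.prod_one_add]
  have e2 : ∑ t ∈ S.powerset, ∏ p ∈ t, (((p:ℝ) / ((p:ℝ) - 1)) ^ J - 1) - 1 =
      ∑ t ∈ S.powerset.erase ∅, ∏ p ∈ t, (((p:ℝ) / ((p:ℝ) - 1)) ^ J - 1) := by
    rw [← Finset.sum_erase_add _ _ (Finset.empty_mem_powerset S), Finset.prod_empty]
    ring
  rw [e2]
  have hterm : ∀ t ∈ S.powerset.erase ∅, ∏ p ∈ t, (((p:ℝ) / ((p:ℝ) - 1)) ^ J - 1) ≤
      ((2:ℝ) ^ (J + 1)) ^ (∏ p ∈ t, p).primeFactors.card / (((∏ p ∈ t, p : ℕ)) : ℝ) := by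
    intro t ht
    have htS : t ⊆ S := Finset.mem_powerset.mp (Finset.mem_erase.mp ht).2
    have htp : ∀ p ∈ t, p.Prime := fun p hp => hSp p (htS hp)
    calc ∏ p ∈ t, (((p:ℝ) / ((p:ℝ) - 1)) ^ J - 1) ≤ ∏ p ∈ t, ((2:ℝ) ^ (J + 1) / p) :=
          Finset.prod_le_prod (fun p hp => (b_le J p (htp p hp)).1)
            (fun p hp => (b_le J p (htp p hp)).2)
      _ = ((2:ℝ) ^ (J + 1)) ^ t.card / ((∏ p ∈ t, p : ℕ) : ℝ) := by
          rw [Finset.prod_div_distrib, Finset.prod_const]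
          push_cast
          rfl
      _ = _ := by rw [Nat.primeFactors_prod htp]
  refine (Finset.sum_le_sum hterm).trans ?_
  have hinj : Set.InjOn (fun t : Finset ℕ => (∏ p ∈ t, p : ℕ))
      (S.powerset.erase ∅ : Set (Finset ℕ)) := by
    intro t ht s hs hts
    have htS : t ⊆ S := Finset.mem_powerset.mp (Finset.mem_erase.mp (Finset.mem_coe.mp ht)).2
    have hsS : s ⊆ S := Finset.mem_powerset.mp (Finset.mem_erase.mp (Finset.mem_coe.mp hs)).2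
    have h1 := Nat.primeFactors_prod (fun p hp => hSp p (htS hp))
    have h2 := Nat.primeFactors_prod (fun p hp => hSp p (hsS hp))
    simp only at hts
    rw [← h1, ← h2, hts]
  rw [← Finset.sum_image
    (f := fun q : ℕ => ((2:ℝ) ^ (J + 1)) ^ q.primeFactors.card / (q:ℝ)) hinj]
  rw [← Finset.sum_filter]
  refine Finset.sum_le_sum_of_subset_of_nonneg ?_ (fun q _ _ => by positivity)
  intro q hq
  obtain ⟨t, ht, rfl⟩ := Finset.mem_image.mp hq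
  have htS : t ⊆ S := Finset.mem_powerset.mp (Finset.mem_erase.mp ht).2
  have hne : t.Nonempty := Finset.nonempty_iff_ne_empty.mpr (Finset.mem_erase.mp ht).1
  have htp : ∀ p ∈ t, p.Prime := fun p hp => hSp p (htS hp)
  have hdvd : (∏ p ∈ t, p) ∣ h := by
    refine dvd_trans ?_ (Nat.prod_primeFactors_dvd h)
    exact Finset.prod_dvd_prod_of_subset _ _ _ (htS.trans (Finset.filter_subset _ _))
  obtain ⟨p0, hp0⟩ := hne
  have hp0q : p0 ≤ ∏ p ∈ t, p :=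
    Nat.le_of_dvd (Finset.prod_pos fun p hp => (htp p hp).pos) (Finset.dvd_prod_of_mem _ hp0)
  simp only [Finset.mem_filter, Finset.mem_range]
  refine ⟨⟨?_, ?_, ?_⟩, hdvd⟩
  · have := Nat.le_of_dvd (Nat.pos_of_ne_zero hh) hdvd
    omega
  · exact lt_of_lt_of_le (hSw p0 (htS hp0)) hp0q
  · refine Nat.Coprime.prod_left fun p hp => ?_
    refine Nat.Coprime.prod_right fun r hr => ?_
    rw [Nat.coprime_primes (htp p hp) (PPy_prime w r hr)]
    have h1 := hSw p (htS hp)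
    have h2 : r < w + 1 := Finset.mem_range.mp (Finset.mem_filter.mp hr).1
    omega

theorem card_Icc_class (b H M a : ℕ) :
    ((Finset.Icc b (b + H)).filter (fun v => v ≡ a [MOD M])).card ≤ H / M + 1 := by
  have : ((Finset.Icc b (b + H)).filter (fun v => v ≡ a [MOD M])).card ≤
      (Finset.range (H / M + 1)).card := by
    refine Finset.card_le_card_of_injOn (fun v => (v - b) / M) ?_ ?_
    · intro v hv
      have hv' := (Finset.mem_filter.mp (Finset.mem_coe.mp hv)).1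
      rw [Finset.mem_Icc] at hv'
      simp only [Finset.coe_range, Set.mem_Iio]
      have : (v - b) / M ≤ H / M := Nat.div_le_div_right (by omega)
      omega
    · intro v hv v' hv' hvv
      have h1 := Finset.mem_filter.mp (Finset.mem_coe.mp hv)
      have h2 := Finset.mem_filter.mp (Finset.mem_coe.mp hv')
      have h3 := Finset.mem_Icc.mp h1.1
      have h4 := Finset.mem_Icc.mp h2.1
      have h5 : v ≡ v' [MOD M] := h1.2.trans h2.2.symm
      have h6 : v - b ≡ v' - b [MOD M] := by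
        have h7 : b + (v - b) ≡ b + (v' - b) [MOD M] := by
          rw [Nat.add_sub_cancel' h3.1, Nat.add_sub_cancel' h4.1]
          exact h5
        exact Nat.ModEq.add_left_cancel' b h7
      have h7 := Nat.div_add_mod (v - b) M
      have h8 := Nat.div_add_mod (v' - b) M
      have h9 : (v - b) % M = (v' - b) % M := h6
      have h10 : (v - b) / M = (v' - b) / M := hvv
      rw [h10, h9, h8] at h7
      omega
  simpa using this

/-- counting -/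
theorem count_far (w b H q c d : ℕ) (hcop : q.Coprime (Wp w)) :
    ((((Finset.Icc b (b + H)).filter (fun v => v ≡ c [MOD Wp w])).filter
      (fun v => q ∣ Nat.dist d v)).card : ℝ) ≤ (H:ℝ) / ((Wp w : ℝ) * q) + 1 := by
  obtain ⟨a, ha1, ha2⟩ := Nat.chineseRemainder hcop.symm c d
  have hsub : ((Finset.Icc b (b + H)).filter (fun v => v ≡ c [MOD Wp w])).filter
      (fun v => q ∣ Nat.dist d v) ⊆
      (Finset.Icc b (b + H)).filter (fun v => v ≡ a [MOD Wp w * q]) := by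
    intro x hx
    have hx1 := Finset.mem_filter.mp hx
    have hx2 := Finset.mem_filter.mp hx1.1
    refine Finset.mem_filter.mpr ⟨hx2.1, ?_⟩
    rw [← Nat.modEq_and_modEq_iff_modEq_mul hcop.symm]
    exact ⟨hx2.2.trans ha1.symm, ((dvd_dist_iff q d x).mp hx1.2).trans ha2.symm⟩
  have h1 := Finset.card_le_card hsub
  have h2 := card_Icc_class b H (Wp w * q) a
  have h3 : ((H / (Wp w * q) : ℕ) : ℝ) ≤ (H:ℝ) / ((Wp w : ℝ) * q) := by
    have := @Nat.cast_div_le ℝ _ _ _ H (Wp w * q)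
    push_cast at this
    exact this
  have h4 : ((((Finset.Icc b (b + H)).filter (fun v => v ≡ c [MOD Wp w])).filter
      (fun v => q ∣ Nat.dist d v)).card : ℝ) ≤ ((H / (Wp w * q) : ℕ) : ℝ) + 1 := by
    exact_mod_cast h1.trans h2
  linarith

/-- **Row moments, far from the diagonal.** -/
theorem row_far (J : ℕ) (κ : ℝ) (hκ : 0 < κ) : ∃ w0 : ℕ, ∀ w : ℕ, w0 ≤ w → ∀ A : ℕ,
    ∀ᶠ N : ℕ in atTop, ∀ H b c d : ℕ, Real.log N ≤ H → (H:ℝ) ≤ (Real.log N) ^ A →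
      (b:ℝ) ≤ (Real.log N) ^ A → (d:ℝ) ≤ (Real.log N) ^ A →
      ∑ v ∈ (Finset.Icc b (b + H)).filter (fun v => v ≡ c [MOD Wp w]),
        (if v = d then 0 else pp w (Nat.dist d v) ^ J - 1) ≤ κ * ((H:ℝ) / Wp w) := by
  obtain ⟨C, hC1, hC⟩ := Pool.Agent.ANT.pow_omega_le (ε := 1/4) (by norm_num)
    (c := (2:ℝ) ^ (J + 1)) (one_le_pow₀ (by norm_num))
  have hC0 : 0 ≤ C := by linarith
  have hsum : Summable (fun n : ℕ => (n:ℝ) ^ (-(3/2):ℝ)) :=
    Real.summable_nat_rpow.mpr (by norm_num)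
  set T : ℝ := ∑' n : ℕ, (n:ℝ) ^ (-(3/2):ℝ) with hT
  have hT0 : 0 ≤ T := tsum_nonneg fun n => by positivity
  have hTs : ∀ s : Finset ℕ, ∑ n ∈ s, (n:ℝ) ^ (-(3/2):ℝ) ≤ T := fun s =>
    hsum.sum_le_tsum s (fun n _ => by positivity)
  have htend : Tendsto (fun n : ℕ => (n:ℝ) ^ (1/4:ℝ)) atTop atTop :=
    (tendsto_rpow_atTop (by norm_num)).comp tendsto_natCast_atTop_atTop
  obtain ⟨w0, hw0, hw01⟩ := ((htend.eventually_ge_atTop (4 * C * T / κ)).and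
    (eventually_ge_atTop 1)).exists
  refine ⟨w0, fun w hw A => ?_⟩
  have hW := Wp_pos w
  have hWR : (0:ℝ) < Wp w := by exact_mod_cast hW
  have hw1 : (1:ℝ) ≤ w := by exact_mod_cast hw01.trans hw
  have hwp : (0:ℝ) < w := by linarith
  have hw4 : 4 * C * T / κ ≤ (w:ℝ) ^ (1/4:ℝ) :=
    hw0.trans (Real.rpow_le_rpow (by positivity) (by exact_mod_cast hw) (by norm_num))
  have hwneg : C * T * (w:ℝ) ^ (-(1/4):ℝ) ≤ κ / 4 := by
    rw [Real.rpow_neg hwp.le, ← div_eq_mul_inv, div_le_iff₀ (by positivity)]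
    rw [div_le_iff₀ hκ] at hw4
    linarith
  -- the second constant
  obtain ⟨δ, hδ⟩ : ∃ δ : ℝ, δ = 1 / (4 * ((A:ℝ) + 1)) := ⟨_, rfl⟩
  have hA1 : (0:ℝ) < (A:ℝ) + 1 := by positivity
  have hδ0 : 0 < δ := by rw [hδ]; positivity
  have hδA : δ * ((A:ℝ) + 1) = 1 / 4 := by rw [hδ]; field_simp
  have hδ1 : δ ≤ 1 / 4 := by
    have : δ * 1 ≤ δ * ((A:ℝ) + 1) :=
      mul_le_mul_of_nonneg_left (by linarith [Nat.cast_nonneg (α := ℝ) A]) hδ0.le
    linarith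
  obtain ⟨C', hC'1, hC'⟩ := Pool.Agent.ANT.pow_omega_le (ε := δ) hδ0
    (c := (2:ℝ) ^ (J + 1)) (one_le_pow₀ (by norm_num))
  have hC'0 : 0 ≤ C' := by linarith
  have hsum' : Summable (fun n : ℕ => (n:ℝ) ^ (-(1 + δ):ℝ)) :=
    Real.summable_nat_rpow.mpr (by linarith)
  set T' : ℝ := ∑' n : ℕ, (n:ℝ) ^ (-(1 + δ):ℝ) with hT'
  have hT'0 : 0 ≤ T' := tsum_nonneg fun n => by positivity
  have hT's : ∀ s : Finset ℕ, ∑ n ∈ s, (n:ℝ) ^ (-(1 + δ):ℝ) ≤ T' := fun s =>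
    hsum'.sum_le_tsum s (fun n _ => by positivity)
  have hlog : Tendsto (fun N : ℕ => Real.log N) atTop atTop :=
    Real.tendsto_log_atTop.comp tendsto_natCast_atTop_atTop
  have hlogs : Tendsto (fun N : ℕ => (Real.log N) ^ (1/2:ℝ)) atTop atTop :=
    (tendsto_rpow_atTop (by norm_num)).comp hlog
  filter_upwards [hlog.eventually_ge_atTop 1,
    hlogs.eventually_ge_atTop (4 * (3 * C' * T') * Wp w / κ)] with N hN1 hN2
  intro H b c d hH1 hH2 hb hd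
  set L := Real.log N with hL
  have hL0 : 0 < L := by linarith
  have hHR : (0:ℝ) < H := by linarith
  obtain ⟨Q, hQ⟩ : ∃ Q : ℕ, Q = b + H + d := ⟨_, rfl⟩
  have hQR : (Q:ℝ) ≤ 3 * L ^ A := by
    rw [hQ]
    push_cast
    linarith
  have hQ2 : (Q:ℝ) ^ (2 * δ) ≤ 3 * L ^ (1/2:ℝ) := by
    have h1 : (Q:ℝ) ^ (2 * δ) ≤ (3 * L ^ A) ^ (2 * δ) :=
      Real.rpow_le_rpow (Nat.cast_nonneg _) hQR (by positivity)
    have h2 : (3 * L ^ A) ^ (2 * δ) = (3:ℝ) ^ (2 * δ) * L ^ ((A:ℝ) * (2 * δ)) := by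
      rw [Real.mul_rpow (by norm_num) (by positivity), ← Real.rpow_natCast L A,
        ← Real.rpow_mul hL0.le]
    have h3 : (3:ℝ) ^ (2 * δ) ≤ 3 := by
      calc (3:ℝ) ^ (2 * δ) ≤ (3:ℝ) ^ (1:ℝ) :=
            Real.rpow_le_rpow_of_exponent_le (by norm_num) (by linarith)
        _ = 3 := Real.rpow_one 3
    have h4 : L ^ ((A:ℝ) * (2 * δ)) ≤ L ^ (1/2:ℝ) :=
      Real.rpow_le_rpow_of_exponent_le hN1 (by nlinarith)
    rw [h2] at h1
    exact h1.trans (mul_le_mul h3 h4 (by positivity) (by norm_num))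
  set V := (Finset.Icc b (b + H)).filter (fun v => v ≡ c [MOD Wp w]) with hV
  set B := (Finset.range (Q + 1)).filter (fun q => w < q ∧ q.Coprime (Wp w)) with hB
  have hBq : ∀ q ∈ B, q ≤ Q ∧ w < q ∧ q.Coprime (Wp w) := by
    intro q hq
    simp only [hB, Finset.mem_filter, Finset.mem_range] at hq
    exact ⟨by omega, hq.2.1, hq.2.2⟩
  obtain ⟨g, hg⟩ : ∃ g : ℕ → ℝ, ∀ q, g q = ((2:ℝ) ^ (J + 1)) ^ q.primeFactors.card / (q:ℝ) :=
    ⟨_, fun _ => rfl⟩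
  have hg0 : ∀ q, 0 ≤ g q := fun q => by rw [hg]; positivity
  have step1 : ∑ v ∈ V, (if v = d then 0 else pp w (Nat.dist d v) ^ J - 1) ≤
      ∑ v ∈ V, ∑ q ∈ B, (if q ∣ Nat.dist d v then g q else 0) := by
    refine Finset.sum_le_sum fun v hv => ?_
    split_ifs with h
    · exact Finset.sum_nonneg fun q _ => by
        split_ifs
        · exact hg0 q
        · exact le_rfl
    · have h1 := pp_pow_far J w (Nat.dist d v) Q (fun h0 => h (Nat.eq_of_dist_eq_zero h0).symm) (by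
        have h2 := Finset.mem_Icc.mp (Finset.mem_filter.mp hv).1
        unfold Nat.dist
        omega)
      refine h1.trans (le_of_eq (Finset.sum_congr rfl fun q _ => ?_))
      rw [hg]
  have step2 : ∑ v ∈ V, ∑ q ∈ B, (if q ∣ Nat.dist d v then g q else 0)
      = ∑ q ∈ B, g q * ((V.filter (fun v => q ∣ Nat.dist d v)).card : ℝ) := by
    rw [Finset.sum_comm]
    refine Finset.sum_congr rfl fun q _ => ?_
    rw [← Finset.sum_filter, Finset.sum_const, nsmul_eq_mul, mul_comm]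
  have step3 : ∀ q ∈ B, g q * ((V.filter (fun v => q ∣ Nat.dist d v)).card : ℝ) ≤
      (C * (w:ℝ) ^ (-(1/4):ℝ)) * ((H:ℝ) / Wp w) * (q:ℝ) ^ (-(3/2):ℝ) +
        (C' * (3 * L ^ (1/2:ℝ))) * (q:ℝ) ^ (-(1 + δ):ℝ) := by
    intro q hq
    obtain ⟨hqQ, hwq, hcop⟩ := hBq q hq
    have hq0 : 0 < q := by omega
    have hqR : (0:ℝ) < q := by exact_mod_cast hq0
    have hcnt := count_far w b H q c d hcop
    have hg1 : g q ≤ C * (q:ℝ) ^ (-(3/4):ℝ) := by
      rw [hg]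
      have h1 := hC q hq0.ne'
      have h2 : (q:ℝ) ^ (-(3/4):ℝ) = (q:ℝ) ^ (1/4:ℝ) / q := by
        rw [← Real.rpow_sub_one hqR.ne']; norm_num
      rw [h2, ← mul_div_assoc]
      exact div_le_div_of_nonneg_right h1 hqR.le
    have hg2 : g q ≤ C' * (q:ℝ) ^ (δ - 1:ℝ) := by
      rw [hg]
      have h1 := hC' q hq0.ne'
      rw [Real.rpow_sub_one hqR.ne', ← mul_div_assoc]
      exact div_le_div_of_nonneg_right h1 hqR.le
    have e34 : (q:ℝ) ^ (-(3/4):ℝ) / q ≤ (w:ℝ) ^ (-(1/4):ℝ) * (q:ℝ) ^ (-(3/2):ℝ) := by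
      rw [← Real.rpow_sub_one hqR.ne']
      have : (q:ℝ) ^ (-(3/4) - 1:ℝ) = (q:ℝ) ^ (-(1/4):ℝ) * (q:ℝ) ^ (-(3/2):ℝ) := by
        rw [← Real.rpow_add hqR]; norm_num
      rw [this]
      refine mul_le_mul_of_nonneg_right ?_ (by positivity)
      exact Real.rpow_le_rpow_of_nonpos hwp (by exact_mod_cast hwq.le) (by norm_num)
    have e32 : (q:ℝ) ^ (δ - 1:ℝ) ≤ (3 * L ^ (1/2:ℝ)) * (q:ℝ) ^ (-(1 + δ):ℝ) := by
      have : (q:ℝ) ^ (δ - 1:ℝ) = (q:ℝ) ^ (2 * δ) * (q:ℝ) ^ (-(1 + δ):ℝ) := by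
        rw [← Real.rpow_add hqR]; ring_nf
      rw [this]
      refine mul_le_mul_of_nonneg_right ?_ (by positivity)
      exact (Real.rpow_le_rpow hqR.le (by exact_mod_cast hqQ) (by positivity)).trans hQ2
    have hHW0 : (0:ℝ) ≤ (H:ℝ) / Wp w := by positivity
    calc g q * ((V.filter (fun v => q ∣ Nat.dist d v)).card : ℝ)
        ≤ g q * ((H:ℝ) / ((Wp w : ℝ) * q) + 1) := mul_le_mul_of_nonneg_left hcnt (hg0 q)
      _ = g q / q * ((H:ℝ) / Wp w) + g q := by field_simp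
      _ ≤ (C * (q:ℝ) ^ (-(3/4):ℝ)) / q * ((H:ℝ) / Wp w) + C' * (q:ℝ) ^ (δ - 1:ℝ) :=
          add_le_add (mul_le_mul_of_nonneg_right
            (div_le_div_of_nonneg_right hg1 hqR.le) hHW0) hg2
      _ = C * ((q:ℝ) ^ (-(3/4):ℝ) / q) * ((H:ℝ) / Wp w) + C' * (q:ℝ) ^ (δ - 1:ℝ) := by ring
      _ ≤ C * ((w:ℝ) ^ (-(1/4):ℝ) * (q:ℝ) ^ (-(3/2):ℝ)) * ((H:ℝ) / Wp w) +
            C' * ((3 * L ^ (1/2:ℝ)) * (q:ℝ) ^ (-(1 + δ):ℝ)) :=
          add_le_add (mul_le_mul_of_nonneg_right (mul_le_mul_of_nonneg_left e34 hC0) hHW0)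
            (mul_le_mul_of_nonneg_left e32 hC'0)
      _ = _ := by ring
  refine step1.trans ?_
  rw [step2]
  refine (Finset.sum_le_sum step3).trans ?_
  rw [Finset.sum_add_distrib, ← Finset.mul_sum, ← Finset.mul_sum]
  have hHW0 : (0:ℝ) ≤ (H:ℝ) / Wp w := by positivity
  have p1 : (C * (w:ℝ) ^ (-(1/4):ℝ)) * ((H:ℝ) / Wp w) * ∑ q ∈ B, (q:ℝ) ^ (-(3/2):ℝ) ≤
      κ / 4 * ((H:ℝ) / Wp w) := by
    calc (C * (w:ℝ) ^ (-(1/4):ℝ)) * ((H:ℝ) / Wp w) * ∑ q ∈ B, (q:ℝ) ^ (-(3/2):ℝ)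
        ≤ (C * (w:ℝ) ^ (-(1/4):ℝ)) * ((H:ℝ) / Wp w) * T :=
          mul_le_mul_of_nonneg_left (hTs B) (by positivity)
      _ = (C * T * (w:ℝ) ^ (-(1/4):ℝ)) * ((H:ℝ) / Wp w) := by ring
      _ ≤ _ := mul_le_mul_of_nonneg_right hwneg hHW0
  have p2 : (C' * (3 * L ^ (1/2:ℝ))) * ∑ q ∈ B, (q:ℝ) ^ (-(1 + δ):ℝ) ≤
      κ / 4 * ((H:ℝ) / Wp w) := by
    have h1 : (C' * (3 * L ^ (1/2:ℝ))) * ∑ q ∈ B, (q:ℝ) ^ (-(1 + δ):ℝ) ≤
        (C' * (3 * L ^ (1/2:ℝ))) * T' :=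
      mul_le_mul_of_nonneg_left (hT's B) (by positivity)
    refine h1.trans ?_
    rw [div_le_iff₀ hκ] at hN2
    have h2 : (3 * C' * T') * Wp w ≤ κ / 4 * L ^ (1/2:ℝ) := by linarith
    have h3 : L ^ (1/2:ℝ) * L ^ (1/2:ℝ) = L := by
      rw [← Real.rpow_add hL0]; norm_num
    have h4 : 0 ≤ L ^ (1/2:ℝ) := by positivity
    have h5 : (C' * (3 * L ^ (1/2:ℝ))) * T' * Wp w ≤ κ / 4 * (H:ℝ) := by
      calc (C' * (3 * L ^ (1/2:ℝ))) * T' * Wp w = L ^ (1/2:ℝ) * ((3 * C' * T') * Wp w) := by ring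
        _ ≤ L ^ (1/2:ℝ) * (κ / 4 * L ^ (1/2:ℝ)) := mul_le_mul_of_nonneg_left h2 h4
        _ = κ / 4 * (L ^ (1/2:ℝ) * L ^ (1/2:ℝ)) := by ring
        _ = κ / 4 * L := by rw [h3]
        _ ≤ κ / 4 * (H:ℝ) := mul_le_mul_of_nonneg_left hH1 (by positivity)
    rw [← mul_div_assoc, le_div_iff₀ hWR]
    exact h5
  have p3 : 0 ≤ κ * ((H:ℝ) / Wp w) := by positivity
  linarith

end Pool.Agent.HLF
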