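import Mathlib
import Pool.Agent.HLF.Class
import Pool.Agent.HLF.ClassB
import Pool.Agent.HLF.Row
import Pool.Agent.HLF.Irr

set_option autoImplicit false

open Finset Filter

namespace Pool.Agent.HLF

open Pool.Agent.HLT Pool.Agent.HL26

lemma translate0_shift (E : Finset ℕ) (hE : E.Nonempty) (k : ℕ) :
    translate0 (E.image (fun e => k + e)) = translate0 E := by
  classical
  have hmem : sInf (E : Set ℕ) ∈ E := Nat.sInf_mem (s := (E : Set ℕ)) hE
  have h1 : sInf ((E.image (fun e => k + e) : Finset ℕ) : Set ℕ) = k + sInf (E : Set ℕ) := by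
    apply le_antisymm
    · apply Nat.sInf_le
      rw [Finset.mem_coe, Finset.mem_image]
      exact ⟨_, hmem, rfl⟩
    · have h2 : sInf ((E.image (fun e => k + e) : Finset ℕ) : Set ℕ) ∈
          E.image (fun e => k + e) :=
        Nat.sInf_mem (s := ((E.image (fun e => k + e) : Finset ℕ) : Set ℕ)) (hE.image _)
      rw [Finset.mem_image] at h2
      obtain ⟨e, he, h3⟩ := h2
      have h4 : sInf (E : Set ℕ) ≤ e := Nat.sInf_le he
      omega
  unfold translate0
  rw [h1, Finset.image_image]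
  refine Finset.image_congr fun e _ => ?_
  simp only [Function.comp_apply]
  omega

lemma rows_ne {m s : ℕ} (hm : 1 ≤ m) (a : Fin (4 * m + 1) → Fin s → ℕ)
    (ha : ∀ I : Fin (m + 1) ↪ Fin (4 * m + 1),
      AffineIndependent ℚ (fun j : Fin (m + 1) => (fun t : Fin s => (a (I j) t : ℚ))))
    (i j : Fin (4 * m + 1)) (hij : i ≠ j) : a i ≠ a j := by
  classical
  obtain ⟨E, hE1, _, hE3⟩ := Finset.exists_subsuperset_card_eq
    (s := ({i, j} : Finset (Fin (4 * m + 1)))) (t := Finset.univ) (n := m + 1)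
    (Finset.subset_univ _) (by rw [Finset.card_pair hij]; omega)
    (by rw [Finset.card_univ, Fintype.card_fin]; omega)
  have hi : i ∈ Set.range (E.orderEmbOfFin hE3) := by
    rw [Finset.range_orderEmbOfFin]
    exact hE1 (by simp)
  have hj : j ∈ Set.range (E.orderEmbOfFin hE3) := by
    rw [Finset.range_orderEmbOfFin]
    exact hE1 (by simp)
  obtain ⟨k, hk⟩ := hi
  obtain ⟨l, hl⟩ := hj
  intro h
  have h1 := (ha (E.orderEmbOfFin hE3).toEmbedding).injective
  have h2 : k = l := by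
    apply h1
    funext t
    change ((a (E.orderEmbOfFin hE3 k) t : ℕ) : ℚ) = ((a (E.orderEmbOfFin hE3 l) t : ℕ) : ℚ)
    rw [hk, hl, h]
  apply hij
  rw [← hk, ← hl, h2]

lemma mem_Vset_props {r s : ℕ} (w : ℕ) (a : Fin r → Fin s → ℕ) (b : Fin r → ℕ)
    (η : Fin s → ℕ) (H a0 d : ℕ) (ha0 : ∀ i, (a0 + val a b η i).Coprime (Wp w))
    (hd : d ∈ Vset (Wp w) a b η H) :
    (∃ i, d ≤ b i + H) ∧ (a0 + d).Coprime (Wp w) := by
  unfold Vset at hd
  rw [Finset.mem_biUnion] at hd
  obtain ⟨i, _, hi⟩ := hd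
  rw [Finset.mem_filter, Finset.mem_Icc] at hi
  refine ⟨⟨i, hi.1.2⟩, ?_⟩
  have h1 : a0 + d ≡ a0 + val a b η i [MOD Wp w] := Nat.ModEq.add_left _ hi.2
  have h2 := ha0 i
  unfold Nat.Coprime at h2 ⊢
  rw [h1.gcd_eq]
  exact h2

/-- the tuple of `y` is admissible and violates the lower bound with constant `c` -/
def Viol {s : ℕ} (m : ℕ) (a : Fin (4 * m + 1) → Fin s → ℕ) (b : Fin (4 * m + 1) → ℕ) (c x : ℝ)
    (y : Fin s → ℕ) : Prop :=
  Function.Injective (val a b y) ∧
    (∀ p : ℕ, p.Prime → nu (univ.image (val a b y)) p < p) ∧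
    ∀ E' ∈ (univ.image (val a b y)).powersetCard (m + 1),
      (tupleCount x (translate0 E') : ℝ) <
        c * (singularSeries (translate0 E') * (x / (Real.log x) ^ (m + 1)))

/-- `y` is a regular violator -/
def RegV {s : ℕ} (m : ℕ) (a : Fin (4 * m + 1) → Fin s → ℕ) (b : Fin (4 * m + 1) → ℕ) (c x : ℝ)
    (w : ℕ) (y : Fin s → ℕ) : Prop :=
  Viol m a b c x y ∧ ∀ i j, i ≠ j → pp w (Nat.dist (val a b y i) (val a b y j)) ≤ 2

open Classical in
/-- almost all points of a box give tuples which contain an `(m+1)`-subset with a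
Hardy-Littlewood lower bound -/
theorem linear_families (m s : ℕ) (hm : 1 ≤ m) (a : Fin (4 * m + 1) → Fin s → ℕ)
    (ha : ∀ I : Fin (m + 1) ↪ Fin (4 * m + 1),
      AffineIndependent ℚ (fun j : Fin (m + 1) => (fun t : Fin s => (a (I j) t : ℚ))))
    (ε : ℝ) (hε : 0 < ε) : ∃ c K : ℝ, 0 < c ∧
    ∀ A : ℕ, ∃ X : ℝ, ∀ x : ℝ, X ≤ x → ∀ (H : ℕ) (b : Fin (4 * m + 1) → ℕ),
    K * Real.log x ≤ H → (H:ℝ) ≤ (Real.log x) ^ A → (∀ i, (b i : ℝ) ≤ (Real.log x) ^ A) →
    (((Fintype.piFinset (fun _ : Fin s => Finset.Icc 1 H)).filter (fun y =>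
        Function.Injective (val a b y) ∧
        (∀ p : ℕ, p.Prime → nu (univ.image (val a b y)) p < p) ∧
        ∀ E' ∈ (univ.image (val a b y)).powersetCard (m + 1),
          (tupleCount x (translate0 E') : ℝ) <
            c * (singularSeries (translate0 E') * (x / (Real.log x) ^ (m + 1))))).card : ℝ) ≤
      ε * (H:ℝ) ^ s := by
  have ha' := rows_ne hm a ha
  set Ca : ℕ := ∑ i, ∑ t, a i t with hCadef
  have hCa : ∀ i, ∑ t, a i t ≤ Ca := fun i =>
    Finset.single_le_sum (f := fun i => ∑ t, a i t) (fun _ _ => Nat.zero_le _) (Finset.mem_univ i)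
  set ε' : ℝ := ε / (2 * 2 ^ s) with hε'def
  have hε' : 0 < ε' := by positivity
  obtain ⟨c1, hc1, halive⟩ := alive_count (4 * m + 1) (by omega)
  obtain ⟨κ0, hκ0, w0, hw0⟩ := LF.class_tuplesV m hm
    (2 * (2 * (4 * (m:ℝ) + 1) * (1 + Ca)) ^ (m + 1)) ε' (by positivity) hε'
  set J : ℕ := (2 * m + 2) * ((m + 1) * (2 * m + 1)) with hJ
  set κ1 : ℝ := κ0 / ((4 * (m:ℝ) + 1) * (1 + Ca)) with hκ1def
  have hκ1 : 0 < κ1 := by positivity
  obtain ⟨w1, hw1⟩ := row_far J κ1 hκ1
  obtain ⟨w2, hw2⟩ := irregular a ha' ε' hε'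
  set w := max (max w0 w1) (max w2 1) with hw
  have hw0w : w0 ≤ w := (le_max_left _ _).trans (le_max_left _ _)
  have hw1w : w1 ≤ w := (le_max_right _ _).trans (le_max_left _ _)
  have hw2w : w2 ≤ w := (le_max_left _ _).trans (le_max_right _ _)
  have hw1' : 1 ≤ w := (le_max_right _ _).trans (le_max_right _ _)
  obtain ⟨K1, hK1⟩ := hw0 w hw0w
  have hWnat := f1_Wp_pos w
  have hWpos : (0:ℝ) < (Wp w : ℝ) := by exact_mod_cast hWnat
  have hφpos := f1_cW_pos w
  have hc0 := f1_c0_pos m
  set r := m + 1 with hr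
  refine ⟨c0 m / (8 * Wp w * 2 ^ (r * r * r)), max (|K1| * Wp w) 1, by positivity, fun A => ?_⟩
  have hKpos : (0:ℝ) < max (|K1| * Wp w) 1 := lt_max_of_lt_right one_pos
  obtain ⟨X, hX⟩ := f1_eventually (A + 1) 1
    ((3 + 2 * (Ca:ℝ)) + 2 * ((4 * (m:ℝ) + 1) * (4 * m + 1)) * Wp w + Wp w + 1) (Wp w) one_pos
    hWpos _ ((hK1 (A + 2)).and ((hw1 w hw1w (A + 2)).and (hw2 w hw2w (A + 2))))
  refine ⟨X, fun x hx H b hHlow hHup hbup => ?_⟩
  obtain ⟨⟨hP1, hP2, hP3⟩, hlogN, hlogle, hAle, hAx, hXS8, hbig, hxpos⟩ := hX x hx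
  rw [one_mul] at hbig
  set N := ⌊x / 3⌋₊ with hN
  have hCa0 : (0:ℝ) ≤ (Ca:ℝ) := Nat.cast_nonneg _
  have hm0 : (0:ℝ) ≤ (m:ℝ) := Nat.cast_nonneg _
  have hmW : 0 ≤ 2 * ((4 * (m:ℝ) + 1) * (4 * m + 1)) * Wp w := by positivity
  have hlogx : 0 < Real.log x := lt_of_lt_of_le hlogN hlogle
  have hlog1 : 1 ≤ Real.log x := by linarith
  have hHlog : Real.log x ≤ H := by
    refine le_trans ?_ hHlow
    exact le_mul_of_one_le_left hlogx.le (le_max_right _ _)
  have hHbig := hbig.trans hHlog
  -- the parameters `U`, `M`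
  set U := H / Wp w + 1 with hU
  set M := Wp w * U with hM
  have hHM : H < M := Nat.lt_mul_div_succ H hWnat
  have hHMR : (H:ℝ) ≤ M := by exact_mod_cast hHM.le
  have hWH : Wp w ≤ H := by
    have : (Wp w : ℝ) ≤ H := by linarith
    exact_mod_cast this
  have hM2 : M ≤ 2 * H := by
    have h1 : Wp w * (H / Wp w) ≤ H := Nat.mul_div_le H (Wp w)
    rw [hM, hU, Nat.mul_add, Nat.mul_one]
    omega
  have hM2R : (M:ℝ) ≤ 2 * H := by exact_mod_cast hM2
  have hUbig : 2 * ((4 * m + 1) * (4 * m + 1)) ≤ U := by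
    have h1 : 2 * ((4 * m + 1) * (4 * m + 1)) ≤ H / Wp w := by
      rw [Nat.le_div_iff_mul_le hWnat]
      have h2 : (2 * ((4 * (m:ℝ) + 1) * (4 * m + 1))) * Wp w ≤ H := by linarith
      exact_mod_cast h2
    exact h1.trans (Nat.le_succ _)
  have hUH : (H:ℝ) / Wp w ≤ U := by
    rw [div_le_iff₀ hWpos, mul_comm]
    have : (M:ℝ) = (Wp w : ℝ) * U := by rw [hM]; push_cast; ring
    rw [← this]
    exact hHMR
  have hU0 : 0 < U := Nat.succ_pos _
  have hUR : (0:ℝ) < U := by exact_mod_cast hU0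
  -- powers of the logarithm
  have hpw : ∀ z : ℝ, z ≤ (3 + 2 * (Ca:ℝ)) * (Real.log x) ^ A → z ≤ (Real.log x) ^ (A + 1) := by
    intro z hz
    refine hz.trans ?_
    rw [pow_succ, mul_comm ((Real.log x) ^ A)]
    exact mul_le_mul_of_nonneg_right (by linarith) (by positivity)
  have hLA : 0 ≤ (Real.log x) ^ A := by positivity
  have hMup : (M:ℝ) ≤ (Real.log x) ^ (A + 1) := hpw _ (by nlinarith)
  have hbup1 : ∀ i, (b i : ℝ) ≤ (Real.log x) ^ (A + 1) := fun i => hpw _ (by nlinarith [hbup i])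
  have hVup : ∀ i, ((b i + Wp w * ((1 + Ca) * U) : ℕ) : ℝ) ≤ (Real.log x) ^ (A + 1) := by
    intro i
    apply hpw
    have e1 : ((b i + Wp w * ((1 + Ca) * U) : ℕ) : ℝ) = b i + (1 + Ca) * (M:ℝ) := by
      rw [hM]; push_cast; ring
    rw [e1]
    have h1 : (1 + (Ca:ℝ)) * (M:ℝ) ≤ (1 + Ca) * (2 * (Real.log x) ^ A) :=
      mul_le_mul_of_nonneg_left (by linarith) (by positivity)
    have h2 := hbup i
    nlinarith
  have hlen : ((Wp w * ((1 + Ca) * U) : ℕ) : ℝ) ≤ (Real.log x) ^ (A + 1) := by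
    refine le_trans ?_ (hVup ⟨0, by omega⟩)
    push_cast
    have : (0:ℝ) ≤ (b ⟨0, by omega⟩ : ℝ) := Nat.cast_nonneg _
    linarith
  have hlenlow : Real.log N ≤ ((Wp w * ((1 + Ca) * U) : ℕ) : ℝ) := by
    have e1 : ((Wp w * ((1 + Ca) * U) : ℕ) : ℝ) = (1 + Ca) * (M:ℝ) := by
      rw [hM]; push_cast; ring
    rw [e1]
    have h1 : (M:ℝ) ≤ (1 + Ca) * (M:ℝ) := by nlinarith [Nat.cast_nonneg (α := ℝ) M]
    linarith
  -- the bound for XS
  have hXS : ∀ a0 : ℕ, x / (8 * Wp w) ≤ ((XS N w a0).card : ℝ) := by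
    intro a0
    have h := Pool.Agent.HLT.card_XS w N a0
    have h1 := (abs_le.mp h).1
    linarith
  have hNx : (N:ℝ) ≤ x / 3 := Nat.floor_le (by positivity)
  set Q := Fintype.piFinset (fun _ : Fin s => Finset.Icc 1 H) with hQ
  set Irr := (Fintype.piFinset (fun _ : Fin s => Finset.range M)).filter (fun y =>
        ∃ i j, i ≠ j ∧ (val a b y i = val a b y j ∨
          2 < pp w (Nat.dist (val a b y i) (val a b y j)))) with hIrr
  set Reg := Q.filter (RegV m a b (c0 m / (8 * Wp w * 2 ^ (r * r * r))) x w) with hReg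
  have hdec : ∀ S : Finset (Fin s → ℕ), (∀ y ∈ S, y ∈ Q ∧
        Viol m a b (c0 m / (8 * Wp w * 2 ^ (r * r * r))) x y) → S ⊆ Irr ∪ Reg := by
    intro S hS y hy'
    have hy := hS y hy'
    rw [Finset.mem_union]
    by_cases hc : ∃ i j, i ≠ j ∧ 2 < pp w (Nat.dist (val a b y i) (val a b y j))
    · left
      obtain ⟨i, j, hij, h2⟩ := hc
      rw [hIrr, Finset.mem_filter, Fintype.mem_piFinset]
      refine ⟨fun t => ?_, i, j, hij, Or.inr h2⟩
      have h3 := (Fintype.mem_piFinset.mp hy.1) t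
      rw [Finset.mem_Icc] at h3
      rw [Finset.mem_range]
      omega
    · right
      rw [hReg, Finset.mem_filter]
      push Not at hc
      exact ⟨hy.1, hy.2, hc⟩
  have hIrrcard : (Irr.card : ℝ) ≤ ε' * (M:ℝ) ^ s :=
    hP3 M b (by linarith) (hMup.trans hAle) (fun i => (hbup1 i).trans hAle)
  -- violators in a class
  have hclass : ∀ η ∈ Fintype.piFinset (fun _ : Fin s => Finset.range (Wp w)),
      ∀ S : Finset (Fin s → ℕ), (∀ y ∈ S, y ∈ Reg ∧ (fun t => y t % Wp w) = η) →
      (S.card : ℝ) ≤ ε' * (U:ℝ) ^ s := by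
    intro η hη S hS
    have hη1 : ∀ t, η t < Wp w := fun t => Finset.mem_range.mp (Fintype.mem_piFinset.mp hη t)
    rcases Finset.eq_empty_or_nonempty S with h0 | ⟨y1, hy1⟩
    · rw [h0]
      simp only [Finset.card_empty, Nat.cast_zero]
      positivity
    -- a point of the class
    have hpt : ∀ y : Fin s → ℕ, (fun t => y t % Wp w) = η →
        pt (Wp w) η (fun t => y t / Wp w) = y := by
      intro y hy
      rw [← hy]
      funext t
      exact Nat.mod_add_div _ _
    obtain ⟨a0, ha0⟩ : ∃ a0, ∀ i, (a0 + val a b η i).Coprime (Wp w) := by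
      obtain ⟨hy1R, hy1η⟩ := hS y1 hy1
      rw [hReg, Finset.mem_filter] at hy1R
      obtain ⟨_, ⟨hinj, hadm, _⟩, _⟩ := hy1R
      have h1 := halive w (univ.image (val a b y1))
        (by rw [Finset.card_image_of_injective _ hinj, Finset.card_univ, Fintype.card_fin]) hadm
      have h2 : (0:ℝ) < (((Finset.range (Wp w)).filter
          (fun a0 => ∀ e ∈ univ.image (val a b y1), (a0 + e).Coprime (Wp w))).card : ℝ) :=
        lt_of_lt_of_le (by positivity) h1
      have h3 : 0 < ((Finset.range (Wp w)).filter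
          (fun a0 => ∀ e ∈ univ.image (val a b y1), (a0 + e).Coprime (Wp w))).card := by
        exact_mod_cast h2
      obtain ⟨a0, ha0⟩ := Finset.card_pos.mp h3
      refine ⟨a0, fun i => ?_⟩
      have h4 := (Finset.mem_filter.mp ha0).2 _ (Finset.mem_image_of_mem _ (Finset.mem_univ i))
      rw [← hpt y1 hy1η, val_pt, ← add_assoc] at h4
      have h5 : a0 + val a b η i + Wp w * ∑ t, a i t * (y1 t / Wp w) ≡
          a0 + val a b η i [MOD Wp w] := by
        unfold Nat.ModEq
        rw [Nat.add_mul_mod_self_left]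
      unfold Nat.Coprime at h4 ⊢
      rw [← h5.gcd_eq]
      exact h4
    have hVprop : ∀ d ∈ Vset (Wp w) a b η (Wp w * ((1 + Ca) * U)),
        (d:ℝ) ≤ (Real.log N) ^ (A + 2) ∧ (a0 + d).Coprime (Wp w) := by
      intro d hd
      obtain ⟨⟨i, hi⟩, h2⟩ := mem_Vset_props w a b η _ a0 d ha0 hd
      refine ⟨?_, h2⟩
      have h3 : (d:ℝ) ≤ ((b i + Wp w * ((1 + Ca) * U) : ℕ) : ℝ) := by exact_mod_cast hi
      exact h3.trans ((hVup i).trans hAle)
    have hVlow := le_card_Vset (r := 4 * m + 1) (by omega) (Wp w) hWnat a b η ((1 + Ca) * U)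
    have hVlow' : (U:ℝ) ≤ ((Vset (Wp w) a b η (Wp w * ((1 + Ca) * U))).card : ℝ) := by
      have h1 : U ≤ (1 + Ca) * U := Nat.le_mul_of_pos_left _ (by omega)
      exact_mod_cast h1.trans hVlow
    have hVcard : K1 * Real.log N ≤
        ((Vset (Wp w) a b η (Wp w * ((1 + Ca) * U))).card : ℝ) := by
      refine le_trans ?_ (hUH.trans hVlow')
      rw [le_div_iff₀ hWpos]
      calc K1 * Real.log N * Wp w ≤ |K1| * Real.log x * Wp w := by
            apply mul_le_mul_of_nonneg_right _ hWpos.le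
            exact (mul_le_mul_of_nonneg_right (le_abs_self K1) hlogN.le).trans
              (mul_le_mul_of_nonneg_left hlogle (abs_nonneg _))
        _ = (|K1| * Wp w) * Real.log x := by ring
        _ ≤ max (|K1| * Wp w) 1 * Real.log x :=
            mul_le_mul_of_nonneg_right (le_max_left _ _) hlogx.le
        _ ≤ H := hHlow
    have hVrow : ∀ d ∈ Vset (Wp w) a b η (Wp w * ((1 + Ca) * U)),
        ∑ d' ∈ Vset (Wp w) a b η (Wp w * ((1 + Ca) * U)),
          (if d' = d then 0 else pp w (Nat.dist d d') ^ J - 1) ≤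
          κ0 * ((Vset (Wp w) a b η (Wp w * ((1 + Ca) * U))).card : ℝ) := by
      intro d hd
      have h1 := row_Vset w a b η ((1 + Ca) * U) J κ1 d (fun i =>
        hP2 (Wp w * ((1 + Ca) * U)) (b i) (val a b η i) d hlenlow (hlen.trans hAle)
          ((hbup1 i).trans hAle) (hVprop d hd).1)
      refine h1.trans ?_
      have h2 : ((4 * m + 1 : ℕ) : ℝ) * κ1 * (((1 + Ca) * U : ℕ) : ℝ) = κ0 * U := by
        rw [hκ1def]
        push_cast
        field_simp
      rw [h2]
      exact mul_le_mul_of_nonneg_left hVlow' hκ0.le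
    have hb := class_bound m s a ha ha' Ca hCa w U N a0 hUbig b η hη1 ε' hε'.le
      (hP1 a0 _ hVprop hVcard hVrow)
      ((univ : Finset (Fin s → Fin U)).filter (fun u => pt (Wp w) η (fun t => (u t : ℕ)) ∈ Reg))
      (by
        intro u hu
        have hu2 := (Finset.mem_filter.mp hu).2
        set y := pt (Wp w) η (fun t => (u t : ℕ)) with hy
        rw [hReg, Finset.mem_filter] at hu2
        obtain ⟨_, ⟨hinj, _, hviol⟩, hreg⟩ := hu2
        refine ⟨hinj, fun u0 I => ?_⟩
        have hEinj : Function.Injective (fun i => val a b y (I i)) := hinj.comp I.injective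
        set E' := (univ : Finset (Fin (m + 1))).image (fun i => val a b y (I i)) with hE'
        have hE'ne : E'.Nonempty := by
          rw [hE']
          exact (Finset.univ_nonempty).image _
        have hE'mem : E' ∈ (univ.image (val a b y)).powersetCard r := by
          rw [Finset.mem_powersetCard]
          refine ⟨?_, ?_⟩
          · intro e he
            rw [hE', Finset.mem_image] at he
            obtain ⟨i, _, rfl⟩ := he
            exact Finset.mem_image_of_mem _ (Finset.mem_univ _)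
          · rw [hE', Finset.card_image_of_injective _ hEinj, Finset.card_univ, Fintype.card_fin]
        have h1 : (((XS N w a0).filter (fun n => ∀ i, (n + (Wp w * (u0 : ℕ) +
            val a b y (I i))).Prime)).card : ℝ) ≤ (tupleCount x (translate0 E') : ℝ) := by
          rw [← translate0_shift E' hE'ne (Wp w * (u0 : ℕ))]
          refine le_trans ?_ (tupleCount_ge N w a0 x N (by push_cast; linarith)
            (E'.image (fun e => Wp w * (u0 : ℕ) + e)) (hE'ne.image _) ?_)
          · refine Nat.cast_le.mpr (Finset.card_le_card ?_)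
            intro n hn
            rw [Finset.mem_filter] at hn ⊢
            refine ⟨hn.1, ?_⟩
            intro e he
            rw [Finset.mem_image] at he
            obtain ⟨e1, he1, rfl⟩ := he
            rw [hE', Finset.mem_image] at he1
            obtain ⟨i, _, rfl⟩ := he1
            exact hn.2 i
          · intro e he
            rw [Finset.mem_image] at he
            obtain ⟨e1, he1, rfl⟩ := he
            rw [hE', Finset.mem_image] at he1
            obtain ⟨i, _, rfl⟩ := he1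
            have h2 := mem_Vset (Wp w) U Ca a b hCa η hη1 (u0 : ℕ) u0.2
              (fun t => (u t : ℕ)) (fun t => (u t).2) (I i)
            obtain ⟨⟨i', hi'⟩, _⟩ := mem_Vset_props w a b η _ a0 _ ha0 h2
            rw [hN]
            apply Nat.le_floor
            have h3 : ((Wp w * (u0 : ℕ) + val a b y (I i) : ℕ) : ℝ) ≤
                ((b i' + Wp w * ((1 + Ca) * U) : ℕ) : ℝ) := by exact_mod_cast hi'
            exact h3.trans ((hVup i').trans hAx)
        have h2 := hviol E' hE'mem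
        rw [singularSeries_translate0 E' hE'ne] at h2
        have h3 : singularSeries E' ≤ (1 / Maynard.cW (Wp w)) ^ r * 2 ^ (r * r * r) := by
          have h4 := singularSeries_le_pairs w r hw1' (by omega)
            (fun i : Fin r => val a b y (I i)) hEinj
          refine h4.trans ?_
          apply mul_le_mul_of_nonneg_left _ (by positivity)
          apply f1_pairs_le
          intro i j hij
          exact hreg _ _ (fun hh => hij (I.injective hh))
        refine lt_of_le_of_lt h1 (lt_of_lt_of_le h2 ?_)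
        have h6 : (Real.log N) ^ r ≤ (Real.log x) ^ r := pow_le_pow_left₀ hlogN.le hlogle _
        calc c0 m / (8 * Wp w * 2 ^ (r * r * r)) * (singularSeries E' * (x / (Real.log x) ^ r)) ≤
              c0 m / (8 * Wp w * 2 ^ (r * r * r)) *
                (((1 / Maynard.cW (Wp w)) ^ r * 2 ^ (r * r * r)) * (x / (Real.log N) ^ r)) := by
              apply mul_le_mul_of_nonneg_left _ (by positivity)
              apply mul_le_mul h3 _ (by positivity) (by positivity)
              exact div_le_div_of_nonneg_left hxpos.le (by positivity) h6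
          _ = c0 m * (x / (8 * Wp w)) / (Maynard.cW (Wp w) * Real.log N) ^ r := by
              rw [mul_pow, one_div, inv_pow]
              field_simp
          _ ≤ c0 m * ((XS N w a0).card : ℝ) / (Maynard.cW (Wp w) * Real.log N) ^ r := by
              apply div_le_div_of_nonneg_right _ (by positivity)
              exact mul_le_mul_of_nonneg_left (hXS a0) hc0.le)
    refine le_trans (Nat.cast_le.mpr ?_) hb
    refine Finset.card_le_card_of_injOn
      (fun y : Fin s → ℕ => (fun t => (⟨(y t / Wp w) % U, Nat.mod_lt _ hU0⟩ : Fin U))) ?_ ?_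
    · intro y hy
      obtain ⟨hyR, hyη⟩ := hS y (Finset.mem_coe.mp hy)
      have hlt : ∀ t, y t / Wp w < U := by
        intro t
        have h3 := (Fintype.mem_piFinset.mp (Finset.mem_filter.mp hyR).1) t
        rw [Finset.mem_Icc] at h3
        rw [Nat.div_lt_iff_lt_mul hWnat, mul_comm]
        omega
      rw [Finset.mem_coe, Finset.mem_filter]
      refine ⟨Finset.mem_univ _, ?_⟩
      have h4 : (fun t => (((⟨(y t / Wp w) % U, Nat.mod_lt _ hU0⟩ : Fin U) : ℕ))) =
          (fun t => y t / Wp w) := by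
        funext t
        exact Nat.mod_eq_of_lt (hlt t)
      simp only
      rw [h4, hpt y hyη]
      exact hyR
    · intro y hy z hz hyz
      replace hy := hS y (Finset.mem_coe.mp hy)
      replace hz := hS z (Finset.mem_coe.mp hz)
      have hlt : ∀ y' ∈ Reg, ∀ t, y' t / Wp w < U := by
        intro y' hy' t
        have h3 := (Fintype.mem_piFinset.mp (Finset.mem_filter.mp hy').1) t
        rw [Finset.mem_Icc] at h3
        rw [Nat.div_lt_iff_lt_mul hWnat, mul_comm]
        omega
      rw [← hpt y hy.2, ← hpt z hz.2]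
      congr 1
      funext t
      have h4 := congrArg Fin.val (congrFun hyz t)
      simp only at h4
      rw [Nat.mod_eq_of_lt (hlt y hy.1 t), Nat.mod_eq_of_lt (hlt z hz.1 t)] at h4
      exact h4
  -- sum over the classes
  have hRegcard : (Reg.card : ℝ) ≤ ε' * (M:ℝ) ^ s := by
    have hmaps : Set.MapsTo (fun y : Fin s → ℕ => (fun t => y t % Wp w)) (Reg : Set (Fin s → ℕ))
        (Fintype.piFinset (fun _ : Fin s => Finset.range (Wp w)) : Set (Fin s → ℕ)) := by
      intro y _
      rw [Finset.mem_coe, Fintype.mem_piFinset]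
      intro t
      rw [Finset.mem_range]
      exact Nat.mod_lt _ hWnat
    rw [Finset.card_eq_sum_card_fiberwise hmaps]
    push_cast
    refine (Finset.sum_le_sum fun η hη => hclass η hη _ (fun y hy => ?_)).trans ?_
    · exact f1_mem_filter _ _ _ _ hy
    rw [Finset.sum_const, Fintype.card_piFinset_const, Finset.card_range, nsmul_eq_mul]
    apply le_of_eq
    rw [hM]
    push_cast
    rw [mul_pow]
    ring
  have hfin : ∀ S : Finset (Fin s → ℕ), (∀ y ∈ S, y ∈ Q ∧
        Viol m a b (c0 m / (8 * Wp w * 2 ^ (r * r * r))) x y) →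
      (S.card : ℝ) ≤ ε * (H:ℝ) ^ s := by
    intro S hS
    have h1 := (Finset.card_le_card (hdec S hS)).trans (Finset.card_union_le _ _)
    have h2 : (S.card : ℝ) ≤ (Irr.card : ℝ) + (Reg.card : ℝ) := by exact_mod_cast h1
    refine h2.trans ((add_le_add hIrrcard hRegcard).trans ?_)
    have h3 : (M:ℝ) ^ s ≤ (2 * (H:ℝ)) ^ s := pow_le_pow_left₀ (by positivity) hM2R _
    calc ε' * (M:ℝ) ^ s + ε' * (M:ℝ) ^ s = 2 * ε' * (M:ℝ) ^ s := by ring
      _ ≤ 2 * ε' * (2 * (H:ℝ)) ^ s := mul_le_mul_of_nonneg_left h3 (by positivity)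
      _ = ε * (H:ℝ) ^ s := by
          rw [hε'def, mul_pow]
          field_simp
  refine hfin _ (fun y hy => ?_)
  exact f1_mem_filter _ _ _ _ hy

end Pool.Agent.HLF
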