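import Mathlib
import Pool.Agent.HLF.Main
import Pool.Agent.HLF.ClassE

set_option autoImplicit false

open Finset Filter

namespace Pool.Agent.HLF

open Pool.Agent.HLT Pool.Agent.HL26

lemma rows_ne' {m r s : ℕ} (hm : 1 ≤ m) (hmr : m + 1 ≤ r) (a : Fin r → Fin s → ℕ)
    (ha : ∀ I : Fin (m + 1) ↪ Fin r,
      AffineIndependent ℚ (fun j : Fin (m + 1) => (fun t : Fin s => (a (I j) t : ℚ))))
    (i j : Fin r) (hij : i ≠ j) : a i ≠ a j := by
  classical
  obtain ⟨E, hE1, _, hE3⟩ := Finset.exists_subsuperset_card_eq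
    (s := ({i, j} : Finset (Fin r))) (t := Finset.univ) (n := m + 1)
    (Finset.subset_univ _) (by rw [Finset.card_pair hij]; omega)
    (by rw [Finset.card_univ, Fintype.card_fin]; omega)
  have hi : i ∈ Set.range (E.orderEmbOfFin hE3) := by
    rw [Finset.range_orderEmbOfFin]
    exact hE1 (by simp)
  have hj : j ∈ Set.range (E.orderEmbOfFin hE3) := by
    rw [Finset.range_orderEmbOfFin]
    exact hE1 (by simp)
  obtain ⟨k, hk⟩ := hi
  obtain ⟨l, hl⟩ := hj
  intro h
  have h1 := (ha (E.orderEmbOfFin hE3).toEmbedding).injective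
  have h2 : k = l := by
    apply h1
    funext t
    change ((a (E.orderEmbOfFin hE3 k) t : ℕ) : ℚ) = ((a (E.orderEmbOfFin hE3 l) t : ℕ) : ℚ)
    rw [hk, hl, h]
  apply hij
  rw [← hk, ← hl, h2]

/-- every system gives an admissible tuple at `y`, and there is no large common index set with the
lower bound -/
def ViolK {k r s : ℕ} (m : ℕ) (a : Fin k → Fin r → Fin s → ℕ) (b : Fin k → Fin r → ℕ) (c x : ℝ)
    (y : Fin s → ℕ) : Prop :=
  (∀ l, Function.Injective (val (a l) (b l) y) ∧
    ∀ p : ℕ, p.Prime → nu (univ.image (val (a l) (b l) y)) p < p) ∧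
    ¬ ∃ S : Finset (Fin r), r ≤ 4 ^ k * S.card ∧ ∀ l, ∀ E' ∈
      (S.image (val (a l) (b l) y)).powersetCard (m + 1),
        c * (singularSeries (translate0 E') * (x / (Real.log x) ^ (m + 1))) ≤
          (tupleCount x (translate0 E') : ℝ)

/-- `y` is a regular violator -/
def RegK {k r s : ℕ} (m : ℕ) (a : Fin k → Fin r → Fin s → ℕ) (b : Fin k → Fin r → ℕ) (c x : ℝ)
    (w : ℕ) (y : Fin s → ℕ) : Prop :=
  ViolK m a b c x y ∧
    ∀ l i j, i ≠ j → pp w (Nat.dist (val (a l) (b l) y i) (val (a l) (b l) y j)) ≤ 2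

/-- an `(m+1)`-subset of the image of `S` is the image of an embedding into `S` -/
lemma exists_emb {r m : ℕ} (v : Fin r → ℕ) (hv : Function.Injective v) (S : Finset (Fin r))
    (E' : Finset ℕ) (hE' : E' ∈ (S.image v).powersetCard (m + 1)) :
    ∃ I : Fin (m + 1) ↪ Fin r, (∀ j, I j ∈ S) ∧
      (univ : Finset (Fin (m + 1))).image (fun i => v (I i)) = E' := by
  classical
  rw [Finset.mem_powersetCard] at hE'
  set S' := S.filter (fun i => v i ∈ E') with hS'
  have h1 : S'.image v = E' := by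
    ext e
    rw [Finset.mem_image]
    constructor
    · rintro ⟨i, hi, rfl⟩
      rw [hS', Finset.mem_filter] at hi
      exact hi.2
    · intro he
      have h2 := hE'.1 he
      rw [Finset.mem_image] at h2
      obtain ⟨i, hi, rfl⟩ := h2
      exact ⟨i, by rw [hS', Finset.mem_filter]; exact ⟨hi, he⟩, rfl⟩
  have h2 : S'.card = m + 1 := by
    rw [← hE'.2, ← h1, Finset.card_image_of_injective _ hv]
  refine ⟨(S'.orderEmbOfFin h2).toEmbedding, fun j => ?_, ?_⟩
  · have h3 := Finset.orderEmbOfFin_mem S' h2 j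
    exact (Finset.mem_filter.mp h3).1
  · rw [← h1]
    have h3 : (univ : Finset (Fin (m + 1))).image (S'.orderEmbOfFin h2) = S' :=
      Finset.image_orderEmbOfFin_univ _ _
    conv_rhs => rw [← h3]
    rw [Finset.image_image]
    rfl

open Classical in
/-- `k` systems of `r` affine forms: for almost all points of a box there is a common index set of
size at least `r / 4 ^ k`, all of whose `(m+1)`-subsets have the Hardy-Littlewood order in every
system -/
theorem systems (m k r s : ℕ) (hm : 1 ≤ m) (hk : 1 ≤ k) (hmr : m + 1 ≤ r)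
    (a : Fin k → Fin r → Fin s → ℕ)
    (ha : ∀ l, ∀ I : Fin (m + 1) ↪ Fin r,
      AffineIndependent ℚ (fun j : Fin (m + 1) => (fun t : Fin s => (a l (I j) t : ℚ))))
    (ε : ℝ) (hε : 0 < ε) : ∃ c K : ℝ, 0 < c ∧
    ∀ A : ℕ, ∃ X : ℝ, ∀ x : ℝ, X ≤ x → ∀ (H : ℕ) (b : Fin k → Fin r → ℕ),
    K * Real.log x ≤ H → (H:ℝ) ≤ (Real.log x) ^ A → (∀ l i, (b l i : ℝ) ≤ (Real.log x) ^ A) →
    (((Fintype.piFinset (fun _ : Fin s => Finset.Icc 1 H)).filter
      (ViolK m a b c x)).card : ℝ) ≤ ε * (H:ℝ) ^ s := by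
  have hr : 0 < r := by omega
  have hrR : (0:ℝ) < r := by exact_mod_cast hr
  have hkR : (0:ℝ) < k := by exact_mod_cast (by omega : 0 < k)
  have ha' : ∀ l i j, i ≠ j → a l i ≠ a l j := fun l => rows_ne' hm hmr (a l) (ha l)
  set Ca : ℕ := ∑ l, ∑ i, ∑ t, a l i t with hCadef
  have hCa : ∀ l i, ∑ t, a l i t ≤ Ca := fun l i =>
    (Finset.single_le_sum (f := fun i => ∑ t, a l i t) (fun _ _ => Nat.zero_le _)
      (Finset.mem_univ i)).trans (Finset.single_le_sum (f := fun l => ∑ i, ∑ t, a l i t)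
        (fun _ _ => Nat.zero_le _) (Finset.mem_univ l))
  set ε' : ℝ := ε / (2 * k * 2 ^ s) with hε'def
  have hε' : 0 < ε' := by positivity
  obtain ⟨τ, γ, hτ, hγ, hcomb⟩ := combine k r hk hr
  have hc1 := c1D_pos m hτ
  set cg : ℝ := c1D m τ * γ / 2 with hcg
  have hcg0 : 0 < cg := by positivity
  obtain ⟨ca, hca, halive⟩ := alive_count r hr
  obtain ⟨κ0, hκ0, w0, hw0⟩ := class_tuplesD m r hm hmr τ cg
    (2 * (2 * (r:ℝ) * (1 + Ca)) ^ (m + 1)) ε' hτ hcg0 (by positivity) hε'
  set J : ℕ := (2 * m + 2) * ((m + 1) * (2 * m + 1)) with hJ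
  set κ1 : ℝ := κ0 / ((r:ℝ) * (1 + Ca)) with hκ1def
  have hκ1 : 0 < κ1 := by positivity
  obtain ⟨w1, hw1⟩ := row_far J κ1 hκ1
  choose w2 hw2 using fun l => irregular (a l) (ha' l) ε' hε'
  set w := max (max w0 w1) (max (∑ l, w2 l) 1) with hw
  have hw0w : w0 ≤ w := (le_max_left _ _).trans (le_max_left _ _)
  have hw1w : w1 ≤ w := (le_max_right _ _).trans (le_max_left _ _)
  have hw2w : ∀ l, w2 l ≤ w := fun l =>
    (Finset.single_le_sum (f := w2) (fun _ _ => Nat.zero_le _) (Finset.mem_univ l)).trans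
      ((le_max_left _ _).trans (le_max_right _ _))
  have hw1' : 1 ≤ w := (le_max_right _ _).trans (le_max_right _ _)
  obtain ⟨K1, hK1⟩ := hw0 w hw0w
  have hWnat := f1_Wp_pos w
  have hWpos : (0:ℝ) < (Wp w : ℝ) := by exact_mod_cast hWnat
  have hφpos := f1_cW_pos w
  set q := m + 1 with hq
  refine ⟨cg / (8 * Wp w * 2 ^ (q * q * q)), max (|K1| * Wp w) 1, by positivity, fun A => ?_⟩
  have hKpos : (0:ℝ) < max (|K1| * Wp w) 1 := lt_max_of_lt_right one_pos
  have hirr : ∀ᶠ N : ℕ in atTop, ∀ l, ∀ (M : ℕ) (b : Fin r → ℕ),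
      Real.log N ≤ M → (M:ℝ) ≤ (Real.log N) ^ (A + 2) →
      (∀ i, (b i : ℝ) ≤ (Real.log N) ^ (A + 2)) →
      (((Fintype.piFinset (fun _ : Fin s => Finset.range M)).filter (fun y =>
        ∃ i j, i ≠ j ∧ (val (a l) b y i = val (a l) b y j ∨
          2 < pp w (Nat.dist (val (a l) b y i) (val (a l) b y j))))).card : ℝ) ≤
        ε' * (M:ℝ) ^ s := by
    rw [Filter.eventually_all]
    exact fun l => hw2 l w (hw2w l) (A + 2)
  obtain ⟨X, hX⟩ := f1_eventually (A + 1) 1
    ((3 + 2 * (Ca:ℝ)) + 2 * (k * ((r:ℝ) * r)) * Wp w + Wp w + 1) (Wp w) one_pos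
    hWpos _ ((hK1 (A + 2)).and ((hw1 w hw1w (A + 2)).and hirr))
  refine ⟨X, fun x hx H b hHlow hHup hbup => ?_⟩
  obtain ⟨⟨hP1, hP2, hP3⟩, hlogN, hlogle, hAle, hAx, hXS8, hbig, hxpos⟩ := hX x hx
  rw [one_mul] at hbig
  set N := ⌊x / 3⌋₊ with hN
  have hCa0 : (0:ℝ) ≤ (Ca:ℝ) := Nat.cast_nonneg _
  have hmW : 0 ≤ 2 * (k * ((r:ℝ) * r)) * Wp w := by positivity
  have hlogx : 0 < Real.log x := lt_of_lt_of_le hlogN hlogle
  have hlog1 : 1 ≤ Real.log x := by linarith
  have hHlog : Real.log x ≤ H := by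
    refine le_trans ?_ hHlow
    exact le_mul_of_one_le_left hlogx.le (le_max_right _ _)
  have hHbig := hbig.trans hHlog
  -- the parameters `U`, `M`
  set U := H / Wp w + 1 with hU
  set M := Wp w * U with hM
  have hHM : H < M := Nat.lt_mul_div_succ H hWnat
  have hHMR : (H:ℝ) ≤ M := by exact_mod_cast hHM.le
  have hWH : Wp w ≤ H := by
    have : (Wp w : ℝ) ≤ H := by linarith
    exact_mod_cast this
  have hM2 : M ≤ 2 * H := by
    have h1 : Wp w * (H / Wp w) ≤ H := Nat.mul_div_le H (Wp w)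
    rw [hM, hU, Nat.mul_add, Nat.mul_one]
    omega
  have hM2R : (M:ℝ) ≤ 2 * H := by exact_mod_cast hM2
  have hUbig : 2 * (k * (r * r)) ≤ U := by
    have h1 : 2 * (k * (r * r)) ≤ H / Wp w := by
      rw [Nat.le_div_iff_mul_le hWnat]
      have h2 : (2 * (k * ((r:ℝ) * r))) * Wp w ≤ H := by linarith
      exact_mod_cast h2
    exact h1.trans (Nat.le_succ _)
  have hUH : (H:ℝ) / Wp w ≤ U := by
    rw [div_le_iff₀ hWpos, mul_comm]
    have : (M:ℝ) = (Wp w : ℝ) * U := by rw [hM]; push_cast; ring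
    rw [← this]
    exact hHMR
  have hU0 : 0 < U := Nat.succ_pos _
  have hUR : (0:ℝ) < U := by exact_mod_cast hU0
  -- powers of the logarithm
  have hpw : ∀ z : ℝ, z ≤ (3 + 2 * (Ca:ℝ)) * (Real.log x) ^ A → z ≤ (Real.log x) ^ (A + 1) := by
    intro z hz
    refine hz.trans ?_
    rw [pow_succ, mul_comm ((Real.log x) ^ A)]
    exact mul_le_mul_of_nonneg_right (by linarith) (by positivity)
  have hLA : 0 ≤ (Real.log x) ^ A := by positivity
  have hMup : (M:ℝ) ≤ (Real.log x) ^ (A + 1) := hpw _ (by nlinarith)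
  have hbup1 : ∀ l i, (b l i : ℝ) ≤ (Real.log x) ^ (A + 1) :=
    fun l i => hpw _ (by nlinarith [hbup l i])
  have hVup : ∀ l i, ((b l i + Wp w * ((1 + Ca) * U) : ℕ) : ℝ) ≤ (Real.log x) ^ (A + 1) := by
    intro l i
    apply hpw
    have e1 : ((b l i + Wp w * ((1 + Ca) * U) : ℕ) : ℝ) = b l i + (1 + Ca) * (M:ℝ) := by
      rw [hM]; push_cast; ring
    rw [e1]
    have h1 : (1 + (Ca:ℝ)) * (M:ℝ) ≤ (1 + Ca) * (2 * (Real.log x) ^ A) :=
      mul_le_mul_of_nonneg_left (by linarith) (by positivity)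
    have h2 := hbup l i
    nlinarith
  have hlen : ((Wp w * ((1 + Ca) * U) : ℕ) : ℝ) ≤ (Real.log x) ^ (A + 1) := by
    refine le_trans ?_ (hVup ⟨0, hk⟩ ⟨0, hr⟩)
    push_cast
    have : (0:ℝ) ≤ (b ⟨0, hk⟩ ⟨0, hr⟩ : ℝ) := Nat.cast_nonneg _
    linarith
  have hlenlow : Real.log N ≤ ((Wp w * ((1 + Ca) * U) : ℕ) : ℝ) := by
    have e1 : ((Wp w * ((1 + Ca) * U) : ℕ) : ℝ) = (1 + Ca) * (M:ℝ) := by
      rw [hM]; push_cast; ring
    rw [e1]
    have h1 : (M:ℝ) ≤ (1 + Ca) * (M:ℝ) := by nlinarith [Nat.cast_nonneg (α := ℝ) M]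
    linarith
  -- the bound for XS
  have hXS : ∀ a0 : ℕ, x / (8 * Wp w) ≤ ((XS N w a0).card : ℝ) := by
    intro a0
    have h := Pool.Agent.HLT.card_XS w N a0
    have h1 := (abs_le.mp h).1
    linarith
  have hNx : (N:ℝ) ≤ x / 3 := Nat.floor_le (by positivity)
  obtain ⟨cc, hcc⟩ : ∃ cc : ℝ, cc = cg / (8 * Wp w * 2 ^ (q * q * q)) := ⟨_, rfl⟩
  rw [← hcc]
  set Q := Fintype.piFinset (fun _ : Fin s => Finset.Icc 1 H) with hQ
  let Irr : Fin k → Finset (Fin s → ℕ) := fun l =>
    (Fintype.piFinset (fun _ : Fin s => Finset.range M)).filter (fun y =>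
        ∃ i j, i ≠ j ∧ (val (a l) (b l) y i = val (a l) (b l) y j ∨
          2 < pp w (Nat.dist (val (a l) (b l) y i) (val (a l) (b l) y j))))
  have hIrrcard : ∀ l, ((Irr l).card : ℝ) ≤ ε' * (M:ℝ) ^ s := fun l =>
    hP3 l M (b l) (by linarith) (hMup.trans hAle) (fun i => (hbup1 l i).trans hAle)
  set Reg := Q.filter (RegK m a b cc x w) with hReg
  have hdec : Q.filter (ViolK m a b cc x) ⊆ (univ.biUnion Irr) ∪ Reg := by
    intro y hy
    rw [Finset.mem_filter] at hy
    rw [Finset.mem_union]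
    by_cases hc : ∃ l i j, i ≠ j ∧
        2 < pp w (Nat.dist (val (a l) (b l) y i) (val (a l) (b l) y j))
    · left
      obtain ⟨l, i, j, hij, h2⟩ := hc
      rw [Finset.mem_biUnion]
      refine ⟨l, Finset.mem_univ _, ?_⟩
      show y ∈ (Fintype.piFinset (fun _ : Fin s => Finset.range M)).filter _
      rw [Finset.mem_filter, Fintype.mem_piFinset]
      refine ⟨fun t => ?_, i, j, hij, Or.inr h2⟩
      have h3 := (Fintype.mem_piFinset.mp hy.1) t
      rw [Finset.mem_Icc] at h3
      rw [Finset.mem_range]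
      omega
    · right
      rw [hReg, Finset.mem_filter]
      push Not at hc
      exact ⟨hy.1, hy.2, hc⟩
  -- violators in a class
  have hclass : ∀ η ∈ Fintype.piFinset (fun _ : Fin s => Finset.range (Wp w)),
      ∀ S : Finset (Fin s → ℕ), (∀ y ∈ S, y ∈ Reg ∧ (fun t => y t % Wp w) = η) →
      (S.card : ℝ) ≤ k * ε' * (U:ℝ) ^ s := by
    intro η hη S hS
    have hη1 : ∀ t, η t < Wp w := fun t => Finset.mem_range.mp (Fintype.mem_piFinset.mp hη t)
    rcases Finset.eq_empty_or_nonempty S with h0 | ⟨y1, hy1⟩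
    · rw [h0]
      simp only [Finset.card_empty, Nat.cast_zero]
      positivity
    -- a point of the class
    have hpt : ∀ y : Fin s → ℕ, (fun t => y t % Wp w) = η →
        pt (Wp w) η (fun t => y t / Wp w) = y := by
      intro y hy
      rw [← hy]
      funext t
      exact Nat.mod_add_div _ _
    have hexa : ∀ l, ∃ a0, ∀ i, (a0 + val (a l) (b l) η i).Coprime (Wp w) := by
      intro l
      obtain ⟨hy1R, hy1η⟩ := hS y1 hy1
      rw [hReg, Finset.mem_filter] at hy1R
      obtain ⟨_, ⟨hia, _⟩, _⟩ := hy1R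
      obtain ⟨hinj, hadm⟩ := hia l
      have h1 := halive w (univ.image (val (a l) (b l) y1))
        (by rw [Finset.card_image_of_injective _ hinj, Finset.card_univ, Fintype.card_fin]) hadm
      have h2 : (0:ℝ) < (((Finset.range (Wp w)).filter
          (fun a0 => ∀ e ∈ univ.image (val (a l) (b l) y1), (a0 + e).Coprime (Wp w))).card : ℝ) :=
        lt_of_lt_of_le (by positivity) h1
      have h3 : 0 < ((Finset.range (Wp w)).filter
          (fun a0 => ∀ e ∈ univ.image (val (a l) (b l) y1), (a0 + e).Coprime (Wp w))).card := by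
        exact_mod_cast h2
      obtain ⟨a0, ha0⟩ := Finset.card_pos.mp h3
      refine ⟨a0, fun i => ?_⟩
      have h4 := (Finset.mem_filter.mp ha0).2 _ (Finset.mem_image_of_mem _ (Finset.mem_univ i))
      rw [← hpt y1 hy1η, val_pt, ← add_assoc] at h4
      have h5 : a0 + val (a l) (b l) η i + Wp w * ∑ t, a l i t * (y1 t / Wp w) ≡
          a0 + val (a l) (b l) η i [MOD Wp w] := by
        unfold Nat.ModEq
        rw [Nat.add_mul_mod_self_left]
      unfold Nat.Coprime at h4 ⊢
      rw [← h5.gcd_eq]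
      exact h4
    choose a0 ha0 using hexa
    have hVprop : ∀ l, ∀ d ∈ Vset (Wp w) (a l) (b l) η (Wp w * ((1 + Ca) * U)),
        (d:ℝ) ≤ (Real.log N) ^ (A + 2) ∧ (a0 l + d).Coprime (Wp w) := by
      intro l d hd
      obtain ⟨⟨i, hi⟩, h2⟩ := mem_Vset_props w (a l) (b l) η _ (a0 l) d (ha0 l) hd
      refine ⟨?_, h2⟩
      have h3 : (d:ℝ) ≤ ((b l i + Wp w * ((1 + Ca) * U) : ℕ) : ℝ) := by exact_mod_cast hi
      exact h3.trans ((hVup l i).trans hAle)
    have hVlow' : ∀ l,
        (U:ℝ) ≤ ((Vset (Wp w) (a l) (b l) η (Wp w * ((1 + Ca) * U))).card : ℝ) := by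
      intro l
      have h0 := le_card_Vset hr (Wp w) hWnat (a l) (b l) η ((1 + Ca) * U)
      have h1 : U ≤ (1 + Ca) * U := Nat.le_mul_of_pos_left _ (by omega)
      exact_mod_cast h1.trans h0
    have hVcard : ∀ l, K1 * Real.log N ≤
        ((Vset (Wp w) (a l) (b l) η (Wp w * ((1 + Ca) * U))).card : ℝ) := by
      intro l
      refine le_trans ?_ (hUH.trans (hVlow' l))
      rw [le_div_iff₀ hWpos]
      calc K1 * Real.log N * Wp w ≤ |K1| * Real.log x * Wp w := by
            apply mul_le_mul_of_nonneg_right _ hWpos.le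
            exact (mul_le_mul_of_nonneg_right (le_abs_self K1) hlogN.le).trans
              (mul_le_mul_of_nonneg_left hlogle (abs_nonneg _))
        _ = (|K1| * Wp w) * Real.log x := by ring
        _ ≤ max (|K1| * Wp w) 1 * Real.log x :=
            mul_le_mul_of_nonneg_right (le_max_left _ _) hlogx.le
        _ ≤ H := hHlow
    have hVrow : ∀ l, ∀ d ∈ Vset (Wp w) (a l) (b l) η (Wp w * ((1 + Ca) * U)),
        ∑ d' ∈ Vset (Wp w) (a l) (b l) η (Wp w * ((1 + Ca) * U)),
          (if d' = d then 0 else pp w (Nat.dist d d') ^ J - 1) ≤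
          κ0 * ((Vset (Wp w) (a l) (b l) η (Wp w * ((1 + Ca) * U))).card : ℝ) := by
      intro l d hd
      have h1 := row_Vset w (a l) (b l) η ((1 + Ca) * U) J κ1 d (fun i =>
        hP2 (Wp w * ((1 + Ca) * U)) (b l i) (val (a l) (b l) η i) d hlenlow (hlen.trans hAle)
          ((hbup1 l i).trans hAle) (hVprop l d hd).1)
      refine h1.trans ?_
      have h2 : (r : ℝ) * κ1 * (((1 + Ca) * U : ℕ) : ℝ) = κ0 * U := by
        rw [hκ1def]
        push_cast
        field_simp
      rw [h2]
      exact mul_le_mul_of_nonneg_left (hVlow' l) hκ0.le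
    have hb := class_boundK m k r s hk hr τ (c1D m τ) cg a ha ha' Ca hCa w U N a0 hUbig b η hη1
      ε' hε'.le (fun l => hP1 (a0 l) _ (hVprop l) (hVcard l) (hVrow l))
      ((univ : Finset (Fin s → Fin U)).filter (fun u => pt (Wp w) η (fun t => (u t : ℕ)) ∈ Reg))
      (by
        intro u hu
        have hu2 := (Finset.mem_filter.mp hu).2
        set y := pt (Wp w) η (fun t => (u t : ℕ)) with hy
        rw [hReg, Finset.mem_filter] at hu2
        obtain ⟨_, ⟨hia, hviol⟩, hreg⟩ := hu2
        refine ⟨fun l => (hia l).1, fun u0 => ?_⟩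
        by_contra hcon
        push Not at hcon
        apply hviol
        choose p hp hpI using hcon
        obtain ⟨σ, hσ1, hσ2⟩ := hcomb p hp
        refine ⟨univ.filter (fun i => ∀ l, i ∈ σ l), hσ2, ?_⟩
        intro l E' hE'mem
        have hinj := (hia l).1
        obtain ⟨I, hI1, hI2⟩ := exists_emb (val (a l) (b l) y) hinj _ E' hE'mem
        have hEinj : Function.Injective (fun i => val (a l) (b l) y (I i)) :=
          hinj.comp I.injective
        have hE'ne : E'.Nonempty := by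
          rw [← hI2]
          exact (Finset.univ_nonempty).image _
        -- the class has many tuples
        have hn1 : cg ≤ ncnt N w (a0 l)
            (fun i => Wp w * (u0 : ℕ) + val (a l) (b l) y (I i)) := by
          refine le_trans ?_ (hpI l I)
          have h5 : γ ≤ ∑ S ∈ univ.filter (fun S => ∀ j, I j ∈ S), p l S := by
            refine (hσ1 l).trans ?_
            refine Finset.single_le_sum (f := fun S => p l S) (fun S _ => (hp l).nonneg S) ?_
            rw [Finset.mem_filter]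
            exact ⟨Finset.mem_univ _, fun j => (Finset.mem_filter.mp (hI1 j)).2 l⟩
          have h6 := mul_le_mul_of_nonneg_left h5 hc1.le
          linarith
        have hXpos : (0:ℝ) < ((XS N w (a0 l)).card : ℝ) :=
          lt_of_lt_of_le (by positivity) (hXS (a0 l))
        have h1 : (((XS N w (a0 l)).filter (fun n => ∀ i, (n + (Wp w * (u0 : ℕ) +
            val (a l) (b l) y (I i))).Prime)).card : ℝ) ≤ (tupleCount x (translate0 E') : ℝ) := by
          rw [← translate0_shift E' hE'ne (Wp w * (u0 : ℕ))]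
          refine le_trans ?_ (tupleCount_ge N w (a0 l) x N (by push_cast; linarith)
            (E'.image (fun e => Wp w * (u0 : ℕ) + e)) (hE'ne.image _) ?_)
          · refine Nat.cast_le.mpr (Finset.card_le_card ?_)
            intro n hn
            rw [Finset.mem_filter] at hn ⊢
            refine ⟨hn.1, ?_⟩
            intro e he
            rw [Finset.mem_image] at he
            obtain ⟨e1, he1, rfl⟩ := he
            rw [← hI2, Finset.mem_image] at he1
            obtain ⟨i, _, rfl⟩ := he1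
            exact hn.2 i
          · intro e he
            rw [Finset.mem_image] at he
            obtain ⟨e1, he1, rfl⟩ := he
            rw [← hI2, Finset.mem_image] at he1
            obtain ⟨i, _, rfl⟩ := he1
            have h2 := mem_Vset (Wp w) U Ca (a l) (b l) (hCa l) η hη1 (u0 : ℕ) u0.2
              (fun t => (u t : ℕ)) (fun t => (u t).2) (I i)
            obtain ⟨⟨i', hi'⟩, _⟩ := mem_Vset_props w (a l) (b l) η _ (a0 l) _ (ha0 l) h2
            rw [hN]
            apply Nat.le_floor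
            have h3 : ((Wp w * (u0 : ℕ) + val (a l) (b l) y (I i) : ℕ) : ℝ) ≤
                ((b l i' + Wp w * ((1 + Ca) * U) : ℕ) : ℝ) := by exact_mod_cast hi'
            exact h3.trans ((hVup l i').trans hAx)
        refine le_trans ?_ h1
        rw [singularSeries_translate0 E' hE'ne]
        have h3 : singularSeries E' ≤ (1 / Maynard.cW (Wp w)) ^ q * 2 ^ (q * q * q) := by
          have h4 := singularSeries_le_pairs w q hw1' (by omega)
            (fun i : Fin q => val (a l) (b l) y (I i)) hEinj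
          rw [hI2] at h4
          refine h4.trans ?_
          apply mul_le_mul_of_nonneg_left _ (by positivity)
          apply f1_pairs_le
          intro i j hij
          exact hreg l _ _ (fun hh => hij (I.injective hh))
        have h6 : (Real.log N) ^ q ≤ (Real.log x) ^ q := pow_le_pow_left₀ hlogN.le hlogle _
        have h7 : cg * ((XS N w (a0 l)).card : ℝ) / (Maynard.cW (Wp w) * Real.log N) ^ q ≤
            (((XS N w (a0 l)).filter (fun n => ∀ i, (n + (Wp w * (u0 : ℕ) +
            val (a l) (b l) y (I i))).Prime)).card : ℝ) := by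
          rw [div_le_iff₀ (by positivity)]
          unfold ncnt at hn1
          rw [le_div_iff₀ hXpos] at hn1
          exact hn1
        refine le_trans ?_ h7
        rw [hcc]
        calc cg / (8 * Wp w * 2 ^ (q * q * q)) * (singularSeries E' * (x / (Real.log x) ^ q)) ≤
              cg / (8 * Wp w * 2 ^ (q * q * q)) *
                (((1 / Maynard.cW (Wp w)) ^ q * 2 ^ (q * q * q)) * (x / (Real.log N) ^ q)) := by
              apply mul_le_mul_of_nonneg_left _ (by positivity)
              apply mul_le_mul h3 _ (by positivity) (by positivity)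
              exact div_le_div_of_nonneg_left hxpos.le (by positivity) h6
          _ = cg * (x / (8 * Wp w)) / (Maynard.cW (Wp w) * Real.log N) ^ q := by
              rw [mul_pow, one_div, inv_pow]
              field_simp
          _ ≤ cg * ((XS N w (a0 l)).card : ℝ) / (Maynard.cW (Wp w) * Real.log N) ^ q := by
              apply div_le_div_of_nonneg_right _ (by positivity)
              exact mul_le_mul_of_nonneg_left (hXS (a0 l)) hcg0.le)
    refine le_trans (Nat.cast_le.mpr ?_) hb
    refine Finset.card_le_card_of_injOn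
      (fun y : Fin s → ℕ => (fun t => (⟨(y t / Wp w) % U, Nat.mod_lt _ hU0⟩ : Fin U))) ?_ ?_
    · intro y hy
      obtain ⟨hyR, hyη⟩ := hS y (Finset.mem_coe.mp hy)
      have hlt : ∀ t, y t / Wp w < U := by
        intro t
        have h3 := (Fintype.mem_piFinset.mp (Finset.mem_filter.mp hyR).1) t
        rw [Finset.mem_Icc] at h3
        rw [Nat.div_lt_iff_lt_mul hWnat, mul_comm]
        omega
      rw [Finset.mem_coe, Finset.mem_filter]
      refine ⟨Finset.mem_univ _, ?_⟩
      have h4 : (fun t => (((⟨(y t / Wp w) % U, Nat.mod_lt _ hU0⟩ : Fin U) : ℕ))) =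
          (fun t => y t / Wp w) := by
        funext t
        exact Nat.mod_eq_of_lt (hlt t)
      simp only
      rw [h4, hpt y hyη]
      exact hyR
    · intro y hy z hz hyz
      replace hy := hS y (Finset.mem_coe.mp hy)
      replace hz := hS z (Finset.mem_coe.mp hz)
      have hlt : ∀ y' ∈ Reg, ∀ t, y' t / Wp w < U := by
        intro y' hy' t
        have h3 := (Fintype.mem_piFinset.mp (Finset.mem_filter.mp hy').1) t
        rw [Finset.mem_Icc] at h3
        rw [Nat.div_lt_iff_lt_mul hWnat, mul_comm]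
        omega
      rw [← hpt y hy.2, ← hpt z hz.2]
      congr 1
      funext t
      have h4 := congrArg Fin.val (congrFun hyz t)
      simp only at h4
      rw [Nat.mod_eq_of_lt (hlt y hy.1 t), Nat.mod_eq_of_lt (hlt z hz.1 t)] at h4
      exact h4
  -- sum over the classes
  have hRegcard : (Reg.card : ℝ) ≤ k * ε' * (M:ℝ) ^ s := by
    have hmaps : Set.MapsTo (fun y : Fin s → ℕ => (fun t => y t % Wp w)) (Reg : Set (Fin s → ℕ))
        (Fintype.piFinset (fun _ : Fin s => Finset.range (Wp w)) : Set (Fin s → ℕ)) := by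
      intro y _
      rw [Finset.mem_coe, Fintype.mem_piFinset]
      intro t
      rw [Finset.mem_range]
      exact Nat.mod_lt _ hWnat
    rw [Finset.card_eq_sum_card_fiberwise hmaps]
    push_cast
    refine (Finset.sum_le_sum fun η hη => hclass η hη _ (fun y hy => ?_)).trans ?_
    · exact f1_mem_filter _ _ _ _ hy
    rw [Finset.sum_const, Fintype.card_piFinset_const, Finset.card_range, nsmul_eq_mul]
    apply le_of_eq
    rw [hM]
    push_cast
    rw [mul_pow]
    ring
  have h1 := (Finset.card_le_card hdec).trans ((Finset.card_union_le _ _).trans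
    (Nat.add_le_add_right Finset.card_biUnion_le _))
  have h2 : ((Q.filter (ViolK m a b cc x)).card : ℝ) ≤
      ∑ l, ((Irr l).card : ℝ) + (Reg.card : ℝ) := by exact_mod_cast h1
  have h3 : ∑ l, ((Irr l).card : ℝ) ≤ k * ε' * (M:ℝ) ^ s := by
    refine (Finset.sum_le_sum fun l _ => hIrrcard l).trans (le_of_eq ?_)
    rw [Finset.sum_const, Finset.card_univ, Fintype.card_fin, nsmul_eq_mul]
    ring
  refine h2.trans ((add_le_add h3 hRegcard).trans ?_)
  have h4 : (M:ℝ) ^ s ≤ (2 * (H:ℝ)) ^ s := pow_le_pow_left₀ (by positivity) hM2R _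
  calc k * ε' * (M:ℝ) ^ s + k * ε' * (M:ℝ) ^ s = 2 * k * ε' * (M:ℝ) ^ s := by ring
    _ ≤ 2 * k * ε' * (2 * (H:ℝ)) ^ s := mul_le_mul_of_nonneg_left h4 (by positivity)
    _ = ε * (H:ℝ) ^ s := by
        rw [hε'def, mul_pow]
        field_simp

end Pool.Agent.HLF
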